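import Mathlib
import Pool.Agent.Lib.MP_e326dc_an.Defs

/-!
# MP_e326dc_an, part A (Walsh's theorem) : abstract systems, internal systems, the hat system
-/

open Filter Topology

namespace MP_e326dc_an
namespace Walsh

/-- An abstract measure preserving system: an algebra `A` of bounded real functions on a set `Ω`, a positive
normalised functional `E`, an abelian group `G` acting and preserving `A` and `E`. -/
structure Sys where
  Ω : Type
  G : Type
  [grp : AddCommGroup G]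
  act : G → Ω → Ω
  act_zero : ∀ ω, act 0 ω = ω
  act_add : ∀ g h ω, act (g + h) ω = act g (act h ω)
  A : Set (Ω → ℝ)
  bdd : ∀ f ∈ A, ∃ C : ℝ, ∀ ω, |f ω| ≤ C
  const_mem : ∀ c : ℝ, (fun _ => c) ∈ A
  add_mem : ∀ f ∈ A, ∀ g ∈ A, (fun ω => f ω + g ω) ∈ A
  mul_mem : ∀ f ∈ A, ∀ g ∈ A, (fun ω => f ω * g ω) ∈ A
  comp_mem : ∀ f ∈ A, ∀ g, (fun ω => f (act g ω)) ∈ A
  E : (Ω → ℝ) → ℝ
  E_add : ∀ f ∈ A, ∀ g ∈ A, E (fun ω => f ω + g ω) = E f + E g
  E_smul : ∀ (c : ℝ), ∀ f ∈ A, E (fun ω => c * f ω) = c * E f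
  E_nonneg : ∀ f ∈ A, (∀ ω, 0 ≤ f ω) → 0 ≤ E f
  E_one : E (fun _ => 1) = 1
  E_act : ∀ f ∈ A, ∀ g, E (fun ω => f (act g ω)) = E f

attribute [instance] Sys.grp

/-- internal systems -/
abbrev ISys := ℕ → Sys

/-- internal maps `ℤ^ι → G` -/
abbrev IPoly (ι : Type) (X : ISys) := (j : ℕ) → (ι → ℤ) → (X j).G

/-- internal functions -/
abbrev IFn (X : ISys) := (j : ℕ) → (X j).Ω → ℝ

/-- internal functions in the algebra, uniformly bounded -/
def IsFn (X : ISys) (f : IFn X) : Prop :=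
  (∀ j, f j ∈ (X j).A) ∧ ∃ C : ℝ, ∀ j ω, |f j ω| ≤ C

/-- product of the translates of the functions of the list -/
def pr {ι : Type} (X : ISys) (L : List (IPoly ι X × IFn X)) (n : ι → ℤ) (j : ℕ) (ω : (X j).Ω) : ℝ :=
  (L.map fun x => x.2 j ((X j).act (x.1 j n) ω)).prod

/-- averages of the products -/
noncomputable def av {ι : Type} (X : ISys) (L : List (IPoly ι X × IFn X)) (Φ : Finset (ι → ℤ)) (j : ℕ)
    (ω : (X j).Ω) : ℝ :=
  avg Φ fun n => pr X L n j ω

/-- the box averages of the list are Cauchy in mean square, for most `j` -/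
def Cau {ι : Type} [Fintype ι] [DecidableEq ι] (X : ISys) (L : List (IPoly ι X × IFn X)) : Prop :=
  ∀ ε : ℝ, 0 < ε → ∃ N : ℕ, ∀ (M M' : ι → ℤ) (S S' : ι → ℕ), (∀ i, N ≤ S i) → (∀ i, N ≤ S' i) →
    ∀ᶠ j in (hyperfilter ℕ : Filter ℕ),
      (X j).E (fun ω => (av X L (box M S) j ω - av X L (box M' S') j ω) ^ 2) ≤ ε

/-- a set of internal polynomials is good if all lists over it have Cauchy averages -/
def Good {ι : Type} [Fintype ι] [DecidableEq ι] (X : ISys) (P : Set (IPoly ι X)) : Prop :=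
  ∀ L : List (IPoly ι X × IFn X), (∀ x ∈ L, x.1 ∈ P ∧ IsFn X x.2) → Cau X L

namespace Sys
variable (s : Sys)

theorem neg_mem {f : s.Ω → ℝ} (hf : f ∈ s.A) : (fun ω => -f ω) ∈ s.A := by
  have h := s.mul_mem _ (s.const_mem (-1)) f hf
  have e : (fun ω => (-1 : ℝ) * f ω) = fun ω => -f ω := by funext ω; ring
  rw [← e]; exact h

theorem smul_mem (c : ℝ) {f : s.Ω → ℝ} (hf : f ∈ s.A) : (fun ω => c * f ω) ∈ s.A :=
  s.mul_mem _ (s.const_mem c) f hf

theorem sub_mem {f g : s.Ω → ℝ} (hf : f ∈ s.A) (hg : g ∈ s.A) : (fun ω => f ω - g ω) ∈ s.A := by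
  have h := s.add_mem f hf _ (s.neg_mem hg)
  have e : (fun ω => f ω + -g ω) = fun ω => f ω - g ω := by funext ω; ring
  rw [← e]; exact h

theorem sq_mem {f : s.Ω → ℝ} (hf : f ∈ s.A) : (fun ω => f ω ^ 2) ∈ s.A := by
  have h := s.mul_mem f hf f hf
  have e : (fun ω => f ω * f ω) = fun ω => f ω ^ 2 := by funext ω; ring
  rw [← e]; exact h

theorem sum_mem {α : Type} (t : Finset α) (f : α → s.Ω → ℝ) (hf : ∀ a ∈ t, f a ∈ s.A) :
    (fun ω => ∑ a ∈ t, f a ω) ∈ s.A := by
  classical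
  induction t using Finset.induction_on with
  | empty => simpa using s.const_mem 0
  | insert a t ha ih =>
    have h := s.add_mem _ (hf a (Finset.mem_insert_self a t)) _
      (ih fun b hb => hf b (Finset.mem_insert_of_mem hb))
    have e : (fun ω => f a ω + ∑ x ∈ t, f x ω) = fun ω => ∑ x ∈ insert a t, f x ω := by
      funext ω; rw [Finset.sum_insert ha]
    rw [← e]; exact h

theorem avg_mem {α : Type} (t : Finset α) (f : α → s.Ω → ℝ) (hf : ∀ a ∈ t, f a ∈ s.A) :
    (fun ω => avg t fun a => f a ω) ∈ s.A := by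
  have h := s.smul_mem ((t.card : ℝ)⁻¹) (s.sum_mem t f hf)
  exact h

theorem E_sub {f g : s.Ω → ℝ} (hf : f ∈ s.A) (hg : g ∈ s.A) :
    s.E (fun ω => f ω - g ω) = s.E f - s.E g := by
  have h := s.E_add f hf _ (s.smul_mem (-1) hg)
  rw [s.E_smul (-1) g hg] at h
  have e : (fun ω => f ω + (-1) * g ω) = fun ω => f ω - g ω := by funext ω; ring
  rw [e] at h
  rw [h]; ring

theorem E_mono {f g : s.Ω → ℝ} (hf : f ∈ s.A) (hg : g ∈ s.A) (h : ∀ ω, f ω ≤ g ω) : s.E f ≤ s.E g := by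
  have h1 := s.E_nonneg _ (s.sub_mem hg hf) (fun ω => sub_nonneg.2 (h ω))
  rw [s.E_sub hg hf] at h1
  linarith

theorem E_const (c : ℝ) : s.E (fun _ => c) = c := by
  have h := s.E_smul c _ (s.const_mem 1)
  rw [s.E_one] at h
  simpa using h

theorem E_sum {α : Type} (t : Finset α) (f : α → s.Ω → ℝ) (hf : ∀ a ∈ t, f a ∈ s.A) :
    s.E (fun ω => ∑ a ∈ t, f a ω) = ∑ a ∈ t, s.E (f a) := by
  classical
  induction t using Finset.induction_on with
  | empty => simpa using s.E_const 0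
  | insert a t ha ih =>
    have h := s.E_add _ (hf a (Finset.mem_insert_self a t)) _
      (s.sum_mem t f fun b hb => hf b (Finset.mem_insert_of_mem hb))
    have e : (fun ω => f a ω + ∑ x ∈ t, f x ω) = fun ω => ∑ x ∈ insert a t, f x ω := by
      funext ω; rw [Finset.sum_insert ha]
    rw [← e, h, Finset.sum_insert ha, ih fun b hb => hf b (Finset.mem_insert_of_mem hb)]

theorem E_avg {α : Type} (t : Finset α) (f : α → s.Ω → ℝ) (hf : ∀ a ∈ t, f a ∈ s.A) :
    s.E (fun ω => avg t fun a => f a ω) = avg t fun a => s.E (f a) := by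
  have h := s.E_smul ((t.card : ℝ)⁻¹) _ (s.sum_mem t f hf)
  rw [s.E_sum t f hf] at h
  exact h

theorem E_sq_nonneg {f : s.Ω → ℝ} (hf : f ∈ s.A) : 0 ≤ s.E (fun ω => f ω ^ 2) :=
  s.E_nonneg _ (s.sq_mem hf) fun ω => sq_nonneg _

end Sys

/-- The system of functions `K → s`. -/
noncomputable def hatS (s : Sys) (K : Type) [Fintype K] [Nonempty K] : Sys where
  Ω := s.Ω × K
  G := K → s.G
  act g ω := (s.act (g ω.2) ω.1, ω.2)
  act_zero := by
    rintro ⟨ω, k⟩
    simp [s.act_zero]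
  act_add := by
    rintro g h ⟨ω, k⟩
    simp [s.act_add]
  A := {f | ∀ k, (fun ω => f (ω, k)) ∈ s.A}
  bdd := by
    intro f hf
    choose C hC using fun k => s.bdd _ (hf k)
    refine ⟨∑ k, |C k|, ?_⟩
    rintro ⟨ω, k⟩
    exact ((hC k ω).trans (le_abs_self _)).trans
      (Finset.single_le_sum (f := fun k => |C k|) (fun i _ => abs_nonneg _) (Finset.mem_univ k))
  const_mem := fun c k => s.const_mem c
  add_mem := fun f hf g hg k => s.add_mem _ (hf k) _ (hg k)
  mul_mem := fun f hf g hg k => s.mul_mem _ (hf k) _ (hg k)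
  comp_mem := fun f hf g k => s.comp_mem _ (hf k) (g k)
  E f := avg (Finset.univ : Finset K) fun k => s.E fun ω => f (ω, k)
  E_add := by
    intro f hf g hg
    simp only [avg]
    rw [← smul_add, ← Finset.sum_add_distrib]
    congr 1
    exact Finset.sum_congr rfl fun k _ => s.E_add _ (hf k) _ (hg k)
  E_smul := by
    intro c f hf
    simp only [avg, smul_eq_mul]
    rw [Finset.sum_congr rfl fun k _ => s.E_smul c _ (hf k), ← Finset.mul_sum]
    ring
  E_nonneg := by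
    intro f hf h
    simp only [avg, smul_eq_mul]
    exact mul_nonneg (by positivity) (Finset.sum_nonneg fun k _ => s.E_nonneg _ (hf k) fun ω => h _)
  E_one := by
    simp only [avg, smul_eq_mul, s.E_one, Finset.sum_const, nsmul_eq_mul, mul_one]
    exact inv_mul_cancel₀ (by
      have : (Finset.univ : Finset K).Nonempty := Finset.univ_nonempty
      exact_mod_cast this.card_ne_zero)
  E_act := by
    intro f hf g
    simp only [avg, smul_eq_mul]
    congr 1
    exact Finset.sum_congr rfl fun k _ => s.E_act _ (hf k) (g k)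

instance boxNonempty {ι : Type} [Fintype ι] [DecidableEq ι] (M : ι → ℤ) (S : ι → ℕ) [h : Fact (∀ i, 1 ≤ S i)] :
    Nonempty {k // k ∈ box M S} := by
  refine ⟨⟨M, ?_⟩⟩
  simp only [box, Fintype.mem_piFinset, Finset.mem_Ico, le_refl, true_and]
  intro i
  have := h.out i
  omega

/-- the hat of an internal system along a sequence of boxes -/
noncomputable def hatI {ι : Type} [Fintype ι] [DecidableEq ι] (X : ISys) (M : ℕ → ι → ℤ) (S : ℕ → ι → ℕ)
    (hS : ∀ j, ∀ i, 1 ≤ S j i) : ISys := fun j =>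
  haveI : Fact (∀ i, 1 ≤ S j i) := ⟨hS j⟩
  hatS (X j) {k // k ∈ box (M j) (S j)}

/-- constant extension of an internal map -/
def ext {ι : Type} [Fintype ι] [DecidableEq ι] (X : ISys) (M : ℕ → ι → ℤ) (S : ℕ → ι → ℕ)
    (hS : ∀ j, ∀ i, 1 ≤ S j i) (e : IPoly ι X) : IPoly ι (hatI X M S hS) :=
  fun j n => (fun _ => e j n : {k // k ∈ box (M j) (S j)} → (X j).G)

/-- the variant `e + Δ_k (e - a)` of an internal map, in the hat system -/
def var {ι : Type} [Fintype ι] [DecidableEq ι] (X : ISys) (M : ℕ → ι → ℤ) (S : ℕ → ι → ℕ)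
    (hS : ∀ j, ∀ i, 1 ≤ S j i) (a e : IPoly ι X) : IPoly ι (hatI X M S hS) :=
  fun j n => (fun k => e j n + ((e j (n + k.1) - a j (n + k.1)) - (e j n - a j n)) :
    {k // k ∈ box (M j) (S j)} → (X j).G)

/-- the hat of a set of internal maps, for the removal of `a` -/
def hatP {ι : Type} [Fintype ι] [DecidableEq ι] (X : ISys) (M : ℕ → ι → ℤ) (S : ℕ → ι → ℕ)
    (hS : ∀ j, ∀ i, 1 ≤ S j i) (a : IPoly ι X) (P : Set (IPoly ι X)) : Set (IPoly ι (hatI X M S hS)) :=
  ext X M S hS '' P ∪ var X M S hS a '' P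

/-- the boxes are huge: all sides tend to infinity along the hyperfilter -/
def Huge {ι : Type} (S : ℕ → ι → ℕ) : Prop :=
  ∀ i, ∀ N : ℕ, ∀ᶠ j in (hyperfilter ℕ : Filter ℕ), N ≤ S j i

end Walsh
end MP_e326dc_an
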