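import Mathlib

/-!
# Limits of bounded real sequences along the hyperfilter
-/

open Filter Topology

namespace MP_e326dc_an
namespace Walsh

/-- bounded real sequence -/
def BR (x : ℕ → ℝ) : Prop := ∃ C : ℝ, ∀ j, |x j| ≤ C

theorem BR.exists_lim {x : ℕ → ℝ} (hx : BR x) : ∃ l, Tendsto x (hyperfilter ℕ : Filter ℕ) (𝓝 l) := by
  obtain ⟨C, hC⟩ := hx
  have hc : IsCompact (Set.Icc (-C) C) := isCompact_Icc
  obtain ⟨l, -, hl⟩ := hc.ultrafilter_le_nhds' (f := (hyperfilter ℕ).map x)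
    (by
      rw [Ultrafilter.mem_map]
      exact Filter.univ_mem' fun j => abs_le.1 (hC j))
  exact ⟨l, hl⟩

open Classical in
/-- the limit along the hyperfilter -/
noncomputable def ulim (x : ℕ → ℝ) : ℝ :=
  if h : ∃ l, Tendsto x (hyperfilter ℕ : Filter ℕ) (𝓝 l) then h.choose else 0

theorem BR.tendsto {x : ℕ → ℝ} (hx : BR x) : Tendsto x (hyperfilter ℕ : Filter ℕ) (𝓝 (ulim x)) := by
  have h := hx.exists_lim
  rw [ulim, dif_pos h]
  exact h.choose_spec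

theorem ulim_eq {x : ℕ → ℝ} {l : ℝ} (h : Tendsto x (hyperfilter ℕ : Filter ℕ) (𝓝 l)) : ulim x = l := by
  have h' : ∃ l, Tendsto x (hyperfilter ℕ : Filter ℕ) (𝓝 l) := ⟨l, h⟩
  rw [ulim, dif_pos h']
  exact tendsto_nhds_unique h'.choose_spec h

theorem BR.add {x y : ℕ → ℝ} (hx : BR x) (hy : BR y) : BR fun j => x j + y j := by
  obtain ⟨C, hC⟩ := hx
  obtain ⟨D, hD⟩ := hy
  exact ⟨C + D, fun j => (abs_add_le _ _).trans (add_le_add (hC j) (hD j))⟩

theorem BR.mul {x y : ℕ → ℝ} (hx : BR x) (hy : BR y) : BR fun j => x j * y j := by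
  obtain ⟨C, hC⟩ := hx
  obtain ⟨D, hD⟩ := hy
  refine ⟨|C| * |D|, fun j => ?_⟩
  rw [abs_mul]
  exact mul_le_mul ((hC j).trans (le_abs_self _)) ((hD j).trans (le_abs_self _)) (abs_nonneg _) (abs_nonneg _)

theorem BR.const (c : ℝ) : BR fun _ => c := ⟨|c|, fun _ => le_rfl⟩

theorem BR.smul (c : ℝ) {x : ℕ → ℝ} (hx : BR x) : BR fun j => c * x j := (BR.const c).mul hx

theorem BR.sub {x y : ℕ → ℝ} (hx : BR x) (hy : BR y) : BR fun j => x j - y j := by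
  have h := hx.add (hy.smul (-1))
  have e : (fun j => x j + (-1) * y j) = fun j => x j - y j := by funext j; ring
  rw [← e]; exact h

theorem ulim_const (c : ℝ) : ulim (fun _ => c) = c := ulim_eq tendsto_const_nhds

theorem ulim_add {x y : ℕ → ℝ} (hx : BR x) (hy : BR y) : ulim (fun j => x j + y j) = ulim x + ulim y :=
  ulim_eq (hx.tendsto.add hy.tendsto)

theorem ulim_sub {x y : ℕ → ℝ} (hx : BR x) (hy : BR y) : ulim (fun j => x j - y j) = ulim x - ulim y :=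
  ulim_eq (hx.tendsto.sub hy.tendsto)

theorem ulim_mul {x y : ℕ → ℝ} (hx : BR x) (hy : BR y) : ulim (fun j => x j * y j) = ulim x * ulim y :=
  ulim_eq (hx.tendsto.mul hy.tendsto)

theorem ulim_smul (c : ℝ) {x : ℕ → ℝ} (hx : BR x) : ulim (fun j => c * x j) = c * ulim x :=
  ulim_eq (hx.tendsto.const_mul c)

theorem ulim_mono {x y : ℕ → ℝ} (hx : BR x) (hy : BR y)
    (h : ∀ᶠ j in (hyperfilter ℕ : Filter ℕ), x j ≤ y j) : ulim x ≤ ulim y :=
  le_of_tendsto_of_tendsto hx.tendsto hy.tendsto h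

theorem ulim_le {x : ℕ → ℝ} (hx : BR x) {c : ℝ}
    (h : ∀ᶠ j in (hyperfilter ℕ : Filter ℕ), x j ≤ c) : ulim x ≤ c :=
  le_of_tendsto hx.tendsto h

theorem le_ulim {x : ℕ → ℝ} (hx : BR x) {c : ℝ}
    (h : ∀ᶠ j in (hyperfilter ℕ : Filter ℕ), c ≤ x j) : c ≤ ulim x :=
  ge_of_tendsto hx.tendsto h

theorem eventually_lt_of_ulim_lt {x : ℕ → ℝ} (hx : BR x) {c : ℝ} (h : ulim x < c) :
    ∀ᶠ j in (hyperfilter ℕ : Filter ℕ), x j < c :=
  hx.tendsto.eventually_lt_const h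

theorem eventually_gt_of_lt_ulim {x : ℕ → ℝ} (hx : BR x) {c : ℝ} (h : c < ulim x) :
    ∀ᶠ j in (hyperfilter ℕ : Filter ℕ), c < x j :=
  hx.tendsto.eventually_const_lt h

/-- ultrafilter dichotomy -/
theorem ueventually_not {p : ℕ → Prop} :
    (∀ᶠ j in (hyperfilter ℕ : Filter ℕ), ¬ p j) ↔ ¬ ∀ᶠ j in (hyperfilter ℕ : Filter ℕ), p j :=
  Ultrafilter.eventually_not

end Walsh
end MP_e326dc_an
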