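import Mathlib
import Pool.Agent.Lib.MP_e326dc_an.Defs
import Pool.Agent.Lib.MP_e326dc_an.Walsh.Sys
import Pool.Agent.Lib.MP_e326dc_an.Walsh.Ulim

/-!
# MP_e326dc_an, part A (Walsh's theorem) : further definitions
-/

open Filter Topology MeasureTheory

namespace MP_e326dc_an
namespace Walsh

/-- the seminorm of mean square -/
noncomputable def Sys.nrm (s : Sys) (f : s.Ω → ℝ) : ℝ := Real.sqrt (s.E fun ω => f ω ^ 2)

/-- the structured function `avg_k S^{-a(k)} ∏_{(e,b)} S^{e(k)} b` -/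
noncomputable def strf {ι : Type} [Fintype ι] [DecidableEq ι] (X : ISys) (a : IPoly ι X)
    (B : List (IPoly ι X × IFn X)) (M : ℕ → ι → ℤ) (S : ℕ → ι → ℕ) : IFn X :=
  fun j ω => avg (box (M j) (S j)) fun k => Walsh.pr X B k j ((X j).act (-(a j k)) ω)

/-- structured functions for the removal of `a` from `insert a P` -/
def Structured {ι : Type} [Fintype ι] [DecidableEq ι] (X : ISys) (P : Set (IPoly ι X)) (a : IPoly ι X) :
    Set (IFn X) :=
  {σ | ∃ (B : List (IPoly ι X × IFn X)) (M : ℕ → ι → ℤ) (S : ℕ → ι → ℕ), (∀ x ∈ B, x.1 ∈ P ∧ IsFn X x.2) ∧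
    (∀ j i, 1 ≤ S j i) ∧ Huge S ∧ σ = strf X a B M S}

/-! ## complex functions on one abstract system -/

/-- complex functions whose real and imaginary parts are in the algebra -/
def Sys.CA (s : Sys) : Set (s.Ω → ℂ) := {f | (fun ω => (f ω).re) ∈ s.A ∧ (fun ω => (f ω).im) ∈ s.A}

/-- the complexified functional -/
noncomputable def Sys.EC (s : Sys) (f : s.Ω → ℂ) : ℂ :=
  (s.E fun ω => (f ω).re : ℂ) + (s.E fun ω => (f ω).im : ℂ) * Complex.I

/-- products along polynomials, index space `A` (`= ℤ^ι` or `ℤ`) -/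
def Sys.pr {A E : Type} [CommMonoid E] (s : Sys) (L : List ((A → s.G) × (s.Ω → E))) (n : A) (ω : s.Ω) : E :=
  (L.map fun x => x.2 (s.act (x.1 n) ω)).prod

/-- admissible complex lists of degree at most `D` -/
def Sys.CL {A : Type} [AddCommGroup A] (s : Sys) (D : ℕ) (L : List ((A → s.G) × (s.Ω → ℂ))) : Prop :=
  ∀ x ∈ L, PolyLE D x.1 ∧ x.2 ∈ s.CA

/-- multicorrelation maps on the abelian group `A` -/
def CorrM (A : Type) [AddCommGroup A] (φ : A → ℂ) : Prop :=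
  ∃ (s : Sys) (D : ℕ) (L : List ((A → s.G) × (s.Ω → ℂ))), s.CL D L ∧ ∀ n, φ n = s.EC (s.pr L n)

/-- multicorrelation sequences of one variable -/
abbrev Corr (φ : ℤ → ℂ) : Prop := CorrM ℤ φ

/-- finite sums of multicorrelations plus bounded null sequences -/
def PreTame (φ : ℤ → ℂ) : Prop :=
  ∃ (T : List (ℤ → ℂ)) (ν : ℤ → ℂ), (∀ ψ ∈ T, Corr ψ) ∧ Bdd ν ∧ Null ν ∧
    ∀ n, φ n = (T.map fun ψ => ψ n).sum + ν n

/-- tame sequences -/
def tameW : Set (ℤ → ℂ) := {φ | ∀ ε : ℝ, 0 < ε → ∃ ψ, PreTame ψ ∧ ∀ n, ‖φ n - ψ n‖ ≤ ε}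

end Walsh
end MP_e326dc_an
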