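import Mathlib
import Pool.Agent.Lib.MP_e326dc_an.Walsh.WDefs

/-!
# MP_e326dc_an, part A (Walsh's theorem) : product of two abstract systems
-/

open Filter Topology MeasureTheory

namespace MP_e326dc_an
namespace Walsh

theorem ps_list_mul {α β : Type*} (T : List α) (T' : List β) (f : α → ℝ) (g : β → ℝ) :
    (T.map f).sum * (T'.map g).sum = ((T.flatMap fun x => T'.map fun y => (x, y)).map
      fun z => f z.1 * g z.2).sum := by
  induction T with
  | nil => simp
  | cons x T ih =>
    simp only [List.map_cons, List.sum_cons, List.flatMap_cons, List.map_append, List.sum_append, add_mul]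
    rw [ih, List.map_map]
    congr 1
    rw [← List.sum_map_mul_left]
    rfl

theorem Sys.list_sum_mem (s : Sys) {α : Type*} (T : List α) (f : α → s.Ω → ℝ) (h : ∀ a ∈ T, f a ∈ s.A) :
    (fun ω => (T.map fun a => f a ω).sum) ∈ s.A := by
  induction T with
  | nil => simpa using s.const_mem 0
  | cons a T ih =>
    simp only [List.map_cons, List.sum_cons]
    exact s.add_mem _ (h a List.mem_cons_self) _ (ih fun b hb => h b (List.mem_cons_of_mem _ hb))

theorem Sys.E_list_sum (s : Sys) {α : Type*} (T : List α) (f : α → s.Ω → ℝ) (h : ∀ a ∈ T, f a ∈ s.A) :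
    s.E (fun ω => (T.map fun a => f a ω).sum) = (T.map fun a => s.E (f a)).sum := by
  induction T with
  | nil => simpa using s.E_const 0
  | cons a T ih =>
    simp only [List.map_cons, List.sum_cons]
    rw [s.E_add _ (h a List.mem_cons_self) _ (s.list_sum_mem T f fun b hb => h b (List.mem_cons_of_mem _ hb)),
      ih fun b hb => h b (List.mem_cons_of_mem _ hb)]

/-- the algebra of the product of two systems -/
def prodA (s t : Sys) : Set (s.Ω × t.Ω → ℝ) :=
  {F | ∃ T : List ((s.Ω → ℝ) × (t.Ω → ℝ)), (∀ x ∈ T, x.1 ∈ s.A ∧ x.2 ∈ t.A) ∧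
    ∀ p, F p = (T.map fun x => x.1 p.1 * x.2 p.2).sum}

theorem prodA_slice (s t : Sys) {F : s.Ω × t.Ω → ℝ} (hF : F ∈ prodA s t) (ω : s.Ω) :
    (fun ω' => F (ω, ω')) ∈ t.A := by
  obtain ⟨T, hT, hF⟩ := hF
  have e : (fun ω' => F (ω, ω')) = fun ω' => (T.map fun x => x.1 ω * x.2 ω').sum := by
    funext ω'; exact hF (ω, ω')
  rw [e]
  exact t.list_sum_mem T (fun x ω' => x.1 ω * x.2 ω') fun x hx => t.smul_mem _ (hT x hx).2

theorem prodA_int (s t : Sys) {F : s.Ω × t.Ω → ℝ} (hF : F ∈ prodA s t) :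
    (fun ω => t.E fun ω' => F (ω, ω')) ∈ s.A := by
  obtain ⟨T, hT, hF⟩ := hF
  have e : (fun ω => t.E fun ω' => F (ω, ω')) = fun ω => (T.map fun x => t.E x.2 * x.1 ω).sum := by
    funext ω
    have e1 : (fun ω' => F (ω, ω')) = fun ω' => (T.map fun x => x.1 ω * x.2 ω').sum := by
      funext ω'; exact hF (ω, ω')
    rw [e1, t.E_list_sum T (fun x ω' => x.1 ω * x.2 ω') fun x hx => t.smul_mem _ (hT x hx).2]
    congr 1
    refine List.map_congr_left fun x hx => ?_
    rw [t.E_smul _ _ (hT x hx).2, mul_comm]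
  rw [e]
  exact s.list_sum_mem T (fun x ω => t.E x.2 * x.1 ω) fun x hx => s.smul_mem _ (hT x hx).1

/-- product of two abstract systems -/
noncomputable def prodS (s t : Sys) : Sys where
  Ω := s.Ω × t.Ω
  G := s.G × t.G
  act g ω := (s.act g.1 ω.1, t.act g.2 ω.2)
  act_zero := by
    rintro ⟨ω, ω'⟩
    exact Prod.ext (s.act_zero ω) (t.act_zero ω')
  act_add := by
    rintro ⟨g, g'⟩ ⟨h, h'⟩ ⟨ω, ω'⟩
    exact Prod.ext (s.act_add g h ω) (t.act_add g' h' ω')
  A := prodA s t
  bdd := by
    rintro F ⟨T, hT, hF⟩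
    have key : ∃ C : ℝ, ∀ p : s.Ω × t.Ω, |(T.map fun x => x.1 p.1 * x.2 p.2).sum| ≤ C := by
      clear hF
      induction T with
      | nil => exact ⟨0, by simp⟩
      | cons y T ih =>
        obtain ⟨C, hC⟩ := ih fun x hx => hT x (List.mem_cons_of_mem _ hx)
        obtain ⟨C1, h1⟩ := s.bdd _ (hT y List.mem_cons_self).1
        obtain ⟨C2, h2⟩ := t.bdd _ (hT y List.mem_cons_self).2
        refine ⟨|C1| * |C2| + C, fun p => ?_⟩
        simp only [List.map_cons, List.sum_cons]
        refine (abs_add_le _ _).trans (add_le_add ?_ (hC p))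
        rw [abs_mul]
        exact mul_le_mul ((h1 _).trans (le_abs_self _)) ((h2 _).trans (le_abs_self _)) (abs_nonneg _)
          (abs_nonneg _)
    obtain ⟨C, hC⟩ := key
    exact ⟨C, fun p => by rw [hF]; exact hC p⟩
  const_mem := by
    intro c
    refine ⟨[((fun _ => c), fun _ => 1)], ?_, fun p => by simp⟩
    intro x hx
    simp only [List.mem_singleton] at hx
    subst hx
    exact ⟨s.const_mem c, t.const_mem 1⟩
  add_mem := by
    rintro F ⟨T, hT, hF⟩ F' ⟨T', hT', hF'⟩
    refine ⟨T ++ T', ?_, fun p => by simp [hF, hF']⟩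
    intro x hx
    rcases List.mem_append.1 hx with hx | hx
    · exact hT x hx
    · exact hT' x hx
  mul_mem := by
    rintro F ⟨T, hT, hF⟩ F' ⟨T', hT', hF'⟩
    refine ⟨(T.flatMap fun x => T'.map fun y => (x, y)).map fun z =>
      ((fun ω => z.1.1 ω * z.2.1 ω), fun ω => z.1.2 ω * z.2.2 ω), ?_, ?_⟩
    · intro w hw
      obtain ⟨z, hz, rfl⟩ := List.mem_map.1 hw
      obtain ⟨x, hx, hz⟩ := List.mem_flatMap.1 hz
      obtain ⟨y, hy, rfl⟩ := List.mem_map.1 hz
      exact ⟨s.mul_mem _ (hT x hx).1 _ (hT' y hy).1, t.mul_mem _ (hT x hx).2 _ (hT' y hy).2⟩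
    · intro p
      show F p * F' p = _
      rw [hF, hF', ps_list_mul, List.map_map]
      congr 1
      refine List.map_congr_left fun z _ => ?_
      simp only [Function.comp]
      ring
  comp_mem := by
    rintro F ⟨T, hT, hF⟩ ⟨g, g'⟩
    refine ⟨T.map fun x => ((fun ω => x.1 (s.act g ω)), fun ω => x.2 (t.act g' ω)), ?_, ?_⟩
    · intro z hz
      obtain ⟨x, hx, rfl⟩ := List.mem_map.1 hz
      exact ⟨s.comp_mem _ (hT x hx).1 g, t.comp_mem _ (hT x hx).2 g'⟩
    · intro p
      show F (s.act g p.1, t.act g' p.2) = _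
      rw [hF, List.map_map]
      rfl
  E F := s.E fun ω => t.E fun ω' => F (ω, ω')
  E_add := by
    intro F hF F' hF'
    have e : (fun ω => t.E fun ω' => F (ω, ω') + F' (ω, ω')) =
        fun ω => (t.E fun ω' => F (ω, ω')) + (t.E fun ω' => F' (ω, ω')) := by
      funext ω
      exact t.E_add _ (prodA_slice s t hF ω) _ (prodA_slice s t hF' ω)
    rw [e]
    exact s.E_add _ (prodA_int s t hF) _ (prodA_int s t hF')
  E_smul := by
    intro c F hF
    have e : (fun ω => t.E fun ω' => c * F (ω, ω')) = fun ω => c * (t.E fun ω' => F (ω, ω')) := by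
      funext ω
      exact t.E_smul _ _ (prodA_slice s t hF ω)
    rw [e]
    exact s.E_smul _ _ (prodA_int s t hF)
  E_nonneg := by
    intro F hF h
    exact s.E_nonneg _ (prodA_int s t hF) fun ω => t.E_nonneg _ (prodA_slice s t hF ω) fun ω' => h _
  E_one := by
    simp only [t.E_one, s.E_one]
  E_act := by
    rintro F hF ⟨g, g'⟩
    have e : (fun ω => t.E fun ω' => F (s.act g ω, t.act g' ω')) =
        fun ω => (fun ω₁ => t.E fun ω' => F (ω₁, ω')) (s.act g ω) := by
      funext ω
      exact t.E_act _ (prodA_slice s t hF _) g'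
    show s.E (fun ω => t.E fun ω' => F (s.act g ω, t.act g' ω')) = _
    rw [e]
    exact s.E_act _ (prodA_int s t hF) g

end Walsh
end MP_e326dc_an
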