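import Mathlib
import Pool.Agent.Lib.MP_e326dc_an.Walsh.WDefs
import Pool.Agent.Lib.MP_e326dc_an.Walsh.ProdS

/-!
# MP_e326dc_an, NIL module W12 (CORR) : the algebra of multicorrelation maps
-/

open Filter Topology MeasureTheory
open scoped ComplexConjugate

namespace MP_e326dc_an
namespace Walsh

/-! ### polynomial maps -/

theorem w12_poly_succ {A G : Type*} [AddCommGroup A] [AddCommGroup G] :
    ∀ (n : ℕ) (p : A → G), PolyLE n p → PolyLE (n + 1) p
  | 0, p, h => fun k x y => by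
      show p (x + k) - p x = p (y + k) - p y
      rw [h (x + k) (y + k), h x y]
  | (n + 1), p, h => fun k => w12_poly_succ n _ (h k)

theorem w12_poly_mono {A G : Type*} [AddCommGroup A] [AddCommGroup G] {n m : ℕ} (hnm : n ≤ m)
    {p : A → G} (h : PolyLE n p) : PolyLE m p := by
  induction m, hnm using Nat.le_induction with
  | base => exact h
  | succ m _ ih => exact w12_poly_succ m p ih

theorem w12_poly_hom {A G H : Type*} [AddCommGroup A] [AddCommGroup G] [AddCommGroup H] (φ : G →+ H) :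
    ∀ (n : ℕ) (p : A → G), PolyLE n p → PolyLE n (fun x => φ (p x))
  | 0, p, h => fun x y => by
      show φ (p x) = φ (p y)
      rw [h x y]
  | (n + 1), p, h => fun k => by
      have := w12_poly_hom φ n _ (h k)
      simpa only [map_sub] using this

theorem w12_poly_comp {A B G : Type*} [AddCommGroup A] [AddCommGroup B] [AddCommGroup G] (h : B →+ A)
    (a : A) : ∀ (n : ℕ) (p : A → G), PolyLE n p → PolyLE n (fun x => p (h x + a))
  | 0, p, hp => fun x y => hp _ _
  | (n + 1), p, hp => fun k => by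
      have := w12_poly_comp h a n _ (hp (h k))
      have e : (fun x => p (h (x + k) + a) - p (h x + a)) =
          fun x => p (h x + a + h k) - p (h x + a) := by
        funext x; rw [map_add, add_right_comm]
      show PolyLE n (fun x => p (h (x + k) + a) - p (h x + a))
      rw [e]
      exact this

theorem w12_poly_const {A G : Type*} [AddCommGroup A] [AddCommGroup G] (n : ℕ) (g : G) :
    PolyLE n (fun _ : A => g) :=
  w12_poly_mono (Nat.zero_le n) (show PolyLE 0 (fun _ : A => g) from fun _ _ => rfl)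

/-! ### complex functions on a system -/

theorem w12_CA_mul (s : Sys) {f g : s.Ω → ℂ} (hf : f ∈ s.CA) (hg : g ∈ s.CA) :
    (fun ω => f ω * g ω) ∈ s.CA := by
  refine ⟨?_, ?_⟩
  · have h := s.sub_mem (s.mul_mem _ hf.1 _ hg.1) (s.mul_mem _ hf.2 _ hg.2)
    have e : (fun ω => (f ω * g ω).re) = fun ω => (f ω).re * (g ω).re - (f ω).im * (g ω).im := by
      funext ω; exact Complex.mul_re _ _
    rw [e]; exact h
  · have h := s.add_mem _ (s.mul_mem _ hf.1 _ hg.2) _ (s.mul_mem _ hf.2 _ hg.1)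
    have e : (fun ω => (f ω * g ω).im) = fun ω => (f ω).re * (g ω).im + (f ω).im * (g ω).re := by
      funext ω; exact Complex.mul_im _ _
    rw [e]; exact h

theorem w12_CA_const (s : Sys) (c : ℂ) : (fun _ => c) ∈ s.CA := ⟨s.const_mem _, s.const_mem _⟩

theorem w12_CA_comp (s : Sys) {f : s.Ω → ℂ} (hf : f ∈ s.CA) (g : s.G) :
    (fun ω => f (s.act g ω)) ∈ s.CA := ⟨s.comp_mem _ hf.1 g, s.comp_mem _ hf.2 g⟩

theorem w12_CA_bdd (s : Sys) {f : s.Ω → ℂ} (hf : f ∈ s.CA) : ∃ C : ℝ, ∀ ω, ‖f ω‖ ≤ C := by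
  obtain ⟨C, hC⟩ := s.bdd _ hf.1
  obtain ⟨D, hD⟩ := s.bdd _ hf.2
  exact ⟨C + D, fun ω => (Complex.norm_le_abs_re_add_abs_im _).trans (add_le_add (hC ω) (hD ω))⟩

theorem w12_CA_conj (s : Sys) {f : s.Ω → ℂ} (hf : f ∈ s.CA) :
    (fun ω => (starRingEnd ℂ) (f ω)) ∈ s.CA := by
  refine ⟨hf.1, ?_⟩
  have h := s.neg_mem hf.2
  exact h

theorem w12_pr_mem (s : Sys) {A : Type} (L : List ((A → s.G) × (s.Ω → ℂ))) (hL : ∀ x ∈ L, x.2 ∈ s.CA)
    (n : A) : s.pr L n ∈ s.CA := by
  induction L with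
  | nil => exact w12_CA_const s 1
  | cons x L ih =>
    have h := w12_CA_mul s (w12_CA_comp s (hL x List.mem_cons_self) (x.1 n))
      (ih fun y hy => hL y (List.mem_cons_of_mem _ hy))
    have e : s.pr (x :: L) n = fun ω => x.2 (s.act (x.1 n) ω) * s.pr L n ω := by
      funext ω
      simp only [Sys.pr, List.map_cons, List.prod_cons]
    rw [e]; exact h

theorem w12_pr_bound (s : Sys) {A : Type} (L : List ((A → s.G) × (s.Ω → ℂ))) (hL : ∀ x ∈ L, x.2 ∈ s.CA) :
    ∃ C : ℝ, 0 ≤ C ∧ ∀ n ω, ‖s.pr L n ω‖ ≤ C := by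
  induction L with
  | nil => exact ⟨1, zero_le_one, fun n ω => by simp [Sys.pr]⟩
  | cons x L ih =>
    obtain ⟨C, hC0, hC⟩ := ih fun y hy => hL y (List.mem_cons_of_mem _ hy)
    obtain ⟨B, hB⟩ := w12_CA_bdd s (hL x List.mem_cons_self)
    refine ⟨|B| * C, mul_nonneg (abs_nonneg _) hC0, fun n ω => ?_⟩
    have e : s.pr (x :: L) n ω = x.2 (s.act (x.1 n) ω) * s.pr L n ω := by
      simp only [Sys.pr, List.map_cons, List.prod_cons]
    rw [e, norm_mul]
    exact mul_le_mul ((hB _).trans (le_abs_self _)) (hC n ω) (norm_nonneg _) (abs_nonneg _)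

theorem w12_abs_E_le (s : Sys) {f : s.Ω → ℝ} (hf : f ∈ s.A) {C : ℝ} (h : ∀ ω, |f ω| ≤ C) :
    |s.E f| ≤ C := by
  have h1 := s.E_mono hf (s.const_mem C) fun ω => (abs_le.1 (h ω)).2
  have h2 := s.E_mono (s.const_mem (-C)) hf fun ω => (abs_le.1 (h ω)).1
  rw [s.E_const] at h1 h2
  exact abs_le.2 ⟨h2, h1⟩

/-- the functional of a product function on the product system -/
theorem w12_EC_prod (s t : Sys) {f : s.Ω → ℂ} {g : t.Ω → ℂ} (hf : f ∈ s.CA) (hg : g ∈ t.CA) :
    (prodS s t).EC (fun p : s.Ω × t.Ω => f p.1 * g p.2) = s.EC f * t.EC g := by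
  have h1 : (prodS s t).E (fun p : s.Ω × t.Ω => (f p.1 * g p.2).re) =
      s.E (fun ω => (f ω).re) * t.E (fun ω => (g ω).re) -
        s.E (fun ω => (f ω).im) * t.E (fun ω => (g ω).im) := by
    show s.E (fun ω => t.E fun ω' => (f ω * g ω').re) = _
    have e : (fun ω => t.E fun ω' => (f ω * g ω').re) = fun ω =>
        t.E (fun ω => (g ω).re) * (f ω).re - t.E (fun ω => (g ω).im) * (f ω).im := by
      funext ω
      have e1 : (fun ω' => (f ω * g ω').re) = fun ω' => (f ω).re * (g ω').re - (f ω).im * (g ω').im := by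
        funext ω'; exact Complex.mul_re _ _
      rw [e1, t.E_sub (t.smul_mem _ hg.1) (t.smul_mem _ hg.2), t.E_smul _ _ hg.1, t.E_smul _ _ hg.2]
      ring
    rw [e, s.E_sub (s.smul_mem _ hf.1) (s.smul_mem _ hf.2), s.E_smul _ _ hf.1, s.E_smul _ _ hf.2]
    ring
  have h2 : (prodS s t).E (fun p : s.Ω × t.Ω => (f p.1 * g p.2).im) =
      s.E (fun ω => (f ω).re) * t.E (fun ω => (g ω).im) +
        s.E (fun ω => (f ω).im) * t.E (fun ω => (g ω).re) := by
    show s.E (fun ω => t.E fun ω' => (f ω * g ω').im) = _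
    have e : (fun ω => t.E fun ω' => (f ω * g ω').im) = fun ω =>
        t.E (fun ω => (g ω).im) * (f ω).re + t.E (fun ω => (g ω).re) * (f ω).im := by
      funext ω
      have e1 : (fun ω' => (f ω * g ω').im) = fun ω' => (f ω).re * (g ω').im + (f ω).im * (g ω').re := by
        funext ω'; exact Complex.mul_im _ _
      rw [e1, t.E_add _ (t.smul_mem _ hg.2) _ (t.smul_mem _ hg.1), t.E_smul _ _ hg.1,
        t.E_smul _ _ hg.2]
      ring
    rw [e, s.E_add _ (s.smul_mem _ hf.1) _ (s.smul_mem _ hf.2), s.E_smul _ _ hf.1, s.E_smul _ _ hf.2]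
    ring
  show (((prodS s t).E (fun p : s.Ω × t.Ω => (f p.1 * g p.2).re) : ℝ) : ℂ) +
    (((prodS s t).E (fun p : s.Ω × t.Ω => (f p.1 * g p.2).im) : ℝ) : ℂ) * Complex.I = _
  rw [h1, h2]
  simp only [Sys.EC]
  push_cast
  have hI : Complex.I * Complex.I = -1 := Complex.I_mul_I
  linear_combination (-((s.E fun ω => (f ω).im : ℝ) : ℂ) * ((t.E fun ω => (g ω).im : ℝ) : ℂ)) * hI

/-- the trivial system -/
def w12_triv : Sys where
  Ω := Unit
  G := Unit
  act _ ω := ω
  act_zero _ := rfl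
  act_add _ _ _ := rfl
  A := Set.univ
  bdd := fun f _ => ⟨|f ()|, fun _ => le_rfl⟩
  const_mem := fun _ => Set.mem_univ _
  add_mem := fun _ _ _ _ => Set.mem_univ _
  mul_mem := fun _ _ _ _ => Set.mem_univ _
  comp_mem := fun _ _ _ => Set.mem_univ _
  E f := f ()
  E_add := fun _ _ _ _ => rfl
  E_smul := fun _ _ _ => rfl
  E_nonneg := fun _ _ h => h ()
  E_one := rfl
  E_act := fun _ _ _ => rfl

theorem w12_CA_fst (s t : Sys) {f : s.Ω → ℂ} (hf : f ∈ s.CA) :
    (fun p : s.Ω × t.Ω => f p.1) ∈ (prodS s t).CA := by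
  refine ⟨⟨[((fun ω => (f ω).re), fun _ => 1)], ?_, fun p => by simp⟩,
    ⟨[((fun ω => (f ω).im), fun _ => 1)], ?_, fun p => by simp⟩⟩
  · intro x hx
    rw [List.mem_singleton.1 hx]
    exact ⟨hf.1, t.const_mem 1⟩
  · intro x hx
    rw [List.mem_singleton.1 hx]
    exact ⟨hf.2, t.const_mem 1⟩

theorem w12_CA_snd (s t : Sys) {g : t.Ω → ℂ} (hg : g ∈ t.CA) :
    (fun p : s.Ω × t.Ω => g p.2) ∈ (prodS s t).CA := by
  refine ⟨⟨[((fun _ => 1), fun ω => (g ω).re)], ?_, fun p => by simp⟩,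
    ⟨[((fun _ => 1), fun ω => (g ω).im)], ?_, fun p => by simp⟩⟩
  · intro x hx
    rw [List.mem_singleton.1 hx]
    exact ⟨s.const_mem 1, hg.1⟩
  · intro x hx
    rw [List.mem_singleton.1 hx]
    exact ⟨s.const_mem 1, hg.2⟩

/-! ### closure properties -/

theorem CorrM.mul {A : Type} [AddCommGroup A] {φ ψ : A → ℂ} (hφ : CorrM A φ) (hψ : CorrM A ψ) :
    CorrM A fun n => φ n * ψ n := by
  obtain ⟨s, D, L, hL, hφ⟩ := hφ
  obtain ⟨t, D', L', hL', hψ⟩ := hψ
  let L1 : List ((A → (prodS s t).G) × ((prodS s t).Ω → ℂ)) :=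
    L.map (fun x => ((fun n => ((x.1 n, 0) : s.G × t.G)), fun p : s.Ω × t.Ω => x.2 p.1))
  let L2 : List ((A → (prodS s t).G) × ((prodS s t).Ω → ℂ)) :=
    L'.map (fun x => ((fun n => ((0, x.1 n) : s.G × t.G)), fun p : s.Ω × t.Ω => x.2 p.2))
  refine ⟨prodS s t, max D D', L1 ++ L2, ?_, ?_⟩
  · intro y hy
    rcases List.mem_append.1 hy with hy | hy
    · obtain ⟨x, hx, rfl⟩ := List.mem_map.1 hy
      obtain ⟨h1, h2⟩ := hL x hx
      exact ⟨w12_poly_mono (le_max_left _ _) (w12_poly_hom (AddMonoidHom.inl s.G t.G) D x.1 h1),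
        w12_CA_fst s t h2⟩
    · obtain ⟨x, hx, rfl⟩ := List.mem_map.1 hy
      obtain ⟨h1, h2⟩ := hL' x hx
      exact ⟨w12_poly_mono (le_max_right _ _) (w12_poly_hom (AddMonoidHom.inr s.G t.G) D' x.1 h1),
        w12_CA_snd s t h2⟩
  · intro n
    show φ n * ψ n = _
    rw [hφ, hψ, ← w12_EC_prod s t (w12_pr_mem s L (fun x hx => (hL x hx).2) n)
      (w12_pr_mem t L' (fun x hx => (hL' x hx).2) n)]
    refine congrArg _ ?_
    funext p
    show _ = (List.map (fun x => x.2 ((prodS s t).act (x.1 n) p)) (L1 ++ L2)).prod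
    rw [List.map_append, List.prod_append, List.map_map, List.map_map]
    rfl

theorem CorrM.const {A : Type} [AddCommGroup A] (c : ℂ) : CorrM A fun _ => c := by
  refine ⟨w12_triv, 0, [((fun _ => (() : Unit)), fun _ : Unit => c)], ?_, ?_⟩
  · intro x hx
    rw [List.mem_singleton.1 hx]
    exact ⟨w12_poly_const 0 _, Set.mem_univ _, Set.mem_univ _⟩
  · intro n
    show c = ((([c].prod).re : ℝ) : ℂ) + ((([c].prod).im : ℝ) : ℂ) * Complex.I
    rw [List.prod_singleton, Complex.re_add_im]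

theorem CorrM.smul {A : Type} [AddCommGroup A] {φ : A → ℂ} (hφ : CorrM A φ) (c : ℂ) :
    CorrM A fun n => c * φ n :=
  (CorrM.const c).mul hφ

theorem CorrM.conj {A : Type} [AddCommGroup A] {φ : A → ℂ} (hφ : CorrM A φ) :
    CorrM A fun n => conj (φ n) := by
  obtain ⟨s, D, L, hL, hφ⟩ := hφ
  refine ⟨s, D, L.map (fun x => (x.1, fun ω => (starRingEnd ℂ) (x.2 ω))), ?_, ?_⟩
  · intro y hy
    obtain ⟨x, hx, rfl⟩ := List.mem_map.1 hy
    obtain ⟨h1, h2⟩ := hL x hx
    exact ⟨h1, w12_CA_conj s h2⟩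
  · intro n
    have e : s.pr (L.map (fun x => (x.1, fun ω => (starRingEnd ℂ) (x.2 ω)))) n =
        fun ω => (starRingEnd ℂ) (s.pr L n ω) := by
      funext ω
      simp only [Sys.pr, map_list_prod, List.map_map, Function.comp_def]
    have hm := w12_pr_mem s L (fun x hx => (hL x hx).2) n
    show (starRingEnd ℂ) (φ n) = _
    rw [hφ, e]
    have h2 : s.E (fun ω => -(s.pr L n ω).im) = -s.E (fun ω => (s.pr L n ω).im) := by
      have h3 := s.E_smul (-1) _ hm.2
      have e2 : (fun ω => (-1 : ℝ) * (s.pr L n ω).im) = fun ω => -(s.pr L n ω).im := by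
        funext ω; ring
      rw [e2] at h3
      rw [h3]; ring
    have h4 : s.EC (fun ω => (starRingEnd ℂ) (s.pr L n ω)) =
        (s.E (fun ω => (s.pr L n ω).re) : ℂ) + (s.E (fun ω => -(s.pr L n ω).im) : ℂ) * Complex.I := rfl
    rw [h4, h2]
    simp only [Sys.EC, map_add, map_mul, Complex.conj_ofReal, Complex.conj_I]
    push_cast
    ring

/-- composition with an affine map -/
theorem CorrM.comp {A B : Type} [AddCommGroup A] [AddCommGroup B] {φ : A → ℂ} (hφ : CorrM A φ)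
    (h : B →+ A) (a : A) : CorrM B fun n => φ (h n + a) := by
  obtain ⟨s, D, L, hL, hφ⟩ := hφ
  refine ⟨s, D, L.map (fun x => ((fun n => x.1 (h n + a)), x.2)), ?_, ?_⟩
  · intro y hy
    obtain ⟨x, hx, rfl⟩ := List.mem_map.1 hy
    obtain ⟨h1, h2⟩ := hL x hx
    exact ⟨w12_poly_comp h a D x.1 h1, h2⟩
  · intro n
    show φ (h n + a) = _
    rw [hφ]
    refine congrArg _ ?_
    funext ω
    simp only [Sys.pr, List.map_map, Function.comp_def]

theorem CorrM.bdd {A : Type} [AddCommGroup A] {φ : A → ℂ} (hφ : CorrM A φ) :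
    ∃ C : ℝ, ∀ n, ‖φ n‖ ≤ C := by
  obtain ⟨s, D, L, hL, hφ⟩ := hφ
  obtain ⟨C, hC0, hC⟩ := w12_pr_bound s L fun x hx => (hL x hx).2
  refine ⟨C + C, fun n => ?_⟩
  have hm := w12_pr_mem s L (fun x hx => (hL x hx).2) n
  rw [hφ]
  refine (norm_add_le _ _).trans (add_le_add ?_ ?_)
  · rw [Complex.norm_real, Real.norm_eq_abs]
    exact w12_abs_E_le s hm.1 fun ω => (Complex.abs_re_le_norm _).trans (hC n ω)
  · rw [norm_mul, Complex.norm_I, mul_one, Complex.norm_real, Real.norm_eq_abs]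
    exact w12_abs_E_le s hm.2 fun ω => (Complex.abs_im_le_norm _).trans (hC n ω)

end Walsh
end MP_e326dc_an
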