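import Mathlib
import Pool.Agent.Lib.MP_e326dc_an.Walsh.WDefs

/-!
# MP_e326dc_an, part A, module W1 (CS)

Cauchy-Schwarz, the seminorm of mean square and Jensen in an abstract system.
-/

set_option autoImplicit false

open Filter Topology MeasureTheory

namespace MP_e326dc_an
namespace Walsh

theorem w1_E_sq_add (s : Sys) {f g : s.Ω → ℝ} (hf : f ∈ s.A) (hg : g ∈ s.A) (t : ℝ) :
    s.E (fun ω => (f ω + t * g ω) ^ 2) =
      s.E (fun ω => g ω ^ 2) * t * t + 2 * s.E (fun ω => f ω * g ω) * t + s.E (fun ω => f ω ^ 2) := by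
  have e : (fun ω => (f ω + t * g ω) ^ 2) =
      fun ω => (f ω ^ 2 + (2 * t) * (f ω * g ω)) + (t ^ 2) * (g ω ^ 2) := by
    funext ω
    ring
  rw [e, s.E_add _ (s.add_mem _ (s.sq_mem hf) _ (s.smul_mem _ (s.mul_mem f hf g hg))) _
    (s.smul_mem _ (s.sq_mem hg)), s.E_add _ (s.sq_mem hf) _ (s.smul_mem _ (s.mul_mem f hf g hg)),
    s.E_smul _ _ (s.mul_mem f hf g hg), s.E_smul _ _ (s.sq_mem hg)]
  ring

theorem Sys.cs (s : Sys) {f g : s.Ω → ℝ} (hf : f ∈ s.A) (hg : g ∈ s.A) :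
    (s.E fun ω => f ω * g ω) ^ 2 ≤ s.E (fun ω => f ω ^ 2) * s.E (fun ω => g ω ^ 2) := by
  have h1 : ∀ t : ℝ, 0 ≤ s.E (fun ω => g ω ^ 2) * (t * t) +
      (2 * s.E (fun ω => f ω * g ω)) * t + s.E (fun ω => f ω ^ 2) := by
    intro t
    have h2 := s.E_sq_nonneg (s.add_mem f hf _ (s.smul_mem t hg))
    rw [w1_E_sq_add s hf hg t] at h2
    linarith
  have h3 := discrim_le_zero h1
  rw [discrim] at h3
  nlinarith

theorem Sys.nrm_add (s : Sys) {f g : s.Ω → ℝ} (hf : f ∈ s.A) (hg : g ∈ s.A) :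
    s.nrm (fun ω => f ω + g ω) ≤ s.nrm f + s.nrm g := by
  have ha := s.E_sq_nonneg hf
  have hb := s.E_sq_nonneg hg
  have hcs := s.cs hf hg
  have h1 : s.E (fun ω => (f ω + g ω) ^ 2) =
      s.E (fun ω => g ω ^ 2) + 2 * s.E (fun ω => f ω * g ω) + s.E (fun ω => f ω ^ 2) := by
    have h := w1_E_sq_add s hf hg 1
    simpa only [one_mul, mul_one] using h
  rw [Sys.nrm, Sys.nrm, Sys.nrm, Real.sqrt_le_iff]
  refine ⟨by positivity, ?_⟩
  rw [h1, add_sq, Real.sq_sqrt ha, Real.sq_sqrt hb]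
  have h2 : s.E (fun ω => f ω * g ω) ≤
      Real.sqrt (s.E fun ω => f ω ^ 2) * Real.sqrt (s.E fun ω => g ω ^ 2) := by
    rw [← Real.sqrt_mul ha]
    exact (le_abs_self _).trans (Real.abs_le_sqrt hcs)
  linarith

theorem Sys.nrm_smul (s : Sys) {f : s.Ω → ℝ} (hf : f ∈ s.A) (c : ℝ) :
    s.nrm (fun ω => c * f ω) = |c| * s.nrm f := by
  have h1 : s.E (fun ω => (c * f ω) ^ 2) = c ^ 2 * s.E (fun ω => f ω ^ 2) := by
    rw [← s.E_smul _ _ (s.sq_mem hf)]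
    congr 1
    funext ω
    ring
  rw [Sys.nrm, Sys.nrm, h1, Real.sqrt_mul (sq_nonneg c), Real.sqrt_sq_eq_abs]

theorem Sys.nrm_sub (s : Sys) {f g : s.Ω → ℝ} (hf : f ∈ s.A) (hg : g ∈ s.A) :
    s.nrm (fun ω => f ω - g ω) ≤ s.nrm f + s.nrm g := by
  have h := s.nrm_add hf (s.smul_mem (-1) hg)
  rw [s.nrm_smul hg (-1)] at h
  have e : (fun ω => f ω + (-1) * g ω) = fun ω => f ω - g ω := by
    funext ω
    ring
  rw [e] at h
  simpa using h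

theorem w1_avg_le {α : Type} (t : Finset α) (f g : α → ℝ) (h : ∀ k ∈ t, f k ≤ g k) :
    avg t f ≤ avg t g := by
  simp only [avg, smul_eq_mul]
  exact mul_le_mul_of_nonneg_left (Finset.sum_le_sum h) (by positivity)

theorem w1_avg_const_le {α : Type} (t : Finset α) (c : ℝ) (hc : 0 ≤ c) : avg t (fun _ => c) ≤ c := by
  simp only [avg, smul_eq_mul, Finset.sum_const, nsmul_eq_mul]
  rw [← mul_assoc]
  by_cases h : t.card = 0
  · rw [h]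
    simpa using hc
  · have : ((t.card : ℝ))⁻¹ * (t.card : ℝ) = 1 := inv_mul_cancel₀ (by exact_mod_cast h)
    rw [this, one_mul]

theorem w1_avg_sq_le {α : Type} (t : Finset α) (f : α → ℝ) : (avg t f) ^ 2 ≤ avg t fun a => f a ^ 2 := by
  simp only [avg, smul_eq_mul]
  by_cases h : t.card = 0
  · simp [h]
  · have hc : (0 : ℝ) < t.card := by exact_mod_cast Nat.pos_of_ne_zero h
    have h1 := sq_sum_le_card_mul_sum_sq (s := t) (f := f)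
    rw [mul_pow, inv_pow, ← div_eq_inv_mul, ← div_eq_inv_mul, div_le_div_iff₀ (by positivity) hc]
    calc (∑ i ∈ t, f i) ^ 2 * t.card ≤ (t.card * ∑ i ∈ t, f i ^ 2) * t.card :=
          mul_le_mul_of_nonneg_right h1 hc.le
      _ = (∑ i ∈ t, f i ^ 2) * (t.card : ℝ) ^ 2 := by ring

theorem Sys.E_avg_sq_le (s : Sys) {α : Type} (t : Finset α) (f : α → s.Ω → ℝ) (hf : ∀ a ∈ t, f a ∈ s.A) :
    s.E (fun ω => (avg t fun a => f a ω) ^ 2) ≤ avg t fun a => s.E (fun ω => f a ω ^ 2) := by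
  rw [← s.E_avg t (fun a ω => f a ω ^ 2) fun a ha => s.sq_mem (hf a ha)]
  exact s.E_mono (s.sq_mem (s.avg_mem t f hf)) (s.avg_mem t _ fun a ha => s.sq_mem (hf a ha))
    fun ω => w1_avg_sq_le t fun a => f a ω

theorem Sys.nrm_avg (s : Sys) {α : Type} (t : Finset α) (f : α → s.Ω → ℝ) (hf : ∀ a ∈ t, f a ∈ s.A) (C : ℝ)
    (hC : 0 ≤ C) (h : ∀ a ∈ t, s.nrm (f a) ≤ C) : s.nrm (fun ω => avg t fun a => f a ω) ≤ C := by
  rw [Sys.nrm, Real.sqrt_le_iff]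
  refine ⟨hC, (s.E_avg_sq_le t f hf).trans
    ((w1_avg_le t _ (fun _ => C ^ 2) fun a ha => ?_).trans (w1_avg_const_le t _ (sq_nonneg C)))⟩
  have h1 := h a ha
  rw [Sys.nrm, Real.sqrt_le_iff] at h1
  exact h1.2

theorem Sys.nrm_mul_le (s : Sys) {f g : s.Ω → ℝ} (hf : f ∈ s.A) (hg : g ∈ s.A) (C : ℝ) (hC : 0 ≤ C)
    (h : ∀ ω, |g ω| ≤ C) : s.nrm (fun ω => f ω * g ω) ≤ C * s.nrm f := by
  have h1 : s.E (fun ω => (f ω * g ω) ^ 2) ≤ C ^ 2 * s.E (fun ω => f ω ^ 2) := by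
    rw [← s.E_smul _ _ (s.sq_mem hf)]
    refine s.E_mono (s.sq_mem (s.mul_mem f hf g hg)) (s.smul_mem _ (s.sq_mem hf)) fun ω => ?_
    have h3 : g ω ^ 2 ≤ C ^ 2 := sq_le_sq' (abs_le.1 (h ω)).1 (abs_le.1 (h ω)).2
    rw [mul_pow, mul_comm]
    exact mul_le_mul_of_nonneg_right h3 (sq_nonneg _)
  rw [Sys.nrm, Sys.nrm]
  refine (Real.sqrt_le_sqrt h1).trans ?_
  rw [Real.sqrt_mul (sq_nonneg C), Real.sqrt_sq hC]

theorem Sys.nrm_act (s : Sys) {f : s.Ω → ℝ} (hf : f ∈ s.A) (g : s.G) :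
    s.nrm (fun ω => f (s.act g ω)) = s.nrm f := by
  rw [Sys.nrm, Sys.nrm]
  congr 1
  exact s.E_act _ (s.sq_mem hf) g

theorem Sys.nrm_le_of_abs_le (s : Sys) {f : s.Ω → ℝ} (hf : f ∈ s.A) (C : ℝ) (hC : 0 ≤ C)
    (h : ∀ ω, |f ω| ≤ C) : s.nrm f ≤ C := by
  rw [Sys.nrm, Real.sqrt_le_iff]
  refine ⟨hC, ?_⟩
  rw [← s.E_const (C ^ 2)]
  exact s.E_mono (s.sq_mem hf) (s.const_mem _) fun ω => sq_le_sq' (abs_le.1 (h ω)).1 (abs_le.1 (h ω)).2

end Walsh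
end MP_e326dc_an
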