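import Mathlib
import Pool.Agent.Lib.MP_e326dc_an.Walsh.WDefs

/-!
# MP_e326dc_an, part A, module W2 (FN)

Internal functions: bounds and membership of products and averages.
-/

set_option autoImplicit false

open Filter Topology MeasureTheory

namespace MP_e326dc_an
namespace Walsh

theorem w2_avg_le {α : Type} (t : Finset α) (f g : α → ℝ) (h : ∀ k ∈ t, f k ≤ g k) :
    avg t f ≤ avg t g := by
  simp only [avg, smul_eq_mul]
  exact mul_le_mul_of_nonneg_left (Finset.sum_le_sum h) (by positivity)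

theorem w2_avg_const_le {α : Type} (t : Finset α) (c : ℝ) (hc : 0 ≤ c) : avg t (fun _ => c) ≤ c := by
  simp only [avg, smul_eq_mul, Finset.sum_const, nsmul_eq_mul]
  rw [← mul_assoc]
  by_cases h : t.card = 0
  · rw [h]
    simpa using hc
  · have : ((t.card : ℝ))⁻¹ * (t.card : ℝ) = 1 := inv_mul_cancel₀ (by exact_mod_cast h)
    rw [this, one_mul]

theorem w2_abs_avg_le {α : Type} (t : Finset α) (f : α → ℝ) (C : ℝ) (hC : 0 ≤ C) (h : ∀ k ∈ t, |f k| ≤ C) :
    |avg t f| ≤ C := by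
  rw [abs_le]
  constructor
  · have h1 := w2_avg_le t (fun _ => -C) f fun k hk => (abs_le.1 (h k hk)).1
    have h2 := w2_avg_const_le t C hC
    have h3 : avg t (fun _ => -C) = -avg t (fun _ => C) := by
      simp only [avg, Finset.sum_neg_distrib, smul_neg]
    rw [h3] at h1
    linarith
  · exact (w2_avg_le t f (fun _ => C) fun k hk => (abs_le.1 (h k hk)).2).trans (w2_avg_const_le t C hC)

theorem IsFn.add (X : ISys) {f g : IFn X} (hf : IsFn X f) (hg : IsFn X g) : IsFn X fun j ω => f j ω + g j ω := by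
  obtain ⟨hf1, C, hC⟩ := hf
  obtain ⟨hg1, D, hD⟩ := hg
  exact ⟨fun j => (X j).add_mem _ (hf1 j) _ (hg1 j), C + D,
    fun j ω => (abs_add_le _ _).trans (add_le_add (hC j ω) (hD j ω))⟩

theorem IsFn.mul (X : ISys) {f g : IFn X} (hf : IsFn X f) (hg : IsFn X g) : IsFn X fun j ω => f j ω * g j ω := by
  obtain ⟨hf1, C, hC⟩ := hf
  obtain ⟨hg1, D, hD⟩ := hg
  refine ⟨fun j => (X j).mul_mem _ (hf1 j) _ (hg1 j), |C| * |D|, fun j ω => ?_⟩
  rw [abs_mul]
  exact mul_le_mul ((hC j ω).trans (le_abs_self _)) ((hD j ω).trans (le_abs_self _)) (abs_nonneg _)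
    (abs_nonneg _)

theorem IsFn.const (X : ISys) (c : ℝ) : IsFn X fun _ _ => c :=
  ⟨fun j => (X j).const_mem c, |c|, fun _ _ => le_rfl⟩

theorem IsFn.sub (X : ISys) {f g : IFn X} (hf : IsFn X f) (hg : IsFn X g) : IsFn X fun j ω => f j ω - g j ω := by
  have h := hf.add X ((IsFn.const X (-1)).mul X hg)
  have e : (fun j ω => f j ω + (-1) * g j ω : IFn X) = fun j ω => f j ω - g j ω := by
    funext j ω
    ring
  rw [← e]
  exact h

/-- expectations of internal functions are bounded sequences -/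
theorem IsFn.BR (X : ISys) {f : IFn X} (hf : IsFn X f) : BR fun j => (X j).E (f j) := by
  obtain ⟨hf1, C, hC⟩ := hf
  refine ⟨C, fun j => abs_le.2 ⟨?_, ?_⟩⟩
  · rw [← (X j).E_const (-C)]
    exact (X j).E_mono ((X j).const_mem _) (hf1 j) fun ω => (abs_le.1 (hC j ω)).1
  · rw [← (X j).E_const C]
    exact (X j).E_mono (hf1 j) ((X j).const_mem _) fun ω => (abs_le.1 (hC j ω)).2

set_option linter.unusedSectionVars false

variable {ι : Type} [Fintype ι] [DecidableEq ι]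

omit [Fintype ι] [DecidableEq ι] in
theorem w2_pr (X : ISys) (L : List (IPoly ι X × IFn X)) (hL : ∀ x ∈ L, IsFn X x.2) :
    ∃ C : ℝ, 0 ≤ C ∧ ∀ n j, Walsh.pr X L n j ∈ (X j).A ∧ ∀ ω, |Walsh.pr X L n j ω| ≤ C := by
  induction L with
  | nil =>
    refine ⟨1, zero_le_one, fun n j => ⟨?_, fun ω => ?_⟩⟩
    · exact (X j).const_mem 1
    · simp [Walsh.pr]
  | cons x L ih =>
    obtain ⟨C, hC0, hC⟩ := ih fun y hy => hL y (List.mem_cons_of_mem _ hy)
    obtain ⟨hx1, D, hD⟩ := hL x List.mem_cons_self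
    refine ⟨|D| * C, by positivity, fun n j => ?_⟩
    have e : Walsh.pr X (x :: L) n j = fun ω => x.2 j ((X j).act (x.1 j n) ω) * Walsh.pr X L n j ω := by
      funext ω
      simp only [Walsh.pr, List.map_cons, List.prod_cons]
    rw [e]
    refine ⟨(X j).mul_mem _ ((X j).comp_mem _ (hx1 j) _) _ (hC n j).1, fun ω => ?_⟩
    rw [abs_mul]
    exact mul_le_mul ((hD j _).trans (le_abs_self _)) ((hC n j).2 ω) (abs_nonneg _) (abs_nonneg _)

theorem IsFn.pr (X : ISys) (L : List (IPoly ι X × IFn X)) (hL : ∀ x ∈ L, IsFn X x.2) :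
    ∃ C : ℝ, 0 ≤ C ∧ ∀ n j, Walsh.pr X L n j ∈ (X j).A ∧ ∀ ω, |Walsh.pr X L n j ω| ≤ C :=
  w2_pr X L hL

theorem IsFn.av (X : ISys) (L : List (IPoly ι X × IFn X)) (hL : ∀ x ∈ L, IsFn X x.2) :
    ∃ C : ℝ, 0 ≤ C ∧ ∀ Φ j, Walsh.av X L Φ j ∈ (X j).A ∧ ∀ ω, |Walsh.av X L Φ j ω| ≤ C := by
  obtain ⟨C, hC0, hC⟩ := IsFn.pr X L hL
  refine ⟨C, hC0, fun Φ j => ⟨(X j).avg_mem Φ _ fun n _ => (hC n j).1, fun ω => ?_⟩⟩
  exact w2_abs_avg_le Φ _ C hC0 fun n _ => (hC n j).2 ω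

end Walsh
end MP_e326dc_an
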