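import Mathlib
import Pool.Agent.Lib.MP_e326dc_an.Walsh.WDefs

/-!
# MP_e326dc_an, part A, module W4 (SHIFT)

Averages over a box change little under a shift.
-/

set_option autoImplicit false

open Filter Topology MeasureTheory

namespace MP_e326dc_an
namespace Walsh

theorem w4_one (a n : ℤ) (s : ℕ) :
    (((Finset.Ico a (a + (s : ℤ))).filter fun x => x + n ∉ Finset.Ico a (a + (s : ℤ))).card : ℝ) ≤ |(n : ℝ)| := by
  have h : (((Finset.Ico a (a + (s : ℤ))).filter fun x => x + n ∉ Finset.Ico a (a + (s : ℤ))).card : ℤ) ≤ |n| := by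
    rcases le_total 0 n with hn | hn
    · have hsub : ((Finset.Ico a (a + (s : ℤ))).filter fun x => x + n ∉ Finset.Ico a (a + (s : ℤ))) ⊆
          Finset.Ico (a + s - n) (a + s) := by
        intro x hx
        simp only [Finset.mem_filter, Finset.mem_Ico, not_and, not_lt] at hx ⊢
        have := hx.2 (by omega)
        omega
      have h1 := Finset.card_le_card hsub
      rw [Int.card_Ico] at h1
      rw [abs_of_nonneg hn]
      omega
    · have hsub : ((Finset.Ico a (a + (s : ℤ))).filter fun x => x + n ∉ Finset.Ico a (a + (s : ℤ))) ⊆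
          Finset.Ico a (a - n) := by
        intro x hx
        simp only [Finset.mem_filter, Finset.mem_Ico, not_and, not_lt] at hx ⊢
        refine ⟨hx.1.1, ?_⟩
        by_contra hcon
        have := hx.2 (by omega)
        omega
      have h1 := Finset.card_le_card hsub
      rw [Int.card_Ico] at h1
      rw [abs_of_nonpos hn]
      omega
  have h2 : ((((Finset.Ico a (a + (s : ℤ))).filter fun x => x + n ∉ Finset.Ico a (a + (s : ℤ))).card : ℤ) : ℝ) ≤
      ((|n| : ℤ) : ℝ) := Int.cast_le.2 h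
  rwa [Int.cast_abs, Int.cast_natCast] at h2

variable {ι : Type} [Fintype ι] [DecidableEq ι]

theorem w4_card_box (M : ι → ℤ) (S : ι → ℕ) : ((box M S).card : ℝ) = ∏ i, (S i : ℝ) := by
  rw [box, Fintype.card_piFinset]
  push_cast
  refine Finset.prod_congr rfl fun i _ => ?_
  rw [Int.card_Ico]
  have : (M i + (S i : ℤ) - M i).toNat = S i := by omega
  rw [this]

theorem w4_mem_box (M : ι → ℤ) (S : ι → ℕ) (k : ι → ℤ) :
    k ∈ box M S ↔ ∀ i, k i ∈ Finset.Ico (M i) (M i + (S i : ℤ)) := by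
  rw [box, Fintype.mem_piFinset]

theorem w4_count (M : ι → ℤ) (S : ι → ℕ) (hS : ∀ i, 1 ≤ S i) (n : ι → ℤ) :
    (((box M S).filter fun k => k + n ∉ box M S).card : ℝ) ≤ (box M S).card * ∑ i, |(n i : ℝ)| / S i := by
  have hsub : ((box M S).filter fun k => k + n ∉ box M S) ⊆ Finset.univ.biUnion fun i : ι =>
      (box M S).filter fun k => k i + n i ∉ Finset.Ico (M i) (M i + (S i : ℤ)) := by
    intro k hk
    rw [Finset.mem_filter, w4_mem_box M S (k + n)] at hk
    obtain ⟨hk1, hk2⟩ := hk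
    push Not at hk2
    obtain ⟨i, hi⟩ := hk2
    rw [Finset.mem_biUnion]
    exact ⟨i, Finset.mem_univ i, Finset.mem_filter.2 ⟨hk1, hi⟩⟩
  have h1 : (((box M S).filter fun k => k + n ∉ box M S).card : ℝ) ≤
      ∑ i : ι, (((box M S).filter fun k => k i + n i ∉ Finset.Ico (M i) (M i + (S i : ℤ))).card : ℝ) := by
    have := (Finset.card_le_card hsub).trans Finset.card_biUnion_le
    exact_mod_cast this
  refine h1.trans ?_
  rw [Finset.mul_sum]
  refine Finset.sum_le_sum fun i _ => ?_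
  have hSi : (0 : ℝ) < S i := by exact_mod_cast hS i
  have hsub2 : ((box M S).filter fun k => k i + n i ∉ Finset.Ico (M i) (M i + (S i : ℤ))) ⊆
      Fintype.piFinset fun l => if l = i then
        ((Finset.Ico (M i) (M i + (S i : ℤ))).filter fun x => x + n i ∉ Finset.Ico (M i) (M i + (S i : ℤ)))
        else Finset.Ico (M l) (M l + (S l : ℤ)) := by
    intro k hk
    rw [Finset.mem_filter, w4_mem_box M S k] at hk
    rw [Fintype.mem_piFinset]
    intro l
    by_cases hl : l = i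
    · subst hl
      rw [if_pos rfl]
      exact Finset.mem_filter.2 ⟨hk.1 l, hk.2⟩
    · rw [if_neg hl]
      exact hk.1 l
  have h2 := Finset.card_le_card hsub2
  rw [Fintype.card_piFinset] at h2
  have h3 : (((box M S).filter fun k => k i + n i ∉ Finset.Ico (M i) (M i + (S i : ℤ))).card : ℝ) ≤
      ∏ l, ((if l = i then
        ((Finset.Ico (M i) (M i + (S i : ℤ))).filter fun x => x + n i ∉ Finset.Ico (M i) (M i + (S i : ℤ)))
        else Finset.Ico (M l) (M l + (S l : ℤ))).card : ℝ) := by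
    exact_mod_cast h2
  refine h3.trans ?_
  rw [w4_card_box, ← Finset.mul_prod_erase Finset.univ _ (Finset.mem_univ i),
    ← Finset.mul_prod_erase Finset.univ (fun i => (S i : ℝ)) (Finset.mem_univ i), if_pos rfl]
  have h4 : ∏ l ∈ Finset.univ.erase i, ((if l = i then
        ((Finset.Ico (M i) (M i + (S i : ℤ))).filter fun x => x + n i ∉ Finset.Ico (M i) (M i + (S i : ℤ)))
        else Finset.Ico (M l) (M l + (S l : ℤ))).card : ℝ) = ∏ l ∈ Finset.univ.erase i, (S l : ℝ) := by
    refine Finset.prod_congr rfl fun l hl => ?_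
    rw [if_neg (Finset.ne_of_mem_erase hl), Int.card_Ico]
    have : (M l + (S l : ℤ) - M l).toNat = S l := by omega
    rw [this]
  rw [h4]
  have h5 : ((S i : ℝ) * ∏ l ∈ Finset.univ.erase i, (S l : ℝ)) * (|(n i : ℝ)| / S i) =
      |(n i : ℝ)| * ∏ l ∈ Finset.univ.erase i, (S l : ℝ) := by
    field_simp
  rw [h5]
  exact mul_le_mul_of_nonneg_right (w4_one _ _ _) (Finset.prod_nonneg fun l _ => Nat.cast_nonneg _)

theorem avg_shift (M : ι → ℤ) (S : ι → ℕ) (hS : ∀ i, 1 ≤ S i) (n : ι → ℤ) (f : (ι → ℤ) → ℝ) (C : ℝ)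
    (hf : ∀ k, |f k| ≤ C) :
    |avg (box M S) (fun k => f (k + n)) - avg (box M S) f| ≤ 2 * C * ∑ i, |(n i : ℝ)| / S i := by
  have hC : 0 ≤ C := (abs_nonneg _).trans (hf 0)
  set B := box M S with hB
  have hBpos : (0 : ℝ) < B.card := by
    rw [hB, w4_card_box]
    exact Finset.prod_pos fun i _ => by exact_mod_cast hS i
  have hs1 : ∑ k ∈ B, f (k + n) =
      ∑ k ∈ B.filter (fun k => k + n ∈ B), f (k + n) + ∑ k ∈ B.filter (fun k => k + n ∉ B), f (k + n) :=
    (Finset.sum_filter_add_sum_filter_not B _ _).symm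
  have hs2 : ∑ k ∈ B, f k =
      ∑ k ∈ B.filter (fun k => k + -n ∈ B), f k + ∑ k ∈ B.filter (fun k => k + -n ∉ B), f k :=
    (Finset.sum_filter_add_sum_filter_not B _ _).symm
  have hs3 : ∑ k ∈ B.filter (fun k => k + n ∈ B), f (k + n) = ∑ k ∈ B.filter (fun k => k + -n ∈ B), f k := by
    refine Finset.sum_bij' (fun k _ => k + n) (fun k _ => k + -n) ?_ ?_ ?_ ?_ ?_
    · intro k hk
      rw [Finset.mem_filter] at hk ⊢
      exact ⟨hk.2, by rw [add_neg_cancel_right]; exact hk.1⟩
    · intro k hk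
      rw [Finset.mem_filter] at hk ⊢
      exact ⟨hk.2, by rw [neg_add_cancel_right]; exact hk.1⟩
    · intro k _
      exact add_neg_cancel_right k n
    · intro k _
      exact neg_add_cancel_right k n
    · intro k _
      rfl
  have hb1 : |∑ k ∈ B.filter (fun k => k + n ∉ B), f (k + n)| ≤ C * (B.card * ∑ i, |(n i : ℝ)| / S i) := by
    refine (Finset.abs_sum_le_sum_abs _ _).trans ((Finset.sum_le_sum fun k _ => hf (k + n)).trans ?_)
    rw [Finset.sum_const, nsmul_eq_mul, mul_comm]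
    exact mul_le_mul_of_nonneg_left (w4_count M S hS n) hC
  have hb2 : |∑ k ∈ B.filter (fun k => k + -n ∉ B), f k| ≤ C * (B.card * ∑ i, |(n i : ℝ)| / S i) := by
    refine (Finset.abs_sum_le_sum_abs _ _).trans ((Finset.sum_le_sum fun k _ => hf k).trans ?_)
    rw [Finset.sum_const, nsmul_eq_mul, mul_comm]
    refine mul_le_mul_of_nonneg_left ?_ hC
    have h := w4_count M S hS (-n)
    simpa only [Pi.neg_apply, Int.cast_neg, abs_neg] using h
  have hd : ∑ k ∈ B, f (k + n) - ∑ k ∈ B, f k =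
      ∑ k ∈ B.filter (fun k => k + n ∉ B), f (k + n) - ∑ k ∈ B.filter (fun k => k + -n ∉ B), f k := by
    rw [hs1, hs2, hs3]
    ring
  have hd2 : |∑ k ∈ B, f (k + n) - ∑ k ∈ B, f k| ≤ 2 * (C * (B.card * ∑ i, |(n i : ℝ)| / S i)) := by
    rw [hd]
    refine (abs_sub _ _).trans ?_
    linarith
  simp only [avg, smul_eq_mul]
  rw [← mul_sub, abs_mul, abs_of_pos (inv_pos.2 hBpos)]
  calc (B.card : ℝ)⁻¹ * |∑ k ∈ B, f (k + n) - ∑ k ∈ B, f k| ≤
        (B.card : ℝ)⁻¹ * (2 * (C * (B.card * ∑ i, |(n i : ℝ)| / S i))) :=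
        mul_le_mul_of_nonneg_left hd2 (inv_pos.2 hBpos).le
    _ = ((B.card : ℝ)⁻¹ * B.card) * (2 * C * ∑ i, |(n i : ℝ)| / S i) := by ring
    _ = 2 * C * ∑ i, |(n i : ℝ)| / S i := by
      rw [inv_mul_cancel₀ hBpos.ne', one_mul]

end Walsh
end MP_e326dc_an
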