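import Mathlib
import Pool.Agent.Lib.MP_e326dc_an.Walsh.WDefs
import Pool.Agent.Lib.MP_e326dc_an.Walsh.W1
import Pool.Agent.Lib.MP_e326dc_an.Walsh.W2
import Pool.Agent.Lib.MP_e326dc_an.Walsh.W4

/-!
# MP_e326dc_an, part A (Walsh's theorem), module W5: structured functions
-/

open Filter Topology

namespace MP_e326dc_an
namespace Walsh

variable {ι : Type} [Fintype ι] [DecidableEq ι]


theorem w5_abs_avg_le {α : Type} (t : Finset α) (f : α → ℝ) (C : ℝ) (hC : 0 ≤ C) (h : ∀ a ∈ t, |f a| ≤ C) :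
    |avg t f| ≤ C := by
  simp only [avg, smul_eq_mul]
  rcases t.eq_empty_or_nonempty with rfl | ht
  · simpa using hC
  · have hc : (0 : ℝ) < t.card := by exact_mod_cast ht.card_pos
    rw [abs_mul, abs_of_pos (inv_pos.2 hc), inv_mul_le_iff₀ hc]
    calc |∑ i ∈ t, f i| ≤ ∑ i ∈ t, |f i| := Finset.abs_sum_le_sum_abs _ _
      _ ≤ ∑ _i ∈ t, C := Finset.sum_le_sum h
      _ = t.card * C := by rw [Finset.sum_const, nsmul_eq_mul]

theorem w5_avg_sub {α : Type} (t : Finset α) (f : α → ℝ) :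
    avg (Finset.univ : Finset {k // k ∈ t}) (fun k => f k.1) = avg t f := by
  simp only [avg]
  rw [Finset.sum_coe_sort t f]
  simp

theorem w5_avg_comm {α β : Type} (s : Finset α) (t : Finset β) (f : α → β → ℝ) :
    avg s (fun a => avg t (f a)) = avg t fun b => avg s fun a => f a b := by
  simp only [avg, smul_eq_mul, Finset.mul_sum]
  rw [Finset.sum_comm]
  refine Finset.sum_congr rfl fun b _ => ?_
  rw [Finset.sum_congr rfl fun a _ => ?_]
  ring

theorem w5_avg_mul {α : Type} (t : Finset α) (c : ℝ) (f : α → ℝ) :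
    avg t (fun a => c * f a) = c * avg t f := by
  simp only [avg, smul_eq_mul, ← Finset.mul_sum]
  ring

theorem w5_avg_sub' {α : Type} (t : Finset α) (f g : α → ℝ) :
    avg t (fun a => f a - g a) = avg t f - avg t g := by
  simp only [avg, smul_eq_mul, Finset.sum_sub_distrib]
  ring

theorem Structured.isFn (X : ISys) (P : Set (IPoly ι X)) (a : IPoly ι X) (σ : IFn X) (hσ : σ ∈ Structured X P a) :
    IsFn X σ := by
  obtain ⟨B, M, S, hB, hS, hH, rfl⟩ := hσ
  obtain ⟨C, hC0, hC⟩ := IsFn.pr X B fun x hx => (hB x hx).2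
  refine ⟨fun j => ?_, C, fun j ω => ?_⟩
  · exact (X j).avg_mem _ _ fun k _ => (X j).comp_mem _ (hC k j).1 _
  · exact w5_abs_avg_le _ _ C hC0 fun k _ => (hC k j).2 _

theorem Structured.smul (X : ISys) (P : Set (IPoly ι X)) (a : IPoly ι X) (h0 : (0 : IPoly ι X) ∈ P) (σ : IFn X)
    (hσ : σ ∈ Structured X P a) (c : ℝ) : (fun j ω => c * σ j ω) ∈ Structured X P a := by
  obtain ⟨B, M, S, hB, hS, hH, rfl⟩ := hσ
  refine ⟨(0, fun _ _ => c) :: B, M, S, ?_, hS, hH, ?_⟩
  · intro x hx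
    rcases List.mem_cons.1 hx with rfl | hx
    · exact ⟨h0, fun j => (X j).const_mem c, |c|, fun j ω => le_rfl⟩
    · exact hB x hx
  · funext j ω
    simp only [strf, Walsh.pr, List.map_cons, List.prod_cons]
    rw [w5_avg_mul]

theorem cau_structured (X : ISys) (P : Set (IPoly ι X)) (a : IPoly ι X)
    (h : ∀ (M : ℕ → ι → ℤ) (S : ℕ → ι → ℕ) (hS : ∀ j, ∀ i, 1 ≤ S j i), Huge S →
      Good (hatI X M S hS) (hatP X M S hS a P))
    (σ : IFn X) (hσ : σ ∈ Structured X P a) (L : List (IPoly ι X × IFn X)) (hL : ∀ x ∈ L, x.1 ∈ P ∧ IsFn X x.2) :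
    Cau X ((a, σ) :: L) := by
  have hσF := Structured.isFn X P a σ hσ
  obtain ⟨B, M, S, hB, hS, hH, rfl⟩ := hσ
  obtain ⟨CB, hCB0, hCB⟩ := IsFn.pr X B fun x hx => (hB x hx).2
  obtain ⟨CL, hCL0, hCL⟩ := IsFn.pr X L fun x hx => (hL x hx).2
  -- the hat list
  set Xh := hatI X M S hS with hXh
  set Lh : List (IPoly ι Xh × IFn Xh) :=
    (L.map fun x => ((ext X M S hS x.1, fun j (ω : (Xh j).Ω) => x.2 j ω.1) : IPoly ι Xh × IFn Xh)) ++
    (B.map fun x => ((var X M S hS a x.1, fun j (ω : (Xh j).Ω) => x.2 j ω.1) : IPoly ι Xh × IFn Xh)) with hLh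
  have hLhF : ∀ x ∈ Lh, x.1 ∈ hatP X M S hS a P ∧ IsFn Xh x.2 := by
    intro x hx
    rcases List.mem_append.1 hx with hx | hx
    · obtain ⟨y, hy, rfl⟩ := List.mem_map.1 hx
      refine ⟨Or.inl ⟨y.1, (hL y hy).1, rfl⟩, fun j k => (hL y hy).2.1 j, ?_⟩
      obtain ⟨C, hC⟩ := (hL y hy).2.2
      exact ⟨C, fun j ω => hC j _⟩
    · obtain ⟨y, hy, rfl⟩ := List.mem_map.1 hx
      refine ⟨Or.inr ⟨y.1, (hB y hy).1, rfl⟩, fun j k => (hB y hy).2.1 j, ?_⟩
      obtain ⟨C, hC⟩ := (hB y hy).2.2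
      exact ⟨C, fun j ω => hC j _⟩
  have hcau : Cau Xh Lh := h M S hS hH Lh hLhF
  obtain ⟨CH, hCH0, hCH⟩ := IsFn.av Xh Lh fun x hx => (hLhF x hx).2
  -- the product in the hat system
  have hpr : ∀ (n : ι → ℤ) (j : ℕ) (ω : (X j).Ω) (k : {k // k ∈ box (M j) (S j)}),
      Walsh.pr Xh Lh n j (ω, k) = Walsh.pr X L n j ω *
        Walsh.pr X B (k.1 + n) j ((X j).act (-(a j (k.1 + n))) ((X j).act (a j n) ω)) := by
    intro n j ω k
    simp only [Walsh.pr, hLh, List.map_append, List.prod_append, List.map_map]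
    congr 1
    congr 1
    refine List.map_congr_left fun x _ => ?_
    show x.2 j ((X j).act (x.1 j n + ((x.1 j (n + k.1) - a j (n + k.1)) - (x.1 j n - a j n))) ω) = _
    rw [← (X j).act_add, ← (X j).act_add, add_comm n k.1]
    have e : x.1 j n + (x.1 j (k.1 + n) - a j (k.1 + n) - (x.1 j n - a j n)) =
        x.1 j (k.1 + n) + -a j (k.1 + n) + a j n := by abel
    rw [e]
  -- the averages
  set G : Finset (ι → ℤ) → (j : ℕ) → (X j).Ω → ℝ := fun Φ j ω =>
    avg (Finset.univ : Finset {k // k ∈ box (M j) (S j)}) fun k => Walsh.av Xh Lh Φ j (ω, k) with hG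
  set δ : Finset (ι → ℤ) → ℕ → ℝ := fun Φ j =>
    CL * ∑ n ∈ Φ, (2 * CB * ∑ i, |(n i : ℝ)| / S j i) with hδ
  have hcomp : ∀ Φ j ω, |Walsh.av X ((a, strf X a B M S) :: L) Φ j ω - G Φ j ω| ≤ δ Φ j := by
    intro Φ j ω
    have e1 : G Φ j ω = avg Φ fun n => Walsh.pr X L n j ω *
        avg (box (M j) (S j)) fun k => Walsh.pr X B (k + n) j ((X j).act (-(a j (k + n))) ((X j).act (a j n) ω)) := by
      simp only [hG, Walsh.av]
      rw [w5_avg_comm]
      congr 1
      funext n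
      rw [← w5_avg_sub (box (M j) (S j)), ← w5_avg_mul]
      congr 1
      funext k
      exact hpr n j ω k
    have e2 : Walsh.av X ((a, strf X a B M S) :: L) Φ j ω = avg Φ fun n => Walsh.pr X L n j ω *
        avg (box (M j) (S j)) fun k => Walsh.pr X B k j ((X j).act (-(a j k)) ((X j).act (a j n) ω)) := by
      simp only [Walsh.av]
      congr 1
      funext n
      simp only [Walsh.pr, List.map_cons, List.prod_cons, strf]
      rw [mul_comm]
    rw [e1, e2, ← w5_avg_sub']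
    refine w5_abs_avg_le _ _ _ ?_ ?_
    · exact mul_nonneg hCL0 (Finset.sum_nonneg fun n _ => mul_nonneg (by positivity)
        (Finset.sum_nonneg fun i _ => by positivity))
    · intro n hn
      rw [← mul_sub, abs_mul]
      refine mul_le_mul ((hCL n j).2 ω) ?_ (abs_nonneg _) hCL0
      rw [abs_sub_comm]
      refine (avg_shift (M j) (S j) (hS j) n
        (fun k => Walsh.pr X B k j ((X j).act (-(a j k)) ((X j).act (a j n) ω))) CB
        (fun k => (hCB k j).2 _)).trans ?_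
      exact Finset.single_le_sum (f := fun n : ι → ℤ => 2 * CB * ∑ i, |(n i : ℝ)| / S j i)
        (fun n _ => mul_nonneg (by positivity) (Finset.sum_nonneg fun i _ => by positivity)) hn
  have hδ0 : ∀ Φ j, 0 ≤ δ Φ j := fun Φ j =>
    mul_nonneg hCL0 (Finset.sum_nonneg fun n _ => mul_nonneg (by positivity)
        (Finset.sum_nonneg fun i _ => by positivity))
  have hδlim : ∀ Φ, Tendsto (δ Φ) (hyperfilter ℕ : Filter ℕ) (𝓝 0) := by
    intro Φ
    have h1 : ∀ i, Tendsto (fun j => ((S j i : ℕ) : ℝ)) (hyperfilter ℕ : Filter ℕ) atTop := by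
      intro i
      refine tendsto_natCast_atTop_atTop.comp ?_
      rw [tendsto_atTop]
      exact fun N => hH i N
    have h2 : Tendsto (fun j => CL * ∑ n ∈ Φ, (2 * CB * ∑ i, |(n i : ℝ)| / S j i))
        (hyperfilter ℕ : Filter ℕ) (𝓝 (CL * ∑ n ∈ Φ, (2 * CB * ∑ i : ι, (0 : ℝ)))) := by
      refine Tendsto.const_mul _ (tendsto_finsetSum _ fun n _ => Tendsto.const_mul _
        (tendsto_finsetSum _ fun i _ => ?_))
      exact Tendsto.div_atTop tendsto_const_nhds (h1 i)
    simpa using h2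
  intro ε hε
  obtain ⟨N, hN⟩ := hcau (ε / 4) (by positivity)
  refine ⟨N, fun M1 M2 S1 S2 hS1 hS2 => ?_⟩
  have hd : ∀ᶠ j in (hyperfilter ℕ : Filter ℕ), 2 * (δ (box M1 S1) j + δ (box M2 S2) j) ^ 2 < ε / 2 := by
    have h1 : Tendsto (fun j => 2 * (δ (box M1 S1) j + δ (box M2 S2) j) ^ 2) (hyperfilter ℕ : Filter ℕ)
        (𝓝 (2 * (0 + 0) ^ 2)) := (((hδlim _).add (hδlim _)).pow 2).const_mul 2
    have h2 : (2 * (0 + 0) ^ 2 : ℝ) < ε / 2 := by simpa using hε
    exact h1.eventually_lt_const h2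
  filter_upwards [hN M1 M2 S1 S2 hS1 hS2, hd] with j hj1 hj2
  have hA : ∀ Φ, Walsh.av X ((a, strf X a B M S) :: L) Φ j ∈ (X j).A := by
    obtain ⟨C, _, hC⟩ := IsFn.av X ((a, strf X a B M S) :: L) (by
      intro x hx
      rcases List.mem_cons.1 hx with rfl | hx
      · exact hσF
      · exact (hL x hx).2)
    exact fun Φ => (hC Φ j).1
  have hGA : ∀ Φ, G Φ j ∈ (X j).A := fun Φ =>
    (X j).avg_mem _ _ fun k _ => (hCH Φ j).1 k
  have key : (X j).E (fun ω => (G (box M1 S1) j ω - G (box M2 S2) j ω) ^ 2) ≤ ε / 4 := by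
    refine le_trans ?_ hj1
    have := (X j).E_avg_sq_le (Finset.univ : Finset {k // k ∈ box (M j) (S j)})
      (fun k ω => Walsh.av Xh Lh (box M1 S1) j (ω, k) - Walsh.av Xh Lh (box M2 S2) j (ω, k))
      (fun k _ => (X j).sub_mem ((hCH _ j).1 k) ((hCH _ j).1 k))
    refine le_trans (le_of_eq ?_) this
    congr 1
    funext ω
    simp only [hG]
    rw [w5_avg_sub']
  calc (X j).E (fun ω => (Walsh.av X ((a, strf X a B M S) :: L) (box M1 S1) j ω -
        Walsh.av X ((a, strf X a B M S) :: L) (box M2 S2) j ω) ^ 2)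
      ≤ (X j).E (fun ω => 2 * (G (box M1 S1) j ω - G (box M2 S2) j ω) ^ 2 +
          2 * (δ (box M1 S1) j + δ (box M2 S2) j) ^ 2) := by
        refine (X j).E_mono ((X j).sq_mem ((X j).sub_mem (hA _) (hA _)))
          ((X j).add_mem _ ((X j).smul_mem 2 ((X j).sq_mem ((X j).sub_mem (hGA _) (hGA _)))) _
            ((X j).const_mem _)) fun ω => ?_
        have h1 := abs_le.1 (hcomp (box M1 S1) j ω)
        have h2 := abs_le.1 (hcomp (box M2 S2) j ω)
        set x := Walsh.av X ((a, strf X a B M S) :: L) (box M1 S1) j ω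
        set y := Walsh.av X ((a, strf X a B M S) :: L) (box M2 S2) j ω
        set u := G (box M1 S1) j ω
        set v := G (box M2 S2) j ω
        set d := δ (box M1 S1) j + δ (box M2 S2) j
        have h3 : |(x - y) - (u - v)| ≤ d := by
          rw [abs_le]; constructor <;> linarith
        have h4 : ((x - y) - (u - v)) ^ 2 ≤ d ^ 2 := by
          rw [← sq_abs]; exact pow_le_pow_left₀ (abs_nonneg _) h3 2
        nlinarith [sq_nonneg ((x - y) - 2 * (u - v))]
    _ = 2 * (X j).E (fun ω => (G (box M1 S1) j ω - G (box M2 S2) j ω) ^ 2) +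
          2 * (δ (box M1 S1) j + δ (box M2 S2) j) ^ 2 := by
        rw [(X j).E_add _ ((X j).smul_mem 2 ((X j).sq_mem ((X j).sub_mem (hGA _) (hGA _)))) _
            ((X j).const_mem _), (X j).E_smul 2 _ ((X j).sq_mem ((X j).sub_mem (hGA _) (hGA _))),
            (X j).E_const]
    _ ≤ 2 * (ε / 4) + ε / 2 := by
        have := hj2.le
        linarith
    _ = ε := by ring

end Walsh
end MP_e326dc_an
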