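import Mathlib
import Pool.Agent.Lib.MP_e326dc_an.Walsh.WDefs

/-!
# MP_e326dc_an, part A, module W3 (DIAG)

Diagonal sequence of boxes along the hyperfilter.
-/

set_option autoImplicit false

open Filter Topology MeasureTheory

namespace MP_e326dc_an
namespace Walsh

set_option linter.unusedSectionVars false

variable {ι : Type} [Fintype ι] [DecidableEq ι]

open Classical in
theorem diag (Q : ℕ → (ι → ℤ) → (ι → ℕ) → Prop)
    (h : ∀ N : ℕ, ∃ (M : ι → ℤ) (S : ι → ℕ), (∀ i, N ≤ S i) ∧ ∀ᶠ j in (hyperfilter ℕ : Filter ℕ), Q j M S) :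
    ∃ (M : ℕ → ι → ℤ) (S : ℕ → ι → ℕ), (∀ j i, 1 ≤ S j i) ∧ Huge S ∧
      ∀ᶠ j in (hyperfilter ℕ : Filter ℕ), Q j (M j) (S j) := by
  choose M S hS hQ using h
  set nn : ℕ → ℕ := fun j => Nat.findGreatest (fun N => 1 ≤ N ∧ Q j (M N) (S N)) j with hnn
  have key : ∀ N0 : ℕ, 1 ≤ N0 → ∀ᶠ j in (hyperfilter ℕ : Filter ℕ),
      N0 ≤ nn j ∧ Q j (M (nn j)) (S (nn j)) := by
    intro N0 hN0
    have h1 : ∀ᶠ j in (hyperfilter ℕ : Filter ℕ), N0 ≤ j :=
      Nat.hyperfilter_le_atTop (eventually_ge_atTop N0)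
    filter_upwards [h1, hQ N0] with j hj hj2
    refine ⟨Nat.le_findGreatest hj ⟨hN0, hj2⟩, ?_⟩
    exact (Nat.findGreatest_spec (P := fun N => 1 ≤ N ∧ Q j (M N) (S N)) hj ⟨hN0, hj2⟩).2
  refine ⟨fun j => M (nn j), fun j => if nn j = 0 then fun _ => 1 else S (nn j), ?_, ?_, ?_⟩
  · intro j i
    by_cases h0 : nn j = 0
    · simp only [h0, if_true, le_refl]
    · simp only [h0, if_false]
      exact (Nat.one_le_iff_ne_zero.2 h0).trans (hS (nn j) i)
  · intro i N
    filter_upwards [key (max N 1) (le_max_right _ _)] with j hj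
    have h0 : nn j ≠ 0 := by
      have := (le_max_right N 1).trans hj.1
      omega
    simp only [h0, if_false]
    exact ((le_max_left N 1).trans hj.1).trans (hS (nn j) i)
  · filter_upwards [key 1 le_rfl] with j hj
    have h0 : nn j ≠ 0 := by
      have := hj.1
      omega
    simp only [h0, if_false]
    exact hj.2

end Walsh
end MP_e326dc_an
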