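import Mathlib
import Pool.Agent.Lib.MP_e326dc_an.Walsh.WDefs
import Pool.Agent.Lib.MP_e326dc_an.Walsh.W1
import Pool.Agent.Lib.MP_e326dc_an.Walsh.W2
import Pool.Agent.Lib.MP_e326dc_an.Walsh.W3

/-!
# MP_e326dc_an, part A, module W6 (ORTH)

Functions almost orthogonal to structured functions have small averages.
-/

set_option autoImplicit false

open Filter Topology MeasureTheory

namespace MP_e326dc_an
namespace Walsh

variable {ι : Type} [Fintype ι] [DecidableEq ι]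

omit [Fintype ι] [DecidableEq ι] in
theorem w6_pr_cons (X : ISys) (a : IPoly ι X) (v : IFn X) (L : List (IPoly ι X × IFn X)) (n : ι → ℤ)
    (j : ℕ) (ω : (X j).Ω) :
    Walsh.pr X ((a, v) :: L) n j ω = v j ((X j).act (a j n) ω) * Walsh.pr X L n j ω := by
  simp only [Walsh.pr, List.map_cons, List.prod_cons]

theorem w6_act_neg (s : Sys) (g : s.G) (ω : s.Ω) : s.act g (s.act (-g) ω) = ω := by
  rw [← s.act_add, add_neg_cancel, s.act_zero]

theorem w6_mul_avg {α : Type} (t : Finset α) (c : ℝ) (f : α → ℝ) :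
    c * avg t f = avg t fun k => c * f k := by
  simp only [avg, smul_eq_mul, ← Finset.mul_sum]
  ring

theorem w6_avg_le {α : Type} (t : Finset α) (f g : α → ℝ) (h : ∀ k ∈ t, f k ≤ g k) :
    avg t f ≤ avg t g := by
  simp only [avg, smul_eq_mul]
  exact mul_le_mul_of_nonneg_left (Finset.sum_le_sum h) (by positivity)

theorem w6_avg_const_le {α : Type} (t : Finset α) (c : ℝ) (hc : 0 ≤ c) : avg t (fun _ => c) ≤ c := by
  simp only [avg, smul_eq_mul, Finset.sum_const, nsmul_eq_mul]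
  rw [← mul_assoc]
  by_cases h : t.card = 0
  · rw [h]
    simpa using hc
  · have : ((t.card : ℝ))⁻¹ * (t.card : ℝ) = 1 := inv_mul_cancel₀ (by exact_mod_cast h)
    rw [this, one_mul]

/-- `E(w²) = E(v σ)` for the structured function attached to the average `w` -/
theorem w6_dual (X : ISys) (a : IPoly ι X) (L : List (IPoly ι X × IFn X)) (hL : ∀ x ∈ L, IsFn X x.2)
    (v w : IFn X) (hv : IsFn X v) (hw : IsFn X w) (M : ℕ → ι → ℤ) (S : ℕ → ι → ℕ) (j : ℕ)
    (hwj : w j = Walsh.av X ((a, v) :: L) (box (M j) (S j)) j) :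
    (X j).E (fun ω => w j ω ^ 2) = (X j).E (fun ω => v j ω * strf X a ((0, w) :: L) M S j ω) := by
  obtain ⟨C, -, hC⟩ := IsFn.pr X L hL
  have hmem : ∀ k, (fun ω => w j ω * (v j ((X j).act (a j k) ω) * Walsh.pr X L k j ω)) ∈ (X j).A :=
    fun k => (X j).mul_mem _ (hw.1 j) _
      ((X j).mul_mem _ ((X j).comp_mem _ (hv.1 j) (a j k)) _ (hC k j).1)
  have h1 : (fun ω => w j ω ^ 2) = fun ω => avg (box (M j) (S j)) fun k =>
      w j ω * (v j ((X j).act (a j k) ω) * Walsh.pr X L k j ω) := by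
    funext ω
    rw [← w6_mul_avg, sq]
    congr 1
    rw [hwj]
    simp only [Walsh.av, w6_pr_cons]
  have h2 : (fun ω => v j ω * strf X a ((0, w) :: L) M S j ω) = fun ω => avg (box (M j) (S j)) fun k =>
      (fun ω' => w j ω' * (v j ((X j).act (a j k) ω') * Walsh.pr X L k j ω')) ((X j).act (-(a j k)) ω) := by
    funext ω
    rw [strf, w6_mul_avg]
    congr 1
    funext k
    rw [w6_pr_cons]
    simp only [Pi.zero_apply, (X j).act_zero, w6_act_neg]
    ring
  rw [h1, h2, (X j).E_avg _ _ fun k _ => hmem k,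
    (X j).E_avg _ _ fun k _ => (X j).comp_mem _ (hmem k) (-(a j k))]
  congr 1
  funext k
  exact ((X j).E_act _ (hmem k) (-(a j k))).symm

/-- the mean square of the structured function attached to `w` is at most `C²` times that of `w` -/
theorem w6_strf_le (X : ISys) (a : IPoly ι X) (L : List (IPoly ι X × IFn X))
    (w : IFn X) (hw : IsFn X w) (M : ℕ → ι → ℤ) (S : ℕ → ι → ℕ) (C : ℝ)
    (hC : ∀ n j, Walsh.pr X L n j ∈ (X j).A ∧ ∀ ω, |Walsh.pr X L n j ω| ≤ C) (j : ℕ) :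
    (X j).E (fun ω => strf X a ((0, w) :: L) M S j ω ^ 2) ≤ C ^ 2 * (X j).E (fun ω => w j ω ^ 2) := by
  have hpr : ∀ k, Walsh.pr X ((0, w) :: L) k j = fun ω => w j ω * Walsh.pr X L k j ω := by
    intro k
    funext ω
    rw [w6_pr_cons]
    simp only [Pi.zero_apply, (X j).act_zero]
  have hmem : ∀ k, (fun ω => w j ω * Walsh.pr X L k j ω) ∈ (X j).A := fun k =>
    (X j).mul_mem _ (hw.1 j) _ (hC k j).1
  have h1 := (X j).E_avg_sq_le (box (M j) (S j))
    (fun k ω => Walsh.pr X ((0, w) :: L) k j ((X j).act (-(a j k)) ω))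
    (fun k _ => by rw [hpr]; exact (X j).comp_mem _ (hmem k) (-(a j k)))
  refine h1.trans ((w6_avg_le _ _ (fun _ => C ^ 2 * (X j).E (fun ω => w j ω ^ 2)) fun k _ => ?_).trans
    (w6_avg_const_le _ _ (mul_nonneg (sq_nonneg _) ((X j).E_sq_nonneg (hw.1 j)))))
  rw [hpr]
  have h2 := (X j).E_act _ ((X j).sq_mem (hmem k)) (-(a j k))
  rw [h2, ← (X j).E_smul _ _ ((X j).sq_mem (hw.1 j))]
  refine (X j).E_mono ((X j).sq_mem (hmem k)) ((X j).smul_mem _ ((X j).sq_mem (hw.1 j))) fun ω => ?_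
  have h3 : Walsh.pr X L k j ω ^ 2 ≤ C ^ 2 := sq_le_sq' (abs_le.1 ((hC k j).2 ω)).1 (abs_le.1 ((hC k j).2 ω)).2
  rw [mul_pow, mul_comm]
  exact mul_le_mul_of_nonneg_right h3 (sq_nonneg _)

theorem orth_small (X : ISys) (P : Set (IPoly ι X)) (a : IPoly ι X) (h0 : (0 : IPoly ι X) ∈ P)
    (L : List (IPoly ι X × IFn X)) (hL : ∀ x ∈ L, x.1 ∈ P ∧ IsFn X x.2) :
    ∃ K : ℝ, 0 ≤ K ∧ ∀ (η : ℝ), 0 < η → ∀ v : IFn X, IsFn X v →
      (∀ σ ∈ Structured X P a, ulim (fun j => (X j).E fun ω => v j ω * σ j ω) ^ 2 ≤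
        η * ulim (fun j => (X j).E fun ω => σ j ω ^ 2)) →
      ∃ N : ℕ, ∀ (M : ι → ℤ) (S : ι → ℕ), (∀ i, N ≤ S i) →
        ulim (fun j => (X j).E (fun ω => av X ((a, v) :: L) (box M S) j ω ^ 2)) ≤ K * η := by
  have hL2 : ∀ x ∈ L, IsFn X x.2 := fun x hx => (hL x hx).2
  obtain ⟨C, hC0, hC⟩ := IsFn.pr X L hL2
  refine ⟨C ^ 2 + 1, by positivity, fun η hη v hv hσ => ?_⟩
  by_contra hcon
  push Not at hcon
  have hLv : ∀ x ∈ (a, v) :: L, IsFn X x.2 := by
    intro x hx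
    rcases List.mem_cons.1 hx with rfl | hx
    · exact hv
    · exact hL2 x hx
  obtain ⟨B, hB0, hB⟩ := IsFn.av X ((a, v) :: L) hLv
  have hQ : ∀ N : ℕ, ∃ (M : ι → ℤ) (S : ι → ℕ), (∀ i, N ≤ S i) ∧
      ∀ᶠ j in (hyperfilter ℕ : Filter ℕ), (C ^ 2 + 1) * η <
        (X j).E (fun ω => av X ((a, v) :: L) (box M S) j ω ^ 2) := by
    intro N
    obtain ⟨M, S, hS, hlt⟩ := hcon N
    refine ⟨M, S, hS, eventually_gt_of_lt_ulim ?_ hlt⟩
    have hf : IsFn X (fun j ω => av X ((a, v) :: L) (box M S) j ω) :=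
      ⟨fun j => (hB (box M S) j).1, B, fun j ω => (hB (box M S) j).2 ω⟩
    have := (hf.mul X hf).BR X
    simpa only [sq] using this
  obtain ⟨M, S, hS1, hHuge, hev⟩ := diag (fun j M S => (C ^ 2 + 1) * η <
        (X j).E (fun ω => av X ((a, v) :: L) (box M S) j ω ^ 2)) hQ
  set w : IFn X := fun j => Walsh.av X ((a, v) :: L) (box (M j) (S j)) j with hw
  have hwF : IsFn X w := ⟨fun j => (hB (box (M j) (S j)) j).1, B, fun j ω => (hB (box (M j) (S j)) j).2 ω⟩
  set σ : IFn X := strf X a ((0, w) :: L) M S with hσdef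
  have hmemσ : σ ∈ Structured X P a := by
    refine ⟨(0, w) :: L, M, S, ?_, hS1, hHuge, rfl⟩
    intro x hx
    rcases List.mem_cons.1 hx with rfl | hx
    · exact ⟨h0, hwF⟩
    · exact hL x hx
  have hdual : ∀ j, (X j).E (fun ω => w j ω ^ 2) = (X j).E (fun ω => v j ω * σ j ω) := fun j =>
    w6_dual X a L hL2 v w hv hwF M S j rfl
  have hle : ∀ j, (X j).E (fun ω => σ j ω ^ 2) ≤ C ^ 2 * (X j).E (fun ω => w j ω ^ 2) := fun j =>
    w6_strf_le X a L w hwF M S C hC j
  have hBRw : BR fun j => (X j).E (fun ω => w j ω ^ 2) := by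
    have := (hwF.mul X hwF).BR X
    simpa only [sq] using this
  have hL0 : ∀ x ∈ ((0 : IPoly ι X), w) :: L, IsFn X x.2 := by
    intro x hx
    rcases List.mem_cons.1 hx with rfl | hx
    · exact hwF
    · exact hL2 x hx
  obtain ⟨D, hD0, hD⟩ := IsFn.pr X ((0, w) :: L) hL0
  have hσF : IsFn X σ := by
    refine ⟨fun j => (X j).avg_mem _ _ fun k _ => (X j).comp_mem _ (hD k j).1 _, D, fun j ω => ?_⟩
    rw [hσdef, strf, abs_le]
    constructor
    · have h1 := w6_avg_le (box (M j) (S j)) (fun _ => -D)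
        (fun k => Walsh.pr X ((0, w) :: L) k j ((X j).act (-(a j k)) ω))
        (fun k _ => (abs_le.1 ((hD k j).2 _)).1)
      refine le_trans ?_ h1
      have h2 := w6_avg_const_le (box (M j) (S j)) D hD0
      have h3 : avg (box (M j) (S j)) (fun _ => -D) = -avg (box (M j) (S j)) (fun _ => D) := by
        simp only [avg, Finset.sum_neg_distrib, smul_neg]
      rw [h3]
      linarith
    · exact (w6_avg_le _ _ (fun _ => D) fun k _ => (abs_le.1 ((hD k j).2 _)).2).trans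
        (w6_avg_const_le _ _ hD0)
  have hBRσ : BR fun j => (X j).E (fun ω => σ j ω ^ 2) := by
    have := (hσF.mul X hσF).BR X
    simpa only [sq] using this
  have h1 := hσ σ hmemσ
  have h2 : ulim (fun j => (X j).E fun ω => v j ω * σ j ω) = ulim (fun j => (X j).E (fun ω => w j ω ^ 2)) := by
    congr 1
    funext j
    exact (hdual j).symm
  rw [h2] at h1
  have h3 : ulim (fun j => (X j).E fun ω => σ j ω ^ 2) ≤
      C ^ 2 * ulim (fun j => (X j).E (fun ω => w j ω ^ 2)) := by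
    rw [← ulim_smul _ hBRw]
    exact ulim_mono hBRσ (hBRw.smul _) (Eventually.of_forall hle)
  have h4 : (C ^ 2 + 1) * η ≤ ulim (fun j => (X j).E (fun ω => w j ω ^ 2)) :=
    le_ulim hBRw (hev.mono fun j hj => hj.le)
  generalize ulim (fun j => (X j).E (fun ω => w j ω ^ 2)) = W at h1 h3 h4
  generalize ulim (fun j => (X j).E fun ω => σ j ω ^ 2) = Y at h1 h3
  have hW : 0 < W := lt_of_lt_of_le (by positivity) h4
  have h5 : W ^ 2 ≤ (η * C ^ 2) * W := by
    refine h1.trans ?_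
    have := mul_le_mul_of_nonneg_left h3 hη.le
    linarith
  have h6 : W ≤ η * C ^ 2 := by
    rw [sq] at h5
    exact le_of_mul_le_mul_right h5 hW
  linarith

end Walsh
end MP_e326dc_an
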