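import Mathlib
import Pool.Agent.Lib.MP_e326dc_an.Walsh.WDefs
import Pool.Agent.Lib.MP_e326dc_an.Walsh.W2

/-!
# MP_e326dc_an, part A, module W7 (MIN)

Minimal distance to sums of structured functions.
-/

set_option autoImplicit false

open Filter Topology MeasureTheory

namespace MP_e326dc_an
namespace Walsh

set_option linter.unusedSectionVars false

variable {ι : Type} [Fintype ι] [DecidableEq ι]

theorem w7_isFn (X : ISys) (P : Set (IPoly ι X)) (a : IPoly ι X) (σ : IFn X) (hσ : σ ∈ Structured X P a) :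
    IsFn X σ := by
  obtain ⟨B, M, S, hB, -, -, rfl⟩ := hσ
  obtain ⟨D, hD0, hD⟩ := IsFn.pr X B fun x hx => (hB x hx).2
  refine ⟨fun j => (X j).avg_mem _ _ fun k _ => (X j).comp_mem _ (hD k j).1 _, D, fun j ω => ?_⟩
  exact w2_abs_avg_le _ _ D hD0 fun k _ => (hD k j).2 _

theorem w7_smul (X : ISys) (P : Set (IPoly ι X)) (a : IPoly ι X) (h0 : (0 : IPoly ι X) ∈ P) (σ : IFn X)
    (hσ : σ ∈ Structured X P a) (c : ℝ) : (fun j ω => c * σ j ω) ∈ Structured X P a := by
  obtain ⟨B, M, S, hB, h1, h2, rfl⟩ := hσ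
  refine ⟨(0, fun _ _ => c) :: B, M, S, ?_, h1, h2, ?_⟩
  · intro x hx
    rcases List.mem_cons.1 hx with rfl | hx
    · exact ⟨h0, IsFn.const X c⟩
    · exact hB x hx
  · funext j ω
    simp only [strf, Walsh.pr, List.map_cons, List.prod_cons, avg, smul_eq_mul, ← Finset.mul_sum]
    ring

theorem w7_sum (X : ISys) (T : List (IFn X)) (hT : ∀ σ ∈ T, IsFn X σ) :
    IsFn X fun j ω => (T.map fun τ => τ j ω).sum := by
  induction T with
  | nil => simpa using IsFn.const X 0
  | cons τ T ih =>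
    have h := (hT τ List.mem_cons_self).add X (ih fun σ hσ => hT σ (List.mem_cons_of_mem _ hσ))
    simpa only [List.map_cons, List.sum_cons] using h

theorem w7_BR (X : ISys) {f g : IFn X} (hf : IsFn X f) (hg : IsFn X g) :
    BR fun j => (X j).E fun ω => f j ω * g j ω := (hf.mul X hg).BR X

theorem w7_BR_sq (X : ISys) {f : IFn X} (hf : IsFn X f) :
    BR fun j => (X j).E fun ω => f j ω ^ 2 := by
  have := w7_BR X hf hf
  simpa only [sq] using this

theorem w7_expand (X : ISys) {v σ : IFn X} (hv : IsFn X v) (hσ : IsFn X σ) (t : ℝ) :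
    ulim (fun j => (X j).E fun ω => (v j ω - t * σ j ω) ^ 2) =
      ulim (fun j => (X j).E fun ω => v j ω ^ 2) - 2 * t * ulim (fun j => (X j).E fun ω => v j ω * σ j ω) +
        t ^ 2 * ulim (fun j => (X j).E fun ω => σ j ω ^ 2) := by
  have h1 : ∀ j, (X j).E (fun ω => (v j ω - t * σ j ω) ^ 2) =
      ((X j).E (fun ω => v j ω ^ 2) - (2 * t) * (X j).E (fun ω => v j ω * σ j ω)) +
        t ^ 2 * (X j).E (fun ω => σ j ω ^ 2) := by
    intro j
    have e : (fun ω => (v j ω - t * σ j ω) ^ 2) =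
        fun ω => (v j ω ^ 2 - (2 * t) * (v j ω * σ j ω)) + t ^ 2 * (σ j ω ^ 2) := by
      funext ω
      ring
    have m1 := (X j).sq_mem (hv.1 j)
    have m2 := (X j).mul_mem _ (hv.1 j) _ (hσ.1 j)
    have m3 := (X j).sq_mem (hσ.1 j)
    rw [e, (X j).E_add _ ((X j).sub_mem m1 ((X j).smul_mem (2 * t) m2)) _ ((X j).smul_mem (t ^ 2) m3),
      (X j).E_sub m1 ((X j).smul_mem (2 * t) m2), (X j).E_smul _ _ m2, (X j).E_smul _ _ m3]
  have b1 := w7_BR_sq X hv
  have b2 := w7_BR X hv hσ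
  have b3 := w7_BR_sq X hσ
  rw [funext h1, ulim_add (b1.sub (b2.smul _)) (b3.smul _), ulim_sub b1 (b2.smul _), ulim_smul _ b2,
    ulim_smul _ b3]

theorem min_dist (X : ISys) (P : Set (IPoly ι X)) (a : IPoly ι X) (h0 : (0 : IPoly ι X) ∈ P) (f : IFn X)
    (hf : IsFn X f) (η : ℝ) (hη : 0 < η) :
    ∃ T : List (IFn X), (∀ σ ∈ T, σ ∈ Structured X P a) ∧ ∀ σ ∈ Structured X P a,
      ulim (fun j => (X j).E fun ω => (f j ω - (T.map fun τ => τ j ω).sum) * σ j ω) ^ 2 ≤
        η * ulim (fun j => (X j).E fun ω => σ j ω ^ 2) := by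
  set DD : Set ℝ := {d | ∃ T : List (IFn X), (∀ σ ∈ T, σ ∈ Structured X P a) ∧
    d = ulim (fun j => (X j).E fun ω => (f j ω - (T.map fun τ => τ j ω).sum) ^ 2)} with hDD
  have hne : DD.Nonempty := ⟨_, [], by simp, rfl⟩
  have hfT : ∀ T : List (IFn X), (∀ σ ∈ T, σ ∈ Structured X P a) →
      IsFn X fun j ω => f j ω - (T.map fun τ => τ j ω).sum := fun T hT =>
    hf.sub X (w7_sum X T fun σ hσ => w7_isFn X P a σ (hT σ hσ))
  have hbdd : BddBelow DD := by
    refine ⟨0, ?_⟩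
    rintro d ⟨T, hT, rfl⟩
    exact le_ulim (w7_BR_sq X (hfT T hT)) (Eventually.of_forall fun j => (X j).E_sq_nonneg ((hfT T hT).1 j))
  obtain ⟨d, ⟨T, hT, rfl⟩, hd⟩ := exists_lt_of_csInf_lt hne (lt_add_of_pos_right (sInf DD) hη)
  refine ⟨T, hT, fun σ hσ => ?_⟩
  have hσF := w7_isFn X P a σ hσ
  have hv := hfT T hT
  have key : ∀ t : ℝ, 0 ≤ ulim (fun j => (X j).E fun ω => σ j ω ^ 2) * (t * t) +
      (-2 * ulim (fun j => (X j).E fun ω => (f j ω - (T.map fun τ => τ j ω).sum) * σ j ω)) * t + η := by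
    intro t
    have hmem : ulim (fun j => (X j).E fun ω => ((f j ω - (T.map fun τ => τ j ω).sum) - t * σ j ω) ^ 2) ∈ DD := by
      refine ⟨(fun j ω => t * σ j ω) :: T, ?_, ?_⟩
      · intro τ hτ
        rcases List.mem_cons.1 hτ with rfl | hτ
        · exact w7_smul X P a h0 σ hσ t
        · exact hT τ hτ
      · congr 1
        funext j
        congr 1
        funext ω
        rw [List.map_cons, List.sum_cons]
        ring
    have h1 := csInf_le hbdd hmem
    rw [w7_expand X hv hσF t] at h1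
    nlinarith
  have h3 := discrim_le_zero key
  rw [discrim] at h3
  nlinarith

end Walsh
end MP_e326dc_an
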