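import Mathlib
import Pool.Agent.Lib.MP_e326dc_an.Walsh.WDefs
import Pool.Agent.Lib.MP_e326dc_an.Walsh.W1
import Pool.Agent.Lib.MP_e326dc_an.Walsh.W2
import Pool.Agent.Lib.MP_e326dc_an.Walsh.W5
import Pool.Agent.Lib.MP_e326dc_an.Walsh.W6
import Pool.Agent.Lib.MP_e326dc_an.Walsh.W7

/-!
# MP_e326dc_an, part A, module W8 (RED) : the reduction lemma
-/

set_option autoImplicit false

open Filter Topology MeasureTheory

namespace MP_e326dc_an
namespace Walsh

variable {ι : Type} [Fintype ι] [DecidableEq ι]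

theorem w8_congr (X : ISys) {L L' : List (IPoly ι X × IFn X)}
    (h : ∀ n j ω, Walsh.pr X L n j ω = Walsh.pr X L' n j ω) (hL : Cau X L) : Cau X L' := by
  have e : Walsh.av X L' = Walsh.av X L := by
    funext Φ j ω
    simp only [Walsh.av, h]
  intro ε hε
  obtain ⟨N, hN⟩ := hL ε hε
  refine ⟨N, fun M M' S S' hS hS' => ?_⟩
  rw [e]
  exact hN M M' S S' hS hS'

theorem Cau.perm (X : ISys) {L L' : List (IPoly ι X × IFn X)} (h : L.Perm L') (hL : Cau X L) : Cau X L' :=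
  w8_congr X (fun _ _ _ => List.Perm.prod_eq (h.map _)) hL

theorem Cau.merge (X : ISys) (a : IPoly ι X) (f g : IFn X) (L : List (IPoly ι X × IFn X))
    (h : Cau X ((a, fun j ω => f j ω * g j ω) :: L)) : Cau X ((a, f) :: (a, g) :: L) :=
  w8_congr X (fun n j ω => by simp only [w6_pr_cons]; ring) h

theorem Cau.one (X : ISys) (a : IPoly ι X) (L : List (IPoly ι X × IFn X))
    (h : Cau X ((a, fun _ _ => 1) :: L)) : Cau X L :=
  w8_congr X (fun n j ω => by simp only [w6_pr_cons, one_mul]) h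

/-- normal form: one function along `a`, the others over `P` -/
theorem w8_normal (X : ISys) (P : Set (IPoly ι X)) (a : IPoly ι X) (L : List (IPoly ι X × IFn X))
    (hL : ∀ x ∈ L, x.1 ∈ insert a P ∧ IsFn X x.2) :
    ∃ (f : IFn X) (L' : List (IPoly ι X × IFn X)), IsFn X f ∧ (∀ x ∈ L', x.1 ∈ P ∧ IsFn X x.2) ∧
      ∀ n j ω, Walsh.pr X L n j ω = Walsh.pr X ((a, f) :: L') n j ω := by
  induction L with
  | nil => exact ⟨fun _ _ => 1, [], IsFn.const X 1, by simp, fun n j ω => by simp [Walsh.pr]⟩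
  | cons x L ih =>
    obtain ⟨f, L', hf, hL', e⟩ := ih fun y hy => hL y (List.mem_cons_of_mem _ hy)
    obtain ⟨hx1, hx2⟩ := hL x List.mem_cons_self
    obtain ⟨p, g⟩ := x
    rcases hx1 with hx1 | hx1
    · have hx1' : p = a := hx1
      subst hx1'
      refine ⟨fun j ω => g j ω * f j ω, L', hx2.mul X hf, hL', fun n j ω => ?_⟩
      rw [w6_pr_cons, e, w6_pr_cons, w6_pr_cons]
      ring
    · refine ⟨f, (p, g) :: L', hf, ?_, fun n j ω => ?_⟩
      · intro y hy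
        rcases List.mem_cons.1 hy with rfl | hy
        · exact ⟨hx1, hx2⟩
        · exact hL' y hy
      · rw [w6_pr_cons, e, w6_pr_cons, w6_pr_cons, w6_pr_cons]
        ring

theorem w8_av_add (X : ISys) (a : IPoly ι X) (f g : IFn X) (L : List (IPoly ι X × IFn X))
    (Φ : Finset (ι → ℤ)) (j : ℕ) (ω : (X j).Ω) :
    Walsh.av X ((a, fun j ω => f j ω + g j ω) :: L) Φ j ω =
      Walsh.av X ((a, f) :: L) Φ j ω + Walsh.av X ((a, g) :: L) Φ j ω := by
  simp only [Walsh.av, avg, smul_eq_mul, w6_pr_cons, add_mul, Finset.sum_add_distrib, mul_add]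

/-- mean square inequality -/
theorem w8_sq_add (s : Sys) {f g : s.Ω → ℝ} (hf : f ∈ s.A) (hg : g ∈ s.A) :
    s.E (fun ω => (f ω + g ω) ^ 2) ≤ 2 * s.E (fun ω => f ω ^ 2) + 2 * s.E (fun ω => g ω ^ 2) := by
  rw [← s.E_smul 2 _ (s.sq_mem hf), ← s.E_smul 2 _ (s.sq_mem hg),
    ← s.E_add _ (s.smul_mem 2 (s.sq_mem hf)) _ (s.smul_mem 2 (s.sq_mem hg))]
  refine s.E_mono (s.sq_mem (s.add_mem _ hf _ hg))
    (s.add_mem _ (s.smul_mem 2 (s.sq_mem hf)) _ (s.smul_mem 2 (s.sq_mem hg))) fun ω => ?_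
  nlinarith [sq_nonneg (f ω - g ω)]

theorem w8_sq_sub (s : Sys) {f g : s.Ω → ℝ} (hf : f ∈ s.A) (hg : g ∈ s.A) :
    s.E (fun ω => (f ω - g ω) ^ 2) ≤ 2 * s.E (fun ω => f ω ^ 2) + 2 * s.E (fun ω => g ω ^ 2) := by
  have h := w8_sq_add s hf (s.neg_mem hg)
  have e1 : (fun ω => (f ω + -g ω) ^ 2) = fun ω => (f ω - g ω) ^ 2 := by funext ω; ring
  have e2 : (fun ω => (-g ω) ^ 2) = fun ω => g ω ^ 2 := by funext ω; ring
  rwa [e1, e2] at h

theorem w8_av_mem (X : ISys) (a : IPoly ι X) {f : IFn X} (hf : IsFn X f) (L : List (IPoly ι X × IFn X))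
    (hL : ∀ x ∈ L, IsFn X x.2) (Φ : Finset (ι → ℤ)) (j : ℕ) : Walsh.av X ((a, f) :: L) Φ j ∈ (X j).A := by
  obtain ⟨C, -, hC⟩ := IsFn.av X ((a, f) :: L) (by
    intro x hx
    rcases List.mem_cons.1 hx with rfl | hx
    · exact hf
    · exact hL x hx)
  exact (hC Φ j).1

/-- the difference of averages splits -/
theorem w8_diff (X : ISys) (a : IPoly ι X) {f g : IFn X} (hf : IsFn X f) (hg : IsFn X g)
    (L : List (IPoly ι X × IFn X)) (hL : ∀ x ∈ L, IsFn X x.2) (Φ Φ' : Finset (ι → ℤ)) (j : ℕ) :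
    (X j).E (fun ω => (Walsh.av X ((a, fun j ω => f j ω + g j ω) :: L) Φ j ω -
        Walsh.av X ((a, fun j ω => f j ω + g j ω) :: L) Φ' j ω) ^ 2) ≤
      2 * (X j).E (fun ω => (Walsh.av X ((a, f) :: L) Φ j ω - Walsh.av X ((a, f) :: L) Φ' j ω) ^ 2) +
      2 * (X j).E (fun ω => (Walsh.av X ((a, g) :: L) Φ j ω - Walsh.av X ((a, g) :: L) Φ' j ω) ^ 2) := by
  have h := w8_sq_add (X j) ((X j).sub_mem (w8_av_mem X a hf L hL Φ j) (w8_av_mem X a hf L hL Φ' j))
    ((X j).sub_mem (w8_av_mem X a hg L hL Φ j) (w8_av_mem X a hg L hL Φ' j))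
  have e : (fun ω => (Walsh.av X ((a, fun j ω => f j ω + g j ω) :: L) Φ j ω -
        Walsh.av X ((a, fun j ω => f j ω + g j ω) :: L) Φ' j ω) ^ 2) =
      fun ω => ((Walsh.av X ((a, f) :: L) Φ j ω - Walsh.av X ((a, f) :: L) Φ' j ω) +
        (Walsh.av X ((a, g) :: L) Φ j ω - Walsh.av X ((a, g) :: L) Φ' j ω)) ^ 2 := by
    funext ω
    rw [w8_av_add, w8_av_add]
    ring
  rw [e]
  exact h

theorem w8_cau_add (X : ISys) (a : IPoly ι X) {f g : IFn X} (hf : IsFn X f) (hg : IsFn X g)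
    (L : List (IPoly ι X × IFn X)) (hL : ∀ x ∈ L, IsFn X x.2) (h1 : Cau X ((a, f) :: L))
    (h2 : Cau X ((a, g) :: L)) : Cau X ((a, fun j ω => f j ω + g j ω) :: L) := by
  intro ε hε
  obtain ⟨N1, hN1⟩ := h1 (ε / 4) (by positivity)
  obtain ⟨N2, hN2⟩ := h2 (ε / 4) (by positivity)
  refine ⟨max N1 N2, fun M M' S S' hS hS' => ?_⟩
  filter_upwards [hN1 M M' S S' (fun i => (le_max_left _ _).trans (hS i))
      (fun i => (le_max_left _ _).trans (hS' i)),
    hN2 M M' S S' (fun i => (le_max_right _ _).trans (hS i)) (fun i => (le_max_right _ _).trans (hS' i))]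
    with j hj1 hj2
  have h := w8_diff X a hf hg L hL (box M S) (box M' S') j
  linarith

theorem w8_cau_sum (X : ISys) (a : IPoly ι X) (L : List (IPoly ι X × IFn X)) (hL : ∀ x ∈ L, IsFn X x.2)
    (T : List (IFn X)) (hT : ∀ σ ∈ T, IsFn X σ ∧ Cau X ((a, σ) :: L)) :
    Cau X ((a, fun j ω => (T.map fun τ => τ j ω).sum) :: L) := by
  induction T with
  | nil =>
    intro ε hε
    refine ⟨0, fun M M' S S' _ _ => Eventually.of_forall fun j => ?_⟩
    have e : ∀ (Φ : Finset (ι → ℤ)) (ω : (X j).Ω),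
        Walsh.av X ((a, fun j ω => (([] : List (IFn X)).map fun τ => τ j ω).sum) :: L) Φ j ω = 0 := by
      intro Φ ω
      simp [Walsh.av, avg, w6_pr_cons]
    simp only [e, sub_zero]
    have h0 : (X j).E (fun _ => (0 : ℝ) ^ 2) = 0 := by
      have := (X j).E_const (0 ^ 2)
      simpa using this
    rw [h0]
    exact hε.le
  | cons τ T ih =>
    obtain ⟨h1, h2⟩ := hT τ List.mem_cons_self
    have h3 := w8_cau_add X a h1 (w7_sum X T fun σ hσ => (hT σ (List.mem_cons_of_mem _ hσ)).1) L hL h2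
      (ih fun σ hσ => hT σ (List.mem_cons_of_mem _ hσ))
    simpa only [List.map_cons, List.sum_cons] using h3

theorem reduction (X : ISys) (P : Set (IPoly ι X)) (a : IPoly ι X) (h0 : (0 : IPoly ι X) ∈ P)
    (h : ∀ (M : ℕ → ι → ℤ) (S : ℕ → ι → ℕ) (hS : ∀ j, ∀ i, 1 ≤ S j i), Huge S →
      Good (hatI X M S hS) (hatP X M S hS a P)) :
    Good X (insert a P) := by
  intro L0 hL0
  obtain ⟨f, L, hf, hL, e⟩ := w8_normal X P a L0 hL0
  refine w8_congr X (fun n j ω => (e n j ω).symm) ?_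
  have hL2 : ∀ x ∈ L, IsFn X x.2 := fun x hx => (hL x hx).2
  intro ε hε
  obtain ⟨K, hK0, hK⟩ := orth_small X P a h0 L hL
  set η : ℝ := ε / (16 * (K + 1)) with hη
  have hη0 : 0 < η := by positivity
  obtain ⟨T, hT, hTσ⟩ := min_dist X P a h0 f hf η hη0
  set g : IFn X := fun j ω => (T.map fun τ => τ j ω).sum with hg
  have hgf : IsFn X g := w7_sum X T fun σ hσ => w7_isFn X P a σ (hT σ hσ)
  set v : IFn X := fun j ω => f j ω - g j ω with hv
  have hvf : IsFn X v := hf.sub X hgf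
  obtain ⟨N1, hN1⟩ := hK η hη0 v hvf hTσ
  have hgc : Cau X ((a, g) :: L) := w8_cau_sum X a L hL2 T fun σ hσ =>
    ⟨w7_isFn X P a σ (hT σ hσ), cau_structured X P a h σ (hT σ hσ) L hL⟩
  obtain ⟨N2, hN2⟩ := hgc (ε / 4) (by positivity)
  have hfe : f = fun j ω => g j ω + v j ω := by
    funext j ω
    simp only [hv]
    ring
  have hsmall : ∀ (M : ι → ℤ) (S : ι → ℕ), (∀ i, N1 ≤ S i) → ∀ᶠ j in (hyperfilter ℕ : Filter ℕ),
      (X j).E (fun ω => Walsh.av X ((a, v) :: L) (box M S) j ω ^ 2) < (K + 1) * η := by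
    intro M S hS
    have hav : IsFn X fun j => Walsh.av X ((a, v) :: L) (box M S) j := by
      obtain ⟨C, -, hC⟩ := IsFn.av X ((a, v) :: L) (by
        intro x hx
        rcases List.mem_cons.1 hx with rfl | hx
        · exact hvf
        · exact hL2 x hx)
      exact ⟨fun j => (hC _ j).1, C, fun j ω => (hC _ j).2 ω⟩
    refine eventually_lt_of_ulim_lt (w7_BR_sq X hav) ?_
    have := hN1 M S hS
    refine lt_of_le_of_lt this ?_
    nlinarith
  refine ⟨max N1 N2, fun M M' S S' hS hS' => ?_⟩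
  filter_upwards [hN2 M M' S S' (fun i => (le_max_right _ _).trans (hS i))
      (fun i => (le_max_right _ _).trans (hS' i)),
    hsmall M S (fun i => (le_max_left _ _).trans (hS i)),
    hsmall M' S' (fun i => (le_max_left _ _).trans (hS' i))] with j hj1 hj2 hj3
  have hKη : (K + 1) * η = ε / 16 := by
    rw [hη]
    field_simp
  rw [hKη] at hj2 hj3
  rw [hfe]
  have h1 := w8_diff X a hgf hvf L hL2 (box M S) (box M' S') j
  have h2 := w8_sq_sub (X j) (w8_av_mem X a hvf L hL2 (box M S) j) (w8_av_mem X a hvf L hL2 (box M' S') j)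
  linarith

end Walsh
end MP_e326dc_an
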