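import Mathlib
import Pool.Agent.Lib.MP_e326dc_an.C.Pet
import Pool.Agent.Lib.MP_e326dc_an.Walsh.WDefs
import Pool.Agent.Lib.MP_e326dc_an.Walsh.W8

/-!
# MP_e326dc_an, part A (Walsh's theorem), module W9: the induction
-/

open Filter Topology

namespace MP_e326dc_an
namespace Walsh

variable {ι : Type} [Fintype ι] [DecidableEq ι]

theorem w9_pi {A K : Type*} [AddCommGroup A] {G : Type*} [AddCommGroup G] {n : ℕ} {p : A → K → G}
    (h : ∀ k, PolyLE n fun x => p x k) : PolyLE n p := by
  induction n generalizing p with
  | zero => intro x y; funext k; exact h k x y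
  | succ n ih => intro t; exact ih fun k => h k t

theorem w9_good_mono (X : ISys) {P P' : Set (IPoly ι X)} (hP : P' ⊆ P) (h : Good X P) : Good X P' :=
  fun L hL => h L fun x hx => ⟨hP (hL x hx).1, (hL x hx).2⟩

theorem w9_cau_congr (X : ISys) {L L' : List (IPoly ι X × IFn X)}
    (h : ∀ n j ω, pr X L n j ω = pr X L' n j ω) (hL : Cau X L) : Cau X L' := by
  have e : av X L = av X L' := by
    funext Φ j ω
    simp only [av]
    congr 1
    funext n
    exact h n j ω
  unfold Cau at *
  rw [← e]; exact hL

/-- translation by constants does not matter -/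
theorem w9_good_trans (X : ISys) {P P' : Set (IPoly ι X)}
    (hP : ∀ p ∈ P', ∃ q ∈ P, ∃ c : (j : ℕ) → (X j).G, ∀ j n, p j n = q j n + c j) (h : Good X P) :
    Good X P' := by
  intro L hL
  have key : ∃ L' : List (IPoly ι X × IFn X), (∀ x ∈ L', x.1 ∈ P ∧ IsFn X x.2) ∧
      ∀ n j ω, pr X L' n j ω = pr X L n j ω := by
    induction L with
    | nil => exact ⟨[], by simp, fun n j ω => rfl⟩
    | cons y L ih =>
      obtain ⟨L', h1, h2⟩ := ih fun x hx => hL x (List.mem_cons_of_mem _ hx)
      obtain ⟨hy1, hy2⟩ := hL y List.mem_cons_self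
      obtain ⟨q, hq, c, hc⟩ := hP _ hy1
      refine ⟨(q, fun j ω => y.2 j ((X j).act (c j) ω)) :: L', ?_, ?_⟩
      · intro x hx
        rcases List.mem_cons.1 hx with hx | hx
        · subst hx
          refine ⟨hq, fun j => (X j).comp_mem _ (hy2.1 j) _, ?_⟩
          obtain ⟨C, hC⟩ := hy2.2
          exact ⟨C, fun j ω => hC j _⟩
        · exact h1 x hx
      · intro n j ω
        have h3 := h2 n j ω
        simp only [pr, List.map_cons, List.prod_cons] at h3 ⊢
        rw [h3, hc j n, add_comm, (X j).act_add]
  obtain ⟨L', h1, h2⟩ := key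
  exact w9_cau_congr X h2 (h L' h1)

/-- the coset of polynomials of degree at most `D` around `z` -/
def w9C (D : ℕ) (X : ISys) (z : IPoly ι X) : Set (IPoly ι X) :=
  {p | ∀ j, PolyLE D (fun n => p j n - z j n)}

theorem w9_self (D : ℕ) (X : ISys) (z : IPoly ι X) : z ∈ w9C D X z := by
  intro j
  have : (fun n => z j n - z j n) = fun _ => (0 : (X j).G) := by funext n; simp
  rw [this]; exact PolyLE.const D 0

theorem w9_hat_sub (D : ℕ) (X : ISys) (g : IPoly ι X) (cs : List (IPoly ι X)) (R : Set (IPoly ι X))
    (hcs : ∀ c ∈ cs, ∀ j, PolyLE (D + 1) (fun n => c j n - g j n))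
    (M : ℕ → ι → ℤ) (S : ℕ → ι → ℕ) (hS : ∀ j, ∀ i, 1 ≤ S j i) :
    hatP X M S hS g ((⋃ c ∈ cs, w9C D X c) ∪ R) ⊆
      (⋃ c ∈ cs.map (ext X M S hS), w9C D (hatI X M S hS) c) ∪ hatP X M S hS g R := by
  rintro q (⟨e, he, rfl⟩ | ⟨e, he, rfl⟩)
  · rcases he with he | he
    · left
      simp only [Set.mem_iUnion] at he ⊢
      obtain ⟨c, hc, hec⟩ := he
      refine ⟨ext X M S hS c, List.mem_map_of_mem hc, ?_⟩
      intro j
      exact w9_pi fun k => hec j
    · right; left; exact ⟨e, he, rfl⟩
  · rcases he with he | he
    · left
      simp only [Set.mem_iUnion] at he ⊢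
      obtain ⟨c, hc, hec⟩ := he
      refine ⟨ext X M S hS c, List.mem_map_of_mem hc, ?_⟩
      intro j
      refine w9_pi fun k => ?_
      have h1 : PolyLE (D + 1) (fun n => e j n - g j n) := by
        have h2 := ((hec j).succ).add (hcs c hc j)
        have : (fun x => e j x - c j x + (c j x - g j x)) = fun n => e j n - g j n := by funext n; abel
        rw [this] at h2; exact h2
      have h3 := (hec j).add (h1 k.1)
      have : (fun x => e j x - c j x + (e j (x + k.1) - g j (x + k.1) - (e j x - g j x))) =
          fun n => (var X M S hS g e j n k - ext X M S hS c j n k : (X j).G) := by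
        funext n
        simp only [var, ext]
        abel
      rw [this] at h3
      exact h3
    · right; right; exact ⟨e, he, rfl⟩

theorem w9_ext_zero (X : ISys) (M : ℕ → ι → ℤ) (S : ℕ → ι → ℕ) (hS : ∀ j, ∀ i, 1 ≤ S j i) :
    ext X M S hS (0 : IPoly ι X) = 0 := rfl

theorem tstep (D : ℕ) (KK : ∀ X : ISys, IPoly ι X → Set (IPoly ι X) → Prop)
    (h0 : ∀ X z R, KK X z R → (0 : IPoly ι X) ∈ insert z R)
    (hhat : ∀ X z R (g : IPoly ι X), KK X z R → (∀ j, PolyLE D (fun n => g j n - z j n)) →
      ∀ M S (hS : ∀ j, ∀ i, 1 ≤ S j i), Huge S → KK (hatI X M S hS) (ext X M S hS z) (hatP X M S hS g R))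
    (hgood : ∀ X z R, KK X z R → Good X (insert z R)) :
    ∀ X z R, KK X z R → Good X ({p | ∀ j, PolyLE D (fun n => p j n - z j n)} ∪ R) := by
  induction D generalizing KK with
  | zero =>
    intro X z R hK
    refine w9_good_trans X (P := insert z R) ?_ (hgood X z R hK)
    rintro p (hp | hp)
    · refine ⟨z, Set.mem_insert _ _, fun j => p j 0 - z j 0, fun j n => ?_⟩
      have := hp j n 0
      simp only at this
      show p j n = z j n + (p j 0 - z j 0)
      rw [← this]; abel
    · exact ⟨p, Set.mem_insert_of_mem _ hp, fun j => 0, fun j n => by simp⟩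
  | succ D ih =>
    have inner : ∀ k : ℕ, ∀ (X : ISys) (z : IPoly ι X) (R : Set (IPoly ι X)) (cs : List (IPoly ι X)),
        KK X z R → cs.length = k → (∀ c ∈ cs, ∀ j, PolyLE (D + 1) (fun n => c j n - z j n)) →
        Good X ((⋃ c ∈ z :: cs, w9C D X c) ∪ R) := by
      intro k
      induction k with
      | zero =>
        intro X z R cs hK hlen hcs
        have hcs0 : cs = [] := List.length_eq_zero_iff.1 hlen
        subst hcs0
        have h1 := ih KK h0 (fun X z R g hK hg => hhat X z R g hK fun j => (hg j).succ) hgood X z R hK
        refine w9_good_mono X ?_ h1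
        rintro p (hp | hp)
        · left
          simp only [List.mem_singleton, Set.iUnion_iUnion_eq_left] at hp
          exact hp
        · exact Or.inr hp
      | succ k ihk =>
        intro X z R cs hK hlen hcs
        obtain ⟨c', cs', rfl⟩ := List.exists_cons_of_length_eq_add_one hlen
        have hlen' : cs'.length = k := by simpa using hlen
        have h1 := ih (fun X z' R' => ∃ (z : IPoly ι X) (R : Set (IPoly ι X)) (cs : List (IPoly ι X)),
            KK X z R ∧ cs.length = k ∧ (∀ c ∈ cs, ∀ j, PolyLE (D + 1) (fun n => c j n - z j n)) ∧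
            (∀ j, PolyLE (D + 1) (fun n => z' j n - z j n)) ∧ (0 : IPoly ι X) ∈ R' ∧
            R' ⊆ (⋃ c ∈ z :: cs, w9C D X c) ∪ R)
          (fun X z' R' h => Set.mem_insert_of_mem _ h.choose_spec.choose_spec.choose_spec.2.2.2.2.1)
          ?_ ?_ X c' ((⋃ c ∈ z :: cs', w9C D X c) ∪ R) ⟨z, R, cs', hK, hlen', ?_, ?_, ?_, subset_rfl⟩
        · refine w9_good_mono X ?_ h1
          rintro p (hp | hp)
          · simp only [Set.mem_iUnion, List.mem_cons] at hp
            obtain ⟨c, hc, hpc⟩ := hp
            rcases hc with rfl | rfl | hc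
            · right; left
              simp only [Set.mem_iUnion]
              exact ⟨c, List.mem_cons_self, hpc⟩
            · left; exact hpc
            · right; left
              simp only [Set.mem_iUnion]
              exact ⟨c, List.mem_cons_of_mem _ hc, hpc⟩
          · right; right; exact hp
        · rintro X z' R' g ⟨z, R, cs, hK, hlen, hcs, hz', h0R, hR'⟩ hg M S hS hH
          have hgz : ∀ j, PolyLE (D + 1) (fun n => g j n - z j n) := by
            intro j
            have h2 := ((hg j).succ).add (hz' j)
            have : (fun x => g j x - z' j x + (z' j x - z j x)) = fun n => g j n - z j n := by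
              funext n; abel
            rw [this] at h2; exact h2
          refine ⟨ext X M S hS z, hatP X M S hS g R, cs.map (ext X M S hS), hhat X z R g hK hgz M S hS hH,
            by simpa using hlen, ?_, ?_, ?_, ?_⟩
          · intro c hc j
            obtain ⟨c0, hc0, rfl⟩ := List.mem_map.1 hc
            exact w9_pi fun k => hcs c0 hc0 j
          · intro j
            exact w9_pi fun k => hz' j
          · left; exact ⟨0, h0R, rfl⟩
          · have h3 := w9_hat_sub D X g (z :: cs) R ?_ M S hS
            · refine Set.Subset.trans ?_ h3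
              rintro q (⟨e, he, rfl⟩ | ⟨e, he, rfl⟩)
              · left; exact ⟨e, hR' he, rfl⟩
              · right; exact ⟨e, hR' he, rfl⟩
            · intro c hc j
              rcases List.mem_cons.1 hc with rfl | hc
              · have h2 := (hgz j).neg
                have : (fun x => -(g j x - c j x)) = fun n => c j n - g j n := by funext n; abel
                rw [this] at h2; exact h2
              · have h2 := (hcs c hc j).sub (hgz j)
                have : (fun x => c j x - z j x - (g j x - z j x)) = fun n => c j n - g j n := by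
                  funext n; abel
                rw [this] at h2; exact h2
        · rintro X z' R' ⟨z, R, cs, hK, hlen, hcs, hz', h0R, hR'⟩
          refine reduction X R' z' h0R ?_
          intro M S hS hH
          have h2 := ihk (hatI X M S hS) (ext X M S hS z) (hatP X M S hS z' R) (cs.map (ext X M S hS))
            (hhat X z R z' hK hz' M S hS hH) (by simpa using hlen) ?_
          · refine w9_good_mono _ ?_ h2
            have h3 := w9_hat_sub D X z' (z :: cs) R ?_ M S hS
            · refine Set.Subset.trans ?_ h3
              rintro q (⟨e, he, rfl⟩ | ⟨e, he, rfl⟩)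
              · left; exact ⟨e, hR' he, rfl⟩
              · right; exact ⟨e, hR' he, rfl⟩
            · intro c hc j
              rcases List.mem_cons.1 hc with rfl | hc
              · have h2 := (hz' j).neg
                have : (fun x => -(z' j x - c j x)) = fun n => c j n - z' j n := by funext n; abel
                rw [this] at h2; exact h2
              · have h2 := (hcs c hc j).sub (hz' j)
                have : (fun x => c j x - z j x - (z' j x - z j x)) = fun n => c j n - z' j n := by
                  funext n; abel
                rw [this] at h2; exact h2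
          · intro c hc j
            obtain ⟨c0, hc0, rfl⟩ := List.mem_map.1 hc
            exact w9_pi fun k => hcs c0 hc0 j
        · intro c hc j; exact hcs c (List.mem_cons_of_mem _ hc) j
        · intro j; exact hcs c' List.mem_cons_self j
        · rcases h0 X z R hK with h | h
          · left
            simp only [Set.mem_iUnion]
            refine ⟨z, List.mem_cons_self, ?_⟩
            rw [h]
            exact w9_self D X z
          · right; exact h
    intro X z R hK L hL
    classical
    set cs : List (IPoly ι X) := (L.map Prod.fst).filter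
      (fun p => ∀ j, PolyLE (D + 1) (fun n => p j n - z j n)) with hcs
    refine inner cs.length X z R cs hK rfl ?_ L ?_
    · intro c hc j
      have := (List.mem_filter.1 hc).2
      simp only [decide_eq_true_eq] at this
      exact this j
    · intro x hx
      refine ⟨?_, (hL x hx).2⟩
      rcases (hL x hx).1 with h | h
      · left
        simp only [Set.mem_iUnion]
        refine ⟨x.1, List.mem_cons_of_mem _ (List.mem_filter.2 ⟨List.mem_map_of_mem hx, ?_⟩), w9_self D X _⟩
        simp only [decide_eq_true_eq]
        exact h
      · right; exact h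

theorem good_poly (D : ℕ) (X : ISys) : Good X {p : IPoly ι X | ∀ j, PolyLE D (p j)} := by
  have h := tstep (ι := ι) D (fun X z R => z = 0 ∧ R = ∅) ?_ ?_ ?_ X 0 ∅ ⟨rfl, rfl⟩
  · refine w9_good_mono X ?_ h
    intro p hp
    left
    intro j
    simpa using hp j
  · rintro X z R ⟨rfl, rfl⟩; exact Set.mem_insert _ _
  · rintro X z R g ⟨rfl, rfl⟩ _ M S hS _
    exact ⟨rfl, by simp [hatP]⟩
  · rintro X z R ⟨rfl, rfl⟩ L hL ε hε
    refine ⟨1, fun M M' S S' hS hS' => Filter.Eventually.of_forall fun j => ?_⟩
    have hc : ∀ n ω, pr X L n j ω = pr X L 0 j ω := by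
      intro n ω
      simp only [pr]
      congr 1
      refine List.map_congr_left fun x hx => ?_
      have h1 := (hL x hx).1
      simp only [Set.mem_insert_iff, Set.mem_empty_iff_false, or_false] at h1
      rw [h1]
      rfl
    have ha : ∀ (M : ι → ℤ) (S : ι → ℕ), (∀ i, 1 ≤ S i) → ∀ ω, av X L (box M S) j ω = pr X L 0 j ω := by
      intro M S hS ω
      simp only [av, avg]
      rw [Finset.sum_congr rfl fun n _ => hc n ω, Finset.sum_const, nsmul_eq_mul, smul_eq_mul, ← mul_assoc,
        inv_mul_cancel₀, one_mul]
      have : (box M S).Nonempty := by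
        refine ⟨M, ?_⟩
        simp only [box, Fintype.mem_piFinset, Finset.mem_Ico, le_refl, true_and]
        intro i
        have := hS i
        omega
      exact_mod_cast this.card_ne_zero
    have e : (fun ω => (av X L (box M S) j ω - av X L (box M' S') j ω) ^ 2) = fun _ => (0 : ℝ) := by
      funext ω
      rw [ha M S hS, ha M' S' hS']
      ring
    rw [e, (X j).E_const]
    exact hε.le

end Walsh
end MP_e326dc_an
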