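import Mathlib
import Pool.Agent.Lib.MP_e326dc_an.Defs
import Pool.Agent.Lib.MP_e326dc_an.Walsh.WDefs
import Pool.Agent.Lib.MP_e326dc_an.Walsh.W9

/-!
# MP_e326dc_an, part A, module W10 : the theorem for one abstract system
-/

open Filter Topology MeasureTheory
open scoped ComplexConjugate

namespace MP_e326dc_an
namespace Walsh

variable {ι : Type} [Fintype ι] [DecidableEq ι]

theorem walsh_sys (s : Sys) (D : ℕ) (L : List (((ι → ℤ) → s.G) × (s.Ω → ℝ)))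
    (hL : ∀ x ∈ L, PolyLE D x.1 ∧ x.2 ∈ s.A) :
    ∀ ε : ℝ, 0 < ε → ∃ N : ℕ, ∀ (M M' : ι → ℤ) (S S' : ι → ℕ), (∀ i, N ≤ S i) → (∀ i, N ≤ S' i) →
      s.E (fun ω => (avg (box M S) (fun n => s.pr L n ω) - avg (box M' S') (fun n => s.pr L n ω)) ^ 2) ≤ ε := by
  intro ε hε
  set X : ISys := fun _ => s with hX
  set L' : List (IPoly ι X × IFn X) := L.map fun x => ((fun _ => x.1), (fun _ => x.2)) with hL'
  have h1 : ∀ x ∈ L', x.1 ∈ {p : IPoly ι X | ∀ j, PolyLE D (p j)} ∧ IsFn X x.2 := by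
    intro x hx
    simp only [hL', List.mem_map] at hx
    obtain ⟨y, hy, rfl⟩ := hx
    obtain ⟨hp, hm⟩ := hL y hy
    obtain ⟨C, hC⟩ := s.bdd _ hm
    exact ⟨fun j => hp, fun j => hm, C, fun j ω => hC ω⟩
  obtain ⟨N, hN⟩ := good_poly D X L' h1 ε hε
  refine ⟨N, fun M M' S S' hS hS' => ?_⟩
  obtain ⟨j, hj⟩ := (hN M M' S S' hS hS').exists
  refine le_trans (le_of_eq ?_) hj
  have e : ∀ (t : Finset (ι → ℤ)) (ω : s.Ω), av X L' t j ω = avg t (fun n => s.pr L n ω) := by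
    intro t ω
    simp only [av, Walsh.pr, Sys.pr, hL', List.map_map]
    rfl
  show _ = s.E (fun ω => (av X L' (box M S) j ω - av X L' (box M' S') j ω) ^ 2)
  congr 1
  funext ω
  rw [e, e]

end Walsh
end MP_e326dc_an
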