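import Mathlib
import Pool.Agent.Lib.MP_e326dc_an.Defs
import Pool.Agent.Lib.MP_e326dc_an.Walsh.WDefs
import Pool.Agent.Lib.MP_e326dc_an.Walsh.W1
import Pool.Agent.Lib.MP_e326dc_an.Walsh.W10
import Pool.Agent.Lib.MP_e326dc_an.Walsh.W12

/-!
# MP_e326dc_an, part A, module W11 : complex functions
-/

open Filter Topology MeasureTheory
open scoped ComplexConjugate

namespace MP_e326dc_an
namespace Walsh

/-! ### the algebra `CA` and the functional `EC` -/

theorem w11_CA_add (s : Sys) {f g : s.Ω → ℂ} (hf : f ∈ s.CA) (hg : g ∈ s.CA) :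
    (fun ω => f ω + g ω) ∈ s.CA :=
  ⟨s.add_mem _ hf.1 _ hg.1, s.add_mem _ hf.2 _ hg.2⟩

theorem w11_CA_sub (s : Sys) {f g : s.Ω → ℂ} (hf : f ∈ s.CA) (hg : g ∈ s.CA) :
    (fun ω => f ω - g ω) ∈ s.CA :=
  ⟨s.sub_mem hf.1 hg.1, s.sub_mem hf.2 hg.2⟩

theorem w11_CA_smul (s : Sys) (c : ℂ) {f : s.Ω → ℂ} (hf : f ∈ s.CA) : (fun ω => c * f ω) ∈ s.CA :=
  w12_CA_mul s (w12_CA_const s c) hf

theorem w11_CA_sum (s : Sys) {α : Type} (t : Finset α) (f : α → s.Ω → ℂ) (hf : ∀ a ∈ t, f a ∈ s.CA) :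
    (fun ω => ∑ a ∈ t, f a ω) ∈ s.CA := by
  refine ⟨?_, ?_⟩
  · have h := s.sum_mem t (fun a ω => (f a ω).re) fun a ha => (hf a ha).1
    simpa only [Complex.re_sum] using h
  · have h := s.sum_mem t (fun a ω => (f a ω).im) fun a ha => (hf a ha).2
    simpa only [Complex.im_sum] using h

theorem w11_CA_avg (s : Sys) {α : Type} (t : Finset α) (f : α → s.Ω → ℂ) (hf : ∀ a ∈ t, f a ∈ s.CA) :
    (fun ω => avg t fun a => f a ω) ∈ s.CA := by
  have h := w11_CA_smul s ((t.card : ℝ)⁻¹ : ℝ) (w11_CA_sum s t f hf)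
  have e : (fun ω => avg t fun a => f a ω) = fun ω => (((t.card : ℝ)⁻¹ : ℝ) : ℂ) * ∑ a ∈ t, f a ω := by
    funext ω
    rw [avg, Complex.real_smul]
  rw [e]
  exact h

theorem Sys.EC_add (s : Sys) {f g : s.Ω → ℂ} (hf : f ∈ s.CA) (hg : g ∈ s.CA) :
    s.EC (fun ω => f ω + g ω) = s.EC f + s.EC g := by
  simp only [Sys.EC, Complex.add_re, Complex.add_im]
  rw [s.E_add _ hf.1 _ hg.1, s.E_add _ hf.2 _ hg.2]
  push_cast
  ring

theorem Sys.EC_smul (s : Sys) (c : ℂ) {f : s.Ω → ℂ} (hf : f ∈ s.CA) :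
    s.EC (fun ω => c * f ω) = c * s.EC f := by
  have h1 : s.E (fun ω => (c * f ω).re) = c.re * s.E (fun ω => (f ω).re) - c.im * s.E (fun ω => (f ω).im) := by
    rw [← s.E_smul _ _ hf.1, ← s.E_smul _ _ hf.2, ← s.E_sub (s.smul_mem _ hf.1) (s.smul_mem _ hf.2)]
    congr 1
  have h2 : s.E (fun ω => (c * f ω).im) = c.re * s.E (fun ω => (f ω).im) + c.im * s.E (fun ω => (f ω).re) := by
    rw [← s.E_smul _ _ hf.1, ← s.E_smul _ _ hf.2, ← s.E_add _ (s.smul_mem _ hf.2) _ (s.smul_mem _ hf.1)]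
    congr 1
  simp only [Sys.EC]
  rw [h1, h2]
  apply Complex.ext
  · simp
  · simp

theorem w11_EC_zero (s : Sys) : s.EC (fun _ => 0) = 0 := by
  have h := s.E_const 0
  simp [Sys.EC, h]

theorem w11_EC_sum (s : Sys) {α : Type} (t : Finset α) (f : α → s.Ω → ℂ) (hf : ∀ a ∈ t, f a ∈ s.CA) :
    s.EC (fun ω => ∑ a ∈ t, f a ω) = ∑ a ∈ t, s.EC (f a) := by
  classical
  induction t using Finset.induction_on with
  | empty => simpa using w11_EC_zero s
  | insert a t ha ih =>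
    have h1 := s.EC_add (hf a (Finset.mem_insert_self a t))
      (w11_CA_sum s t f fun b hb => hf b (Finset.mem_insert_of_mem hb))
    simp only [Finset.sum_insert ha]
    rw [h1, ih fun b hb => hf b (Finset.mem_insert_of_mem hb)]

theorem w11_EC_avg (s : Sys) {α : Type} (t : Finset α) (f : α → s.Ω → ℂ) (hf : ∀ a ∈ t, f a ∈ s.CA) :
    s.EC (fun ω => avg t fun a => f a ω) = avg t fun a => s.EC (f a) := by
  have h := s.EC_smul ((t.card : ℝ)⁻¹ : ℝ) (w11_CA_sum s t f hf)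
  rw [w11_EC_sum s t f hf] at h
  simp only [avg, Complex.real_smul]
  exact h

theorem w11_normsq (z : ℂ) : ‖z‖ ^ 2 = z.re ^ 2 + z.im ^ 2 := by
  rw [← Complex.normSq_eq_norm_sq, Complex.normSq_apply]
  ring

theorem w11_normsq_mem (s : Sys) {f : s.Ω → ℂ} (hf : f ∈ s.CA) : (fun ω => ‖f ω‖ ^ 2) ∈ s.A := by
  simp only [w11_normsq]
  exact s.add_mem _ (s.sq_mem hf.1) _ (s.sq_mem hf.2)

theorem w11_E_sq_le (s : Sys) {f : s.Ω → ℝ} (hf : f ∈ s.A) : (s.E f) ^ 2 ≤ s.E fun ω => f ω ^ 2 := by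
  have h := s.cs hf (s.const_mem 1)
  have h1 := s.E_const (1 ^ 2)
  simp only [mul_one] at h
  rw [h1] at h
  simpa using h

theorem Sys.norm_EC_sq_le (s : Sys) {f : s.Ω → ℂ} (hf : f ∈ s.CA) :
    ‖s.EC f‖ ^ 2 ≤ s.E fun ω => ‖f ω‖ ^ 2 := by
  have h1 := w11_E_sq_le s hf.1
  have h2 := w11_E_sq_le s hf.2
  simp only [w11_normsq]
  rw [s.E_add _ (s.sq_mem hf.1) _ (s.sq_mem hf.2)]
  have e1 : (s.EC f).re = s.E fun ω => (f ω).re := by simp [Sys.EC]
  have e2 : (s.EC f).im = s.E fun ω => (f ω).im := by simp [Sys.EC]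
  rw [e1, e2]
  exact add_le_add h1 h2

variable {ι : Type} [Fintype ι] [DecidableEq ι]

/-- box averages are Cauchy in mean square -/
def w11_MC (s : Sys) (h : (ι → ℤ) → s.Ω → ℂ) : Prop :=
  ∀ ε : ℝ, 0 < ε → ∃ N : ℕ, ∀ (M M' : ι → ℤ) (S S' : ι → ℕ), (∀ i, N ≤ S i) → (∀ i, N ≤ S' i) →
    s.E (fun ω => ‖avg (box M S) (fun n => h n ω) - avg (box M' S') (fun n => h n ω)‖ ^ 2) ≤ ε

theorem w11_avg_add {α E : Type*} [AddCommGroup E] [Module ℝ E] (s : Finset α) (f g : α → E) :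
    avg s (fun a => f a + g a) = avg s f + avg s g := by
  simp only [avg, Finset.sum_add_distrib, smul_add]

theorem w11_avg_mul {α : Type*} (s : Finset α) (c : ℂ) (f : α → ℂ) :
    avg s (fun a => c * f a) = c * avg s f := by
  simp only [avg, ← Finset.mul_sum, Complex.real_smul]
  ring

theorem w11_diff_mem (s : Sys) {h : (ι → ℤ) → s.Ω → ℂ} (hh : ∀ n, h n ∈ s.CA) (t t' : Finset (ι → ℤ)) :
    (fun ω => avg t (fun n => h n ω) - avg t' (fun n => h n ω)) ∈ s.CA :=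
  w11_CA_sub s (w11_CA_avg s t h fun n _ => hh n) (w11_CA_avg s t' h fun n _ => hh n)

theorem w11_MC_add {s : Sys} {h k : (ι → ℤ) → s.Ω → ℂ} (hh : ∀ n, h n ∈ s.CA) (hk : ∀ n, k n ∈ s.CA)
    (mh : w11_MC s h) (mk : w11_MC s k) : w11_MC s fun n ω => h n ω + k n ω := by
  intro ε hε
  obtain ⟨N, hN⟩ := mh (ε / 4) (by positivity)
  obtain ⟨N', hN'⟩ := mk (ε / 4) (by positivity)
  refine ⟨max N N', fun M M' S S' hS hS' => ?_⟩
  have h1 := hN M M' S S' (fun i => (le_max_left _ _).trans (hS i)) fun i => (le_max_left _ _).trans (hS' i)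
  have h2 := hN' M M' S S' (fun i => (le_max_right _ _).trans (hS i)) fun i => (le_max_right _ _).trans (hS' i)
  have m1 := w11_normsq_mem s (w11_diff_mem s hh (box M S) (box M' S'))
  have m2 := w11_normsq_mem s (w11_diff_mem s hk (box M S) (box M' S'))
  have m3 := w11_normsq_mem s (w11_diff_mem s (fun n => w11_CA_add s (hh n) (hk n)) (box M S) (box M' S'))
  have key : s.E (fun ω => ‖avg (box M S) (fun n => h n ω + k n ω) -
        avg (box M' S') (fun n => h n ω + k n ω)‖ ^ 2) ≤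
      s.E (fun ω => 2 * ‖avg (box M S) (fun n => h n ω) - avg (box M' S') (fun n => h n ω)‖ ^ 2 +
        2 * ‖avg (box M S) (fun n => k n ω) - avg (box M' S') (fun n => k n ω)‖ ^ 2) := by
    refine s.E_mono m3 (s.add_mem _ (s.smul_mem 2 m1) _ (s.smul_mem 2 m2)) fun ω => ?_
    rw [w11_avg_add, w11_avg_add]
    set a := avg (box M S) (fun n => h n ω)
    set b := avg (box M' S') (fun n => h n ω)
    set c := avg (box M S) (fun n => k n ω)
    set d := avg (box M' S') (fun n => k n ω)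
    have e : a + c - (b + d) = (a - b) + (c - d) := by ring
    rw [e]
    have h3 := norm_add_le (a - b) (c - d)
    have h4 : ‖(a - b) + (c - d)‖ ^ 2 ≤ (‖a - b‖ + ‖c - d‖) ^ 2 := pow_le_pow_left₀ (norm_nonneg _) h3 2
    nlinarith [sq_nonneg (‖a - b‖ - ‖c - d‖)]
  rw [s.E_add _ (s.smul_mem 2 m1) _ (s.smul_mem 2 m2), s.E_smul 2 _ m1, s.E_smul 2 _ m2] at key
  linarith

theorem w11_MC_mul {s : Sys} {h : (ι → ℤ) → s.Ω → ℂ} (hh : ∀ n, h n ∈ s.CA) (mh : w11_MC s h) (c : ℂ) :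
    w11_MC s fun n ω => c * h n ω := by
  intro ε hε
  obtain ⟨N, hN⟩ := mh (ε / (‖c‖ ^ 2 + 1)) (by positivity)
  refine ⟨N, fun M M' S S' hS hS' => ?_⟩
  have h1 := hN M M' S S' hS hS'
  have e : (fun ω => ‖avg (box M S) (fun n => c * h n ω) - avg (box M' S') (fun n => c * h n ω)‖ ^ 2) =
      fun ω => ‖c‖ ^ 2 * ‖avg (box M S) (fun n => h n ω) - avg (box M' S') (fun n => h n ω)‖ ^ 2 := by
    funext ω
    rw [w11_avg_mul, w11_avg_mul, ← mul_sub, norm_mul, mul_pow]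
  rw [e, s.E_smul _ _ (w11_normsq_mem s (w11_diff_mem s hh (box M S) (box M' S')))]
  have h2 : ‖c‖ ^ 2 * (ε / (‖c‖ ^ 2 + 1)) ≤ ε := by
    rw [mul_div_assoc', div_le_iff₀ (by positivity)]
    nlinarith
  exact (mul_le_mul_of_nonneg_left h1 (by positivity)).trans h2

theorem w11_pr_real_mem (s : Sys) {A : Type} (R : List ((A → s.G) × (s.Ω → ℝ))) (hR : ∀ x ∈ R, x.2 ∈ s.A)
    (n : A) : s.pr R n ∈ s.A := by
  induction R with
  | nil => exact s.const_mem 1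
  | cons x R ih =>
    have h := s.mul_mem _ (s.comp_mem _ (hR x List.mem_cons_self) (x.1 n)) _
      (ih fun y hy => hR y (List.mem_cons_of_mem _ hy))
    have e : s.pr (x :: R) n = fun ω => x.2 (s.act (x.1 n) ω) * s.pr R n ω := by
      funext ω
      simp [Sys.pr]
    rw [e]
    exact h

theorem w11_main (s : Sys) (D : ℕ) (L : List (((ι → ℤ) → s.G) × (s.Ω → ℂ))) (hL : s.CL D L) :
    ∀ (R : List (((ι → ℤ) → s.G) × (s.Ω → ℝ))) (_ : ∀ x ∈ R, PolyLE D x.1 ∧ x.2 ∈ s.A),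
      w11_MC s fun n ω => ((s.pr R n ω : ℝ) : ℂ) * s.pr L n ω := by
  induction L with
  | nil =>
    intro R hR ε hε
    obtain ⟨N, hN⟩ := walsh_sys s D R hR ε hε
    refine ⟨N, fun M M' S S' hS hS' => ?_⟩
    have h1 := hN M M' S S' hS hS'
    refine le_trans (le_of_eq ?_) h1
    congr 1
    funext ω
    have e : ∀ t : Finset (ι → ℤ), avg t (fun n => ((s.pr R n ω : ℝ) : ℂ) *
        s.pr ([] : List (((ι → ℤ) → s.G) × (s.Ω → ℂ))) n ω) = ((avg t (fun n => s.pr R n ω) : ℝ) : ℂ) := by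
      intro t
      simp [avg, Sys.pr]
    rw [e, e, ← Complex.ofReal_sub, Complex.norm_real, Real.norm_eq_abs, sq_abs]
  | cons x L ih =>
    intro R hR
    have hL' : s.CL D L := fun y hy => hL y (List.mem_cons_of_mem _ hy)
    obtain ⟨hp, hre0, him0⟩ := hL x List.mem_cons_self
    have hre : ∀ y ∈ (x.1, fun ω => (x.2 ω).re) :: R, PolyLE D y.1 ∧ y.2 ∈ s.A := by
      intro y hy
      rcases List.mem_cons.1 hy with rfl | hy
      · exact ⟨hp, hre0⟩
      · exact hR y hy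
    have him : ∀ y ∈ (x.1, fun ω => (x.2 ω).im) :: R, PolyLE D y.1 ∧ y.2 ∈ s.A := by
      intro y hy
      rcases List.mem_cons.1 hy with rfl | hy
      · exact ⟨hp, him0⟩
      · exact hR y hy
    have b : ∀ R' : List (((ι → ℤ) → s.G) × (s.Ω → ℝ)), (∀ y ∈ R', PolyLE D y.1 ∧ y.2 ∈ s.A) → ∀ n,
        (fun ω => ((s.pr R' n ω : ℝ) : ℂ) * s.pr L n ω) ∈ s.CA := by
      intro R' hR' n
      refine w12_CA_mul s ⟨?_, ?_⟩ (w12_pr_mem s L (fun y hy => (hL' y hy).2) n)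
      · simpa using w11_pr_real_mem s R' (fun y hy => (hR' y hy).2) n
      · simpa using s.const_mem 0
    have h1 := ih hL' _ hre
    have h2 := w11_MC_mul (b _ him) (ih hL' _ him) Complex.I
    have h3 := w11_MC_add (b _ hre) (fun n => w11_CA_smul s Complex.I (b _ him n)) h1 h2
    have e : (fun (n : ι → ℤ) ω => ((s.pr R n ω : ℝ) : ℂ) * s.pr (x :: L) n ω) = fun n ω =>
        ((s.pr ((x.1, fun ω => (x.2 ω).re) :: R) n ω : ℝ) : ℂ) * s.pr L n ω +
          Complex.I * (((s.pr ((x.1, fun ω => (x.2 ω).im) :: R) n ω : ℝ) : ℂ) * s.pr L n ω) := by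
      funext n ω
      have e1 : s.pr (x :: L) n ω = x.2 (s.act (x.1 n) ω) * s.pr L n ω := by simp [Sys.pr]
      have e2 : s.pr ((x.1, fun ω => (x.2 ω).re) :: R) n ω = (x.2 (s.act (x.1 n) ω)).re * s.pr R n ω := by
        simp [Sys.pr]
      have e3 : s.pr ((x.1, fun ω => (x.2 ω).im) :: R) n ω = (x.2 (s.act (x.1 n) ω)).im * s.pr R n ω := by
        simp [Sys.pr]
      rw [e1, e2, e3]
      push_cast
      conv_lhs => rw [← Complex.re_add_im (x.2 (s.act (x.1 n) ω))]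
      ring
    rw [e]
    exact h3

theorem walsh_complex (s : Sys) (D : ℕ) (L : List (((ι → ℤ) → s.G) × (s.Ω → ℂ))) (hL : s.CL D L) :
    ∀ ε : ℝ, 0 < ε → ∃ N : ℕ, ∀ (M M' : ι → ℤ) (S S' : ι → ℕ), (∀ i, N ≤ S i) → (∀ i, N ≤ S' i) →
      s.E (fun ω => ‖avg (box M S) (fun n => s.pr L n ω) - avg (box M' S') (fun n => s.pr L n ω)‖ ^ 2) ≤ ε := by
  have h := w11_main s D L hL [] (by simp)
  have e : (fun (n : ι → ℤ) ω => ((s.pr ([] : List (((ι → ℤ) → s.G) × (s.Ω → ℝ))) n ω : ℝ) : ℂ) * s.pr L n ω) =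
      fun n ω => s.pr L n ω := by
    funext n ω; simp [Sys.pr]
  rw [e] at h
  exact h

theorem walsh_int (φ : (ι → ℤ) → ℂ) (h : CorrM (ι → ℤ) φ) : UCauchy φ := by
  obtain ⟨s, D, L, hL, hφ⟩ := h
  intro ε hε
  obtain ⟨N, hN⟩ := walsh_complex s D L hL (ε ^ 2) (by positivity)
  refine ⟨N, fun M M' S S' hS hS' => ?_⟩
  have h1 := hN M M' S S' hS hS'
  have hmem : ∀ n, s.pr L n ∈ s.CA := fun n => w12_pr_mem s L (fun y hy => (hL y hy).2) n
  have ea : ∀ t : Finset (ι → ℤ), avg t φ = s.EC (fun ω => avg t fun n => s.pr L n ω) := by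
    intro t
    rw [w11_EC_avg s t _ fun n _ => hmem n]
    congr 1
    funext n
    exact hφ n
  have e2 : avg (box M S) φ - avg (box M' S') φ =
      s.EC (fun ω => avg (box M S) (fun n => s.pr L n ω) - avg (box M' S') (fun n => s.pr L n ω)) := by
    have m1 := w11_CA_avg s (box M S) (fun n => s.pr L n) fun n _ => hmem n
    have m2 := w11_CA_avg s (box M' S') (fun n => s.pr L n) fun n _ => hmem n
    have h3 := s.EC_add m1 (w11_CA_smul s (-1) m2)
    rw [s.EC_smul (-1) m2] at h3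
    rw [ea, ea]
    have e3 : (fun ω => avg (box M S) (fun n => s.pr L n ω) - avg (box M' S') (fun n => s.pr L n ω)) =
        fun ω => avg (box M S) (fun n => s.pr L n ω) + (-1) * avg (box M' S') (fun n => s.pr L n ω) := by
      funext ω
      ring
    rw [e3, h3]
    ring
  rw [e2]
  have h4 := (s.norm_EC_sq_le (w11_diff_mem s hmem (box M S) (box M' S'))).trans h1
  exact (pow_le_pow_iff_left₀ (norm_nonneg _) hε.le two_ne_zero).1 h4

end Walsh
end MP_e326dc_an
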