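import Mathlib
import Pool.Agent.Lib.MP_e326dc_an.Defs
import Pool.Agent.Lib.MP_e326dc_an.Walsh.WDefs
import Pool.Agent.Lib.MP_e326dc_an.Walsh.W11
import Pool.Agent.Lib.MP_e326dc_an.Walsh.W12

/-!
# MP_e326dc_an, part A, module W13 : cube averages of multicorrelations converge
-/

open Filter Topology MeasureTheory
open scoped ComplexConjugate

namespace MP_e326dc_an
namespace Walsh

theorem CorrM.prod {A : Type} [AddCommGroup A] {α : Type} (t : Finset α) (φ : α → A → ℂ)
    (h : ∀ a ∈ t, CorrM A (φ a)) : CorrM A fun n => ∏ a ∈ t, φ a n := by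
  classical
  induction t using Finset.induction_on with
  | empty => simpa using CorrM.const (A := A) 1
  | insert a t ha ih =>
    have h1 := (h a (Finset.mem_insert_self a t)).mul (ih fun b hb => h b (Finset.mem_insert_of_mem hb))
    have e : (fun n => φ a n * ∏ x ∈ t, φ x n) = fun n => ∏ x ∈ insert a t, φ x n := by
      funext n; rw [Finset.prod_insert ha]
    rw [← e]; exact h1

/-- the linear form `v ↦ v none + ∑_{i ∈ S} v (some i)` -/
def w13_form {κ : Type} (S : Finset κ) : (Option κ → ℤ) →+ ℤ where
  toFun v := expo (v none) (fun i => v (some i)) S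
  map_zero' := by simp [expo]
  map_add' v w := by
    simp only [expo, Pi.add_apply, Finset.sum_add_distrib]
    ring

theorem w13_lift {κ : Type} (S : Finset κ) {φ : ℤ → ℂ} (hφ : Corr φ) :
    CorrM (Option κ → ℤ) fun v => φ (expo (v none) (fun i => v (some i)) S) := by
  have h := CorrM.comp hφ (w13_form S) 0
  simp only [add_zero] at h
  exact h

/-- cube averages of multicorrelations converge -/
theorem Corr.conv (κ : Type) [Fintype κ] [DecidableEq κ] (φ : Finset κ → ℤ → ℂ) (h : ∀ S, Corr (φ S)) :
    UCauchy (fun v : Option κ → ℤ => ∏ S : Finset κ, φ S (expo (v none) (fun i => v (some i)) S)) :=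
  walsh_int _ (CorrM.prod Finset.univ (fun (S : Finset κ) (v : Option κ → ℤ) =>
    φ S (expo (v none) (fun i => v (some i)) S)) fun S _ => w13_lift S (h S))

end Walsh
end MP_e326dc_an
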