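import Mathlib
import Pool.Agent.Lib.MP_e326dc_an.Defs
import Pool.Agent.Lib.MP_e326dc_an.Walsh.WDefs
import Pool.Agent.Lib.MP_e326dc_an.Walsh.W12
import Pool.Agent.Lib.MP_e326dc_an.Walsh.W13

/-!
# MP_e326dc_an, NIL module W14 (TAME) : the algebra of tame sequences
-/

open Filter Topology MeasureTheory
open scoped ComplexConjugate

namespace MP_e326dc_an
namespace Walsh

/-! ### averages -/

theorem w14_avg_add {α E : Type*} [AddCommGroup E] [Module ℝ E] (s : Finset α) (f g : α → E) :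
    avg s (fun a => f a + g a) = avg s f + avg s g := by
  simp only [avg, Finset.sum_add_distrib, smul_add]

theorem w14_avg_sub {α E : Type*} [AddCommGroup E] [Module ℝ E] (s : Finset α) (f g : α → E) :
    avg s (fun a => f a - g a) = avg s f - avg s g := by
  simp only [avg, Finset.sum_sub_distrib, smul_sub]

theorem w14_norm_avg_le {α E : Type*} [SeminormedAddCommGroup E] [NormedSpace ℝ E] (s : Finset α) (f : α → E) :
    ‖avg s f‖ ≤ avg s (fun a => ‖f a‖) := by
  simp only [avg, smul_eq_mul]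
  rw [norm_smul]
  have h : ‖((s.card : ℝ)⁻¹)‖ = (s.card : ℝ)⁻¹ := by
    rw [Real.norm_eq_abs, abs_of_nonneg (by positivity)]
  rw [h]
  exact mul_le_mul_of_nonneg_left (norm_sum_le _ _) (by positivity)

theorem w14_avg_mono {α : Type*} (s : Finset α) (f g : α → ℝ) (h : ∀ a ∈ s, f a ≤ g a) :
    avg s f ≤ avg s g := by
  simp only [avg, smul_eq_mul]
  exact mul_le_mul_of_nonneg_left (Finset.sum_le_sum h) (by positivity)

theorem w14_avg_nonneg {α : Type*} (s : Finset α) (f : α → ℝ) (h : ∀ a ∈ s, 0 ≤ f a) :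
    0 ≤ avg s f := by
  simp only [avg, smul_eq_mul]
  exact mul_nonneg (by positivity) (Finset.sum_nonneg h)

theorem w14_avg_le_of_le {α : Type*} (s : Finset α) (f : α → ℝ) {C : ℝ} (hC : 0 ≤ C)
    (h : ∀ a ∈ s, f a ≤ C) : avg s f ≤ C := by
  simp only [avg, smul_eq_mul]
  rcases s.eq_empty_or_nonempty with hs | hs
  · subst hs; simpa using hC
  · have hc : (0 : ℝ) < s.card := by exact_mod_cast hs.card_pos
    rw [inv_mul_le_iff₀ hc]
    calc ∑ a ∈ s, f a ≤ ∑ a ∈ s, C := Finset.sum_le_sum h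
      _ = s.card * C := by rw [Finset.sum_const, nsmul_eq_mul]

theorem w14_avg_mul_left {α : Type*} (s : Finset α) (c : ℝ) (f : α → ℝ) :
    avg s (fun a => c * f a) = c * avg s f := by
  simp only [avg, smul_eq_mul, ← Finset.mul_sum]; ring

theorem w14_norm_avg_le_of_le {α E : Type*} [SeminormedAddCommGroup E] [NormedSpace ℝ E] (s : Finset α)
    (f : α → E) {C : ℝ} (hC : 0 ≤ C) (h : ∀ a ∈ s, ‖f a‖ ≤ C) : ‖avg s f‖ ≤ C :=
  (w14_norm_avg_le s f).trans (w14_avg_le_of_le s _ hC h)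

/-! ### null sequences -/

theorem w14_null_iff {f : ℤ → ℂ} : Null f ↔
    ∀ ε : ℝ, 0 < ε → ∃ N : ℕ, ∀ (M : ℤ) (L : ℕ), N ≤ L → avg (win M L) (fun n => ‖f n‖) ≤ ε := by
  have key : ∀ (M : ℤ) (L : ℕ), ‖avg (win M L) (fun n => ‖f n‖) - 0‖ = avg (win M L) (fun n => ‖f n‖) := by
    intro M L
    rw [sub_zero, Real.norm_eq_abs, abs_of_nonneg (w14_avg_nonneg _ _ fun a _ => norm_nonneg _)]
  unfold Null WTendsto
  constructor
  · intro h ε hε
    obtain ⟨N, hN⟩ := h ε hε
    refine ⟨N, fun M L hL => ?_⟩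
    have := hN M L hL
    rwa [key] at this
  · intro h ε hε
    obtain ⟨N, hN⟩ := h ε hε
    refine ⟨N, fun M L hL => ?_⟩
    rw [key]
    exact hN M L hL

theorem w14_null_zero : Null (fun _ : ℤ => (0 : ℂ)) := by
  rw [w14_null_iff]
  intro ε hε
  refine ⟨0, fun M L _ => ?_⟩
  refine w14_avg_le_of_le _ _ hε.le fun a _ => ?_
  simpa using hε.le

theorem w14_null_of_le {f g : ℤ → ℂ} (hg : Null g) {C : ℝ} (hC : 0 ≤ C) (h : ∀ n, ‖f n‖ ≤ C * ‖g n‖) :
    Null f := by
  rw [w14_null_iff] at *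
  intro ε hε
  obtain ⟨N, hN⟩ := hg (ε / (C + 1)) (by positivity)
  refine ⟨N, fun M L hL => ?_⟩
  calc avg (win M L) (fun n => ‖f n‖) ≤ avg (win M L) (fun n => C * ‖g n‖) :=
        w14_avg_mono _ _ _ fun a _ => h a
    _ = C * avg (win M L) (fun n => ‖g n‖) := w14_avg_mul_left _ _ _
    _ ≤ C * (ε / (C + 1)) := mul_le_mul_of_nonneg_left (hN M L hL) hC
    _ ≤ (C + 1) * (ε / (C + 1)) := mul_le_mul_of_nonneg_right (by linarith) (by positivity)
    _ = ε := by field_simp

theorem w14_null_add {f g : ℤ → ℂ} (hf : Null f) (hg : Null g) : Null (fun n => f n + g n) := by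
  rw [w14_null_iff] at *
  intro ε hε
  obtain ⟨N, hN⟩ := hf (ε / 2) (by positivity)
  obtain ⟨N', hN'⟩ := hg (ε / 2) (by positivity)
  refine ⟨max N N', fun M L hL => ?_⟩
  calc avg (win M L) (fun n => ‖f n + g n‖) ≤ avg (win M L) (fun n => ‖f n‖ + ‖g n‖) :=
        w14_avg_mono _ _ _ fun a _ => norm_add_le _ _
    _ = avg (win M L) (fun n => ‖f n‖) + avg (win M L) (fun n => ‖g n‖) := w14_avg_add _ _ _
    _ ≤ ε / 2 + ε / 2 := add_le_add (hN M L (le_trans (le_max_left _ _) hL))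
        (hN' M L (le_trans (le_max_right _ _) hL))
    _ = ε := by ring

/-- averages over translated windows -/
theorem w14_avg_win_shift {E : Type*} [AddCommGroup E] [Module ℝ E] (M : ℤ) (L : ℕ) (k : ℤ) (f : ℤ → E) :
    avg (win M L) (fun n => f (n + k)) = avg (win (M + k) L) f := by
  have hs : ∑ n ∈ win M L, f (n + k) = ∑ n ∈ win (M + k) L, f n := by
    refine Finset.sum_bij' (fun n _ => n + k) (fun n _ => n - k) ?_ ?_ ?_ ?_ ?_
    · intro n hn; simp only [win, Finset.mem_Ico] at *; omega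
    · intro n hn; simp only [win, Finset.mem_Ico] at *; omega
    · intro n _; ring
    · intro n _; ring
    · intro n _; rfl
  have hc : (win M L).card = (win (M + k) L).card := by simp [win]
  simp only [avg, hs, hc]

theorem w14_null_shift {f : ℤ → ℂ} (hf : Null f) (k : ℤ) : Null (fun n => f (n + k)) := by
  rw [w14_null_iff] at *
  intro ε hε
  obtain ⟨N, hN⟩ := hf ε hε
  refine ⟨N, fun M L hL => ?_⟩
  rw [w14_avg_win_shift M L k (fun n => ‖f n‖)]
  exact hN _ L hL

/-! ### UCauchy -/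

section ucauchy
variable {κ : Type} [Fintype κ] [DecidableEq κ]

theorem w14_uc_approx {f : (κ → ℤ) → ℂ}
    (h : ∀ ε : ℝ, 0 < ε → ∃ g : (κ → ℤ) → ℂ, UCauchy g ∧ ∀ v, ‖f v - g v‖ ≤ ε) : UCauchy f := by
  intro ε hε
  obtain ⟨g, hg, hfg⟩ := h (ε / 3) (by positivity)
  obtain ⟨N, hN⟩ := hg (ε / 3) (by positivity)
  refine ⟨N, fun M M' L L' hL hL' => ?_⟩
  have h1 : ∀ (M : κ → ℤ) (L : κ → ℕ), ‖avg (box M L) f - avg (box M L) g‖ ≤ ε / 3 := by
    intro M L
    rw [← w14_avg_sub]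
    exact w14_norm_avg_le_of_le _ _ (by positivity) fun a _ => hfg a
  calc ‖avg (box M L) f - avg (box M' L') f‖
      = ‖(avg (box M L) f - avg (box M L) g) + (avg (box M L) g - avg (box M' L') g)
          - (avg (box M' L') f - avg (box M' L') g)‖ := by congr 1; ring
    _ ≤ ‖(avg (box M L) f - avg (box M L) g) + (avg (box M L) g - avg (box M' L') g)‖
          + ‖avg (box M' L') f - avg (box M' L') g‖ := norm_sub_le _ _
    _ ≤ ‖avg (box M L) f - avg (box M L) g‖ + ‖avg (box M L) g - avg (box M' L') g‖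
          + ‖avg (box M' L') f - avg (box M' L') g‖ := by gcongr; exact norm_add_le _ _
    _ ≤ ε / 3 + ε / 3 + ε / 3 := by
        gcongr
        · exact h1 M L
        · exact hN M M' L L' hL hL'
        · exact h1 M' L'
    _ = ε := by ring

theorem w14_uc_add {f g : (κ → ℤ) → ℂ} (hf : UCauchy f) (hg : UCauchy g) :
    UCauchy (fun v => f v + g v) := by
  intro ε hε
  obtain ⟨N, hN⟩ := hf (ε / 2) (by positivity)
  obtain ⟨N', hN'⟩ := hg (ε / 2) (by positivity)
  refine ⟨max N N', fun M M' L L' hL hL' => ?_⟩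
  have e : avg (box M L) (fun v => f v + g v) - avg (box M' L') (fun v => f v + g v)
      = (avg (box M L) f - avg (box M' L') f) + (avg (box M L) g - avg (box M' L') g) := by
    rw [w14_avg_add, w14_avg_add]; ring
  rw [e]
  calc _ ≤ ‖avg (box M L) f - avg (box M' L') f‖ + ‖avg (box M L) g - avg (box M' L') g‖ := norm_add_le _ _
    _ ≤ ε / 2 + ε / 2 := add_le_add
        (hN M M' L L' (fun i => (le_max_left _ _).trans (hL i)) (fun i => (le_max_left _ _).trans (hL' i)))
        (hN' M M' L L' (fun i => (le_max_right _ _).trans (hL i)) (fun i => (le_max_right _ _).trans (hL' i)))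
    _ = ε := by ring

theorem w14_uc_of_tendsto {f : (κ → ℤ) → ℂ} {a : ℂ} (hf : UTendsto f a) : UCauchy f := by
  intro ε hε
  obtain ⟨N, hN⟩ := hf (ε / 2) (by positivity)
  refine ⟨N, fun M M' L L' hL hL' => ?_⟩
  calc ‖avg (box M L) f - avg (box M' L') f‖
      = ‖(avg (box M L) f - a) - (avg (box M' L') f - a)‖ := by congr 1; ring
    _ ≤ ‖avg (box M L) f - a‖ + ‖avg (box M' L') f - a‖ := norm_sub_le _ _
    _ ≤ ε / 2 + ε / 2 := add_le_add (hN M L hL) (hN M' L' hL')
    _ = ε := by ring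

theorem w14_uc_zero : UCauchy (fun _ : κ → ℤ => (0 : ℂ)) := by
  intro ε hε
  refine ⟨0, fun M M' L L' _ _ => ?_⟩
  simp [avg, hε.le]

end ucauchy

/-- sums over boxes with one more direction -/
theorem w14_sum_box_option {ι : Type} [Fintype ι] [DecidableEq ι] {E : Type*} [AddCommMonoid E]
    (M : Option ι → ℤ) (L : Option ι → ℕ) (F : (Option ι → ℤ) → E) :
    ∑ v ∈ box M L, F v = ∑ h ∈ box (fun i => M (some i)) (fun i => L (some i)),
      ∑ n ∈ win (M none) (L none), F (fun o => o.elim n h) := by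
  rw [← Finset.sum_product']
  refine Finset.sum_bij' (fun v _ => ((fun i => v (some i)), v none)) (fun p _ => fun o => o.elim p.2 p.1)
    ?_ ?_ ?_ ?_ ?_
  · intro v hv
    simp only [box, win, Fintype.mem_piFinset, Finset.mem_product] at *
    exact ⟨fun i => hv (some i), hv none⟩
  · rintro ⟨h, n⟩ hp
    simp only [box, win, Fintype.mem_piFinset, Finset.mem_product] at *
    intro o
    cases o with
    | none => exact hp.2
    | some i => exact hp.1 i
  · intro v _
    funext o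
    cases o <;> rfl
  · rintro ⟨h, n⟩ _
    rfl
  · intro v _
    congr 1
    funext o
    cases o <;> rfl

theorem w14_card_box_option {ι : Type} [Fintype ι] [DecidableEq ι]
    (M : Option ι → ℤ) (L : Option ι → ℕ) :
    (box M L).card = (box (fun i => M (some i)) (fun i => L (some i))).card * (win (M none) (L none)).card := by
  have h := w14_sum_box_option M L (fun _ => (1 : ℕ))
  simpa using h

theorem w14_avg_box_option {ι : Type} [Fintype ι] [DecidableEq ι]
    (M : Option ι → ℤ) (L : Option ι → ℕ) (F : (Option ι → ℤ) → ℝ) :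
    avg (box M L) F = avg (box (fun i => M (some i)) (fun i => L (some i))) (fun h =>
      avg (win (M none) (L none)) (fun n => F (fun o => o.elim n h))) := by
  simp only [avg, smul_eq_mul]
  rw [w14_sum_box_option, w14_card_box_option, ← Finset.mul_sum]
  push_cast
  rw [mul_inv]
  ring

/-- the average of a null sequence along the cubes -/
theorem w14_null_cube {ι : Type} [Fintype ι] [DecidableEq ι] {ν : ℤ → ℂ} (hν : Null ν) (S : Finset ι)
    (g : (Option ι → ℤ) → ℂ) {C : ℝ} (hC : 0 ≤ C)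
    (hg : ∀ v, ‖g v‖ ≤ C * ‖ν (expo (v none) (fun i => v (some i)) S)‖) : UCauchy g := by
  refine w14_uc_of_tendsto (a := 0) ?_
  rw [w14_null_iff] at hν
  intro ε hε
  obtain ⟨N, hN⟩ := hν (ε / (C + 1)) (by positivity)
  refine ⟨N, fun M L hL => ?_⟩
  rw [sub_zero]
  calc ‖avg (box M L) g‖ ≤ avg (box M L) (fun v => ‖g v‖) := w14_norm_avg_le _ _
    _ ≤ avg (box M L) (fun v => C * ‖ν (expo (v none) (fun i => v (some i)) S)‖) :=
        w14_avg_mono _ _ _ fun a _ => hg a
    _ = C * avg (box M L) (fun v => ‖ν (expo (v none) (fun i => v (some i)) S)‖) := w14_avg_mul_left _ _ _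
    _ ≤ C * (ε / (C + 1)) := by
        refine mul_le_mul_of_nonneg_left ?_ hC
        rw [w14_avg_box_option]
        refine w14_avg_le_of_le _ _ (by positivity) fun h _ => ?_
        have e : (fun n : ℤ => ‖ν (expo ((fun o : Option ι => o.elim n h) none)
            (fun i => (fun o : Option ι => o.elim n h) (some i)) S)‖) =
            fun n : ℤ => (fun m => ‖ν m‖) (n + ∑ i ∈ S, h i) := by
          funext n; simp [expo]
        rw [e, w14_avg_win_shift (M none) (L none) (∑ i ∈ S, h i) (fun m => ‖ν m‖)]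
        exact hN _ _ (hL none)
    _ ≤ (C + 1) * (ε / (C + 1)) := mul_le_mul_of_nonneg_right (by linarith) (by positivity)
    _ = ε := by field_simp


/-! ### pretame sequences -/

theorem PreTame.of_corr {φ : ℤ → ℂ} (h : Corr φ) : PreTame φ := by
  refine ⟨[φ], fun _ => 0, ?_, ⟨0, fun n => by simp⟩, w14_null_zero, fun n => by simp⟩
  intro ψ hψ
  rw [List.mem_singleton] at hψ
  rw [hψ]; exact h

theorem PreTame.of_null {φ : ℤ → ℂ} (hb : Bdd φ) (h : Null φ) : PreTame φ :=
  ⟨[], φ, by simp, hb, h, fun n => by simp⟩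

theorem PreTame.zero : PreTame (fun _ => 0) := PreTame.of_null ⟨0, fun n => by simp⟩ w14_null_zero

theorem w14_bdd_add {f g : ℤ → ℂ} (hf : Bdd f) (hg : Bdd g) : Bdd (fun n => f n + g n) := by
  obtain ⟨C, hC⟩ := hf
  obtain ⟨D, hD⟩ := hg
  exact ⟨C + D, fun n => (norm_add_le _ _).trans (add_le_add (hC n) (hD n))⟩

theorem w14_bdd_mul {f g : ℤ → ℂ} (hf : Bdd f) (hg : Bdd g) : Bdd (fun n => f n * g n) := by
  obtain ⟨C, hC⟩ := hf
  obtain ⟨D, hD⟩ := hg
  have hC0 : 0 ≤ C := (norm_nonneg _).trans (hC 0)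
  refine ⟨C * D, fun n => ?_⟩
  rw [norm_mul]
  exact mul_le_mul (hC n) (hD n) (norm_nonneg _) hC0

theorem PreTame.add {φ ψ : ℤ → ℂ} (hφ : PreTame φ) (hψ : PreTame ψ) : PreTame (fun n => φ n + ψ n) := by
  obtain ⟨T, ν, hT, hb, hn, he⟩ := hφ
  obtain ⟨T', ν', hT', hb', hn', he'⟩ := hψ
  refine ⟨T ++ T', fun n => ν n + ν' n, ?_, w14_bdd_add hb hb', w14_null_add hn hn', fun n => ?_⟩
  · intro χ hχ
    rw [List.mem_append] at hχ
    exact hχ.elim (hT χ) (hT' χ)
  · simp only [he, he', List.map_append, List.sum_append]; ring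

theorem PreTame.list_sum (T : List (ℤ → ℂ)) (h : ∀ ψ ∈ T, PreTame ψ) :
    PreTame (fun n => (T.map fun ψ => ψ n).sum) := by
  induction T with
  | nil => simpa using PreTame.zero
  | cons a T ih =>
    have h1 := (h a (by simp)).add (ih fun ψ hψ => h ψ (by simp [hψ]))
    simpa using h1

/-- induction principle for pretame sequences -/
theorem PreTame.ind {p : (ℤ → ℂ) → Prop} (hc : ∀ φ, Corr φ → p φ) (hn : ∀ φ, Bdd φ → Null φ → p φ)
    (ha : ∀ φ ψ, p φ → p ψ → p (fun n => φ n + ψ n)) {φ : ℤ → ℂ} (h : PreTame φ) : p φ := by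
  obtain ⟨T, ν, hT, hb, hnu, he⟩ := h
  have key : p (fun n => (T.map fun ψ => ψ n).sum + ν n) := by
    clear he
    induction T with
    | nil => simpa using hn ν hb hnu
    | cons a T ih =>
      have h1 := ha _ _ (hc a (hT a (by simp))) (ih fun ψ hψ => hT ψ (by simp [hψ]))
      simpa [add_assoc] using h1
  have e : φ = (fun n => (T.map fun ψ => ψ n).sum + ν n) := funext he
  rw [e]; exact key

theorem PreTame.bdd {φ : ℤ → ℂ} (h : PreTame φ) : Bdd φ :=
  PreTame.ind (fun _ h => CorrM.bdd h) (fun _ h _ => h) (fun _ _ h h' => w14_bdd_add h h') h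

theorem PreTame.mul {φ ψ : ℤ → ℂ} (hφ : PreTame φ) (hψ : PreTame ψ) : PreTame (fun n => φ n * ψ n) := by
  have nullmul : ∀ {f g : ℤ → ℂ}, Bdd f → Null f → Bdd g → PreTame (fun n => f n * g n) := by
    intro f g hf hn hg
    refine PreTame.of_null (w14_bdd_mul hf hg) ?_
    obtain ⟨D, hD⟩ := hg
    have hD0 : 0 ≤ D := (norm_nonneg _).trans (hD 0)
    refine w14_null_of_le hn hD0 fun n => ?_
    rw [norm_mul, mul_comm]
    exact mul_le_mul_of_nonneg_right (hD n) (norm_nonneg _)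
  refine PreTame.ind (p := fun φ => PreTame (fun n => φ n * ψ n)) ?_ ?_ ?_ hφ
  · intro φ hφ
    refine PreTame.ind (p := fun ψ => PreTame (fun n => φ n * ψ n)) ?_ ?_ ?_ hψ
    · intro ψ hψ; exact PreTame.of_corr (CorrM.mul hφ hψ)
    · intro ψ hb hn
      have h := nullmul hb hn hφ.bdd
      have e : (fun n => ψ n * φ n) = fun n => φ n * ψ n := by funext n; ring
      rwa [e] at h
    · intro a b ha hb
      have h := ha.add hb
      have e : (fun n => φ n * a n + φ n * b n) = fun n => φ n * (a n + b n) := by funext n; ring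
      rwa [e] at h
  · intro φ hb hn
    exact nullmul hb hn hψ.bdd
  · intro a b ha hb
    have h := ha.add hb
    have e : (fun n => a n * ψ n + b n * ψ n) = fun n => (a n + b n) * ψ n := by funext n; ring
    rwa [e] at h

theorem PreTame.conj {φ : ℤ → ℂ} (hφ : PreTame φ) : PreTame (fun n => conj (φ n)) := by
  refine PreTame.ind (p := fun φ => PreTame (fun n => (starRingEnd ℂ) (φ n))) ?_ ?_ ?_ hφ
  · intro φ hφ; exact PreTame.of_corr (CorrM.conj hφ)
  · intro φ hb hn
    refine PreTame.of_null ?_ ?_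
    · obtain ⟨C, hC⟩ := hb
      exact ⟨C, fun n => by rw [RCLike.norm_conj]; exact hC n⟩
    · exact w14_null_of_le hn zero_le_one fun n => by rw [RCLike.norm_conj, one_mul]
  · intro a b ha hb
    have h := ha.add hb
    have e : (fun n => (starRingEnd ℂ) (a n) + (starRingEnd ℂ) (b n)) =
        fun n => (starRingEnd ℂ) (a n + b n) := by funext n; rw [map_add]
    rwa [e] at h

theorem PreTame.shift {φ : ℤ → ℂ} (hφ : PreTame φ) (k : ℤ) : PreTame (fun n => φ (n + k)) := by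
  refine PreTame.ind (p := fun φ => PreTame (fun n => φ (n + k))) ?_ ?_ ?_ hφ
  · intro φ hφ; exact PreTame.of_corr (CorrM.comp hφ (AddMonoidHom.id ℤ) k)
  · intro φ hb hn
    refine PreTame.of_null ?_ (w14_null_shift hn k)
    obtain ⟨C, hC⟩ := hb
    exact ⟨C, fun n => hC _⟩
  · intro a b ha hb
    exact ha.add hb

/-! ### cube averages of pretame sequences -/

/-- the product over the vertices -/
theorem w14_pt_conv (ι : Type) [Fintype ι] [DecidableEq ι] (A : Finset (Finset ι)) :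
    ∀ φ : Finset ι → ℤ → ℂ, (∀ S, PreTame (φ S)) → (∀ S ∉ A, Corr (φ S)) →
    UCauchy (fun v : Option ι → ℤ => ∏ S : Finset ι, φ S (expo (v none) (fun i => v (some i)) S)) := by
  induction A using Finset.induction_on with
  | empty => intro φ _ h; exact Corr.conv ι φ fun S => h S (by simp)
  | insert S₀ A hS₀ ih =>
    intro φ hP hC
    have hup : ∀ ψ : ℤ → ℂ, (fun v : Option ι → ℤ => ∏ S : Finset ι,
        (Function.update φ S₀ ψ) S (expo (v none) (fun i => v (some i)) S)) =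
        fun v => ψ (expo (v none) (fun i => v (some i)) S₀) *
          ∏ S ∈ Finset.univ.erase S₀, φ S (expo (v none) (fun i => v (some i)) S) := by
      intro ψ
      funext v
      rw [← Finset.mul_prod_erase Finset.univ _ (Finset.mem_univ S₀), Function.update_self]
      congr 1
      refine Finset.prod_congr rfl fun S hS => ?_
      rw [Function.update_of_ne (Finset.ne_of_mem_erase hS)]
    have key : UCauchy (fun v : Option ι → ℤ => ∏ S : Finset ι,
        (Function.update φ S₀ (φ S₀)) S (expo (v none) (fun i => v (some i)) S)) := by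
      refine PreTame.ind (p := fun ψ => UCauchy (fun v : Option ι → ℤ => ∏ S : Finset ι,
        (Function.update φ S₀ ψ) S (expo (v none) (fun i => v (some i)) S))) ?_ ?_ ?_ (hP S₀)
      · intro ψ hψ
        refine ih (Function.update φ S₀ ψ) ?_ ?_
        · intro S
          by_cases h : S = S₀
          · subst h; rw [Function.update_self]; exact PreTame.of_corr hψ
          · rw [Function.update_of_ne h]; exact hP S
        · intro S hS
          by_cases h : S = S₀
          · subst h; rw [Function.update_self]; exact hψ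
          · rw [Function.update_of_ne h]; exact hC S (by simp [h, hS])
      · intro ν hb hn
        rw [hup]
        choose C hC' using fun S => (hP S).bdd
        have hC0 : ∀ S, 0 ≤ C S := fun S => (norm_nonneg _).trans (hC' S 0)
        refine w14_null_cube hn S₀ _ (C := ∏ S ∈ Finset.univ.erase S₀, C S)
          (Finset.prod_nonneg fun S _ => hC0 S) fun v => ?_
        rw [norm_mul, mul_comm, norm_prod]
        refine mul_le_mul_of_nonneg_right ?_ (norm_nonneg _)
        exact Finset.prod_le_prod (fun S _ => norm_nonneg _) fun S _ => hC' S _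
      · intro a b ha hb
        rw [hup] at ha hb ⊢
        have h := w14_uc_add ha hb
        refine cast (congrArg _ ?_) h
        funext v; ring
    rwa [Function.update_eq_self] at key

/-- products of bounded complex numbers -/
theorem w14_prod_approx {α : Type*} (s : Finset α) (f g : α → ℂ) {B δ : ℝ} (hB : 1 ≤ B) (hδ : 0 ≤ δ)
    (hf : ∀ a, ‖f a‖ ≤ B) (hg : ∀ a, ‖g a‖ ≤ B) (h : ∀ a, ‖f a - g a‖ ≤ δ) :
    ‖∏ a ∈ s, f a - ∏ a ∈ s, g a‖ ≤ s.card * B ^ s.card * δ := by
  classical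
  have hB0 : 0 ≤ B := zero_le_one.trans hB
  induction s using Finset.induction_on with
  | empty => simp
  | insert a s ha ih =>
    rw [Finset.prod_insert ha, Finset.prod_insert ha, Finset.card_insert_of_notMem ha]
    have e : f a * ∏ x ∈ s, f x - g a * ∏ x ∈ s, g x =
        f a * (∏ x ∈ s, f x - ∏ x ∈ s, g x) + (f a - g a) * ∏ x ∈ s, g x := by ring
    rw [e]
    have h1 : ‖∏ x ∈ s, g x‖ ≤ B ^ s.card := by
      rw [norm_prod]
      calc ∏ x ∈ s, ‖g x‖ ≤ ∏ x ∈ s, B := Finset.prod_le_prod (fun x _ => norm_nonneg _) fun x _ => hg x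
        _ = B ^ s.card := by rw [Finset.prod_const]
    have h2 : B ^ s.card ≤ B ^ (s.card + 1) := pow_le_pow_right₀ hB (Nat.le_succ _)
    calc _ ≤ ‖f a * (∏ x ∈ s, f x - ∏ x ∈ s, g x)‖ + ‖(f a - g a) * ∏ x ∈ s, g x‖ := norm_add_le _ _
      _ ≤ B * (s.card * B ^ s.card * δ) + δ * B ^ s.card := by
          rw [norm_mul, norm_mul]
          exact add_le_add (mul_le_mul (hf a) ih (norm_nonneg _) hB0)
            (mul_le_mul (h a) h1 (norm_nonneg _) hδ)
      _ ≤ B * (s.card * B ^ s.card * δ) + δ * B ^ (s.card + 1) := by gcongr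
      _ = ((s.card + 1 : ℕ) : ℝ) * B ^ (s.card + 1) * δ := by push_cast; ring

/-! ### tame sequences -/

theorem w14_mem_of_preTame {φ : ℤ → ℂ} (h : PreTame φ) : φ ∈ tameW := by
  intro ε hε
  exact ⟨φ, h, fun n => by simpa using hε.le⟩

theorem corr_mem_tameW {φ : ℤ → ℂ} (hφ : Corr φ) : φ ∈ tameW := w14_mem_of_preTame (PreTame.of_corr hφ)

theorem w14_bdd {φ : ℤ → ℂ} (h : φ ∈ tameW) : Bdd φ := by
  obtain ⟨ψ, hψ, he⟩ := h 1 one_pos
  obtain ⟨C, hC⟩ := hψ.bdd
  refine ⟨1 + C, fun n => ?_⟩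
  calc ‖φ n‖ = ‖(φ n - ψ n) + ψ n‖ := by congr 1; ring
    _ ≤ ‖φ n - ψ n‖ + ‖ψ n‖ := norm_add_le _ _
    _ ≤ 1 + C := add_le_add (he n) (hC n)

theorem w14_closed {φ : ℤ → ℂ} (h : ∀ ε : ℝ, 0 < ε → ∃ ψ ∈ tameW, ∀ n, ‖φ n - ψ n‖ ≤ ε) : φ ∈ tameW := by
  intro ε hε
  obtain ⟨ψ, hψ, he⟩ := h (ε / 2) (by positivity)
  obtain ⟨χ, hχ, he'⟩ := hψ (ε / 2) (by positivity)
  refine ⟨χ, hχ, fun n => ?_⟩
  calc ‖φ n - χ n‖ = ‖(φ n - ψ n) + (ψ n - χ n)‖ := by congr 1; ring
    _ ≤ ‖φ n - ψ n‖ + ‖ψ n - χ n‖ := norm_add_le _ _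
    _ ≤ ε / 2 + ε / 2 := add_le_add (he n) (he' n)
    _ = ε := by ring

theorem w14_add {φ ψ : ℤ → ℂ} (hφ : φ ∈ tameW) (hψ : ψ ∈ tameW) : (fun n => φ n + ψ n) ∈ tameW := by
  intro ε hε
  obtain ⟨a, ha, hea⟩ := hφ (ε / 2) (by positivity)
  obtain ⟨b, hb, heb⟩ := hψ (ε / 2) (by positivity)
  refine ⟨_, ha.add hb, fun n => ?_⟩
  calc ‖φ n + ψ n - (a n + b n)‖ = ‖(φ n - a n) + (ψ n - b n)‖ := by congr 1; ring
    _ ≤ ‖φ n - a n‖ + ‖ψ n - b n‖ := norm_add_le _ _
    _ ≤ ε / 2 + ε / 2 := add_le_add (hea n) (heb n)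
    _ = ε := by ring

theorem w14_mul {φ ψ : ℤ → ℂ} (hφ : φ ∈ tameW) (hψ : ψ ∈ tameW) : (fun n => φ n * ψ n) ∈ tameW := by
  obtain ⟨C, hC⟩ := w14_bdd hφ
  obtain ⟨D, hD⟩ := w14_bdd hψ
  have hC0 : 0 ≤ C := (norm_nonneg _).trans (hC 0)
  have hD0 : 0 ≤ D := (norm_nonneg _).trans (hD 0)
  intro ε hε
  set δ : ℝ := min 1 (ε / (C + D + 1)) with hδ
  have hδ0 : 0 < δ := lt_min one_pos (by positivity)
  have hδ1 : δ ≤ 1 := min_le_left _ _
  have hδ2 : δ * (C + D + 1) ≤ ε := by
    have h : δ ≤ ε / (C + D + 1) := min_le_right _ _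
    calc δ * (C + D + 1) ≤ ε / (C + D + 1) * (C + D + 1) := mul_le_mul_of_nonneg_right h (by positivity)
      _ = ε := by field_simp
  obtain ⟨a, ha, hea⟩ := hφ δ hδ0
  obtain ⟨b, hb, heb⟩ := hψ δ hδ0
  refine ⟨_, ha.mul hb, fun n => ?_⟩
  have hbn : ‖b n‖ ≤ D + 1 := by
    calc ‖b n‖ = ‖ψ n - (ψ n - b n)‖ := by congr 1; ring
      _ ≤ ‖ψ n‖ + ‖ψ n - b n‖ := norm_sub_le _ _
      _ ≤ D + 1 := add_le_add (hD n) ((heb n).trans hδ1)
  calc ‖φ n * ψ n - a n * b n‖ = ‖φ n * (ψ n - b n) + (φ n - a n) * b n‖ := by congr 1; ring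
    _ ≤ ‖φ n * (ψ n - b n)‖ + ‖(φ n - a n) * b n‖ := norm_add_le _ _
    _ ≤ C * δ + δ * (D + 1) := by
        rw [norm_mul, norm_mul]
        exact add_le_add (mul_le_mul (hC n) (heb n) (norm_nonneg _) hC0)
          (mul_le_mul (hea n) hbn (norm_nonneg _) hδ0.le)
    _ = δ * (C + D + 1) := by ring
    _ ≤ ε := hδ2

theorem w14_conj {φ : ℤ → ℂ} (hφ : φ ∈ tameW) : (fun n => conj (φ n)) ∈ tameW := by
  intro ε hε
  obtain ⟨a, ha, hea⟩ := hφ ε hε
  refine ⟨_, ha.conj, fun n => ?_⟩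
  rw [← map_sub, RCLike.norm_conj]
  exact hea n

theorem w14_shift {φ : ℤ → ℂ} (hφ : φ ∈ tameW) (k : ℤ) : (fun n => φ (n + k)) ∈ tameW := by
  intro ε hε
  obtain ⟨a, ha, hea⟩ := hφ ε hε
  exact ⟨_, ha.shift k, fun n => hea _⟩

theorem w14_conv (ι : Type) [Fintype ι] [DecidableEq ι] (φ : Finset ι → ℤ → ℂ) (hφ : ∀ S, φ S ∈ tameW) :
    UCauchy (fun v : Option ι → ℤ => ∏ S : Finset ι, φ S (expo (v none) (fun i => v (some i)) S)) := by
  choose C hC using fun S => w14_bdd (hφ S)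
  have hC0 : ∀ S, 0 ≤ C S := fun S => (norm_nonneg _).trans (hC S 0)
  set B : ℝ := (∑ S, C S) + 1 with hBdef
  have hB1 : 1 ≤ B := by
    have : 0 ≤ ∑ S, C S := Finset.sum_nonneg fun S _ => hC0 S
    linarith
  have hCB : ∀ S, C S ≤ B - 1 := fun S => by
    have := Finset.single_le_sum (f := C) (fun i _ => hC0 i) (Finset.mem_univ S)
    linarith
  refine w14_uc_approx fun ε hε => ?_
  set K : ℝ := (Finset.univ : Finset (Finset ι)).card * B ^ (Finset.univ : Finset (Finset ι)).card with hK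
  have hK0 : 0 ≤ K := by positivity
  set δ : ℝ := min 1 (ε / (K + 1)) with hδ
  have hδ0 : 0 < δ := lt_min one_pos (by positivity)
  have hδ1 : δ ≤ 1 := min_le_left _ _
  have hδ2 : K * δ ≤ ε := by
    have h : δ ≤ ε / (K + 1) := min_le_right _ _
    calc K * δ ≤ (K + 1) * (ε / (K + 1)) := mul_le_mul (by linarith) h hδ0.le (by positivity)
      _ = ε := by field_simp
  choose ψ hψ hψe using fun S => hφ S δ hδ0
  refine ⟨_, w14_pt_conv ι Finset.univ ψ hψ (fun S hS => absurd (Finset.mem_univ S) hS), fun v => ?_⟩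
  refine (w14_prod_approx Finset.univ _ _ hB1 hδ0.le (fun S => ?_) (fun S => ?_) (fun S => ?_)).trans hδ2
  · exact (hC S _).trans ((hCB S).trans (by linarith))
  · calc ‖ψ S (expo (v none) (fun i => v (some i)) S)‖
        = ‖φ S (expo (v none) (fun i => v (some i)) S) - (φ S (expo (v none) (fun i => v (some i)) S)
            - ψ S (expo (v none) (fun i => v (some i)) S))‖ := by congr 1; ring
      _ ≤ ‖φ S (expo (v none) (fun i => v (some i)) S)‖ + ‖φ S (expo (v none) (fun i => v (some i)) S)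
            - ψ S (expo (v none) (fun i => v (some i)) S)‖ := norm_sub_le _ _
      _ ≤ (B - 1) + 1 := add_le_add ((hC S _).trans (hCB S)) ((hψe S _).trans hδ1)
      _ = B := by ring
  · exact hψe S _

theorem tameW_bdd : ∀ φ ∈ tameW, Bdd φ := fun _ h => w14_bdd h

theorem tameW_add : ∀ φ ∈ tameW, ∀ ψ ∈ tameW, (fun n => φ n + ψ n) ∈ tameW := fun _ h _ h' => w14_add h h'

theorem tameW_mul : ∀ φ ∈ tameW, ∀ ψ ∈ tameW, (fun n => φ n * ψ n) ∈ tameW := fun _ h _ h' => w14_mul h h'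

theorem tameW_conj : ∀ φ ∈ tameW, (fun n => conj (φ n)) ∈ tameW := fun _ h => w14_conj h

theorem tameW_shift : ∀ φ ∈ tameW, ∀ k : ℤ, (fun n => φ (n + k)) ∈ tameW := fun _ h k => w14_shift h k

theorem tameW_const : ∀ c : ℂ, (fun _ => c) ∈ tameW := fun c => corr_mem_tameW (CorrM.const c)

theorem tameW_null : ∀ φ : ℤ → ℂ, Bdd φ → Null φ → φ ∈ tameW :=
  fun _ hb hn => w14_mem_of_preTame (PreTame.of_null hb hn)

theorem tameW_closed : ∀ φ : ℤ → ℂ, (∀ ε : ℝ, 0 < ε → ∃ ψ ∈ tameW, ∀ n, ‖φ n - ψ n‖ ≤ ε) → φ ∈ tameW :=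
  fun _ h => w14_closed h

theorem tameW_conv : ∀ (ι : Type) [Fintype ι] [DecidableEq ι] (φ : Finset ι → ℤ → ℂ), (∀ S, φ S ∈ tameW) →
    UCauchy (fun v : Option ι → ℤ => ∏ S : Finset ι, φ S (expo (v none) (fun i => v (some i)) S)) :=
  fun ι _ _ φ h => w14_conv ι φ h

end Walsh
end MP_e326dc_an
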