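import Mathlib
import Pool.Agent.Lib.MP_e326dc_an.Defs
import Pool.Agent.Lib.MP_e326dc_an.Walsh.WDefs
import Pool.Agent.Lib.MP_e326dc_an.Walsh.W4

/-!
# MP_e326dc_an, part A, module W16 : sequences of finite order are tame
-/

open Filter Topology MeasureTheory
open scoped ComplexConjugate

namespace MP_e326dc_an
namespace Walsh

section act
variable {X : Type} [TopologicalSpace X] {m : ℕ}

/-- the action of `ℤ^m` on cubes: `g i` moves the vertices `S` with `i ∉ S` -/
def w16_fact (T : X ≃ₜ X) (g : Fin m → ℤ) (c : Finset (Fin m) → X) : Finset (Fin m) → X :=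
  fun S => (T ^ ∑ i ∈ Sᶜ, g i) (c S)

theorem w16_fact_zero (T : X ≃ₜ X) (c : Finset (Fin m) → X) : w16_fact T 0 c = c := by
  funext S
  simp [w16_fact]

theorem w16_fact_add (T : X ≃ₜ X) (g h : Fin m → ℤ) (c : Finset (Fin m) → X) :
    w16_fact T (g + h) c = w16_fact T g (w16_fact T h c) := by
  funext S
  simp only [w16_fact, Pi.add_apply, Finset.sum_add_distrib, zpow_add]
  rfl

theorem w16_fact_cont (T : X ≃ₜ X) (g : Fin m → ℤ) : Continuous (w16_fact T g) :=
  continuous_pi fun S => (Homeomorph.continuous _).comp (continuous_apply S)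

theorem w16_fact_univ (T : X ≃ₜ X) (g : Fin m → ℤ) (c : Finset (Fin m) → X) :
    w16_fact T g c Finset.univ = c Finset.univ := by
  simp [w16_fact]

theorem w16_fact_dcube (T : X ≃ₜ X) (g : Fin m → ℤ) (n : ℤ) (h : Fin m → ℤ) (x : X) :
    w16_fact T g (dcube T n h x) = dcube T (n + ∑ i, g i) (fun i => h i - g i) x := by
  funext S
  have e : expo (n + ∑ i, g i) (fun i => h i - g i) S = ∑ i ∈ Sᶜ, g i + expo n h S := by
    unfold expo
    rw [Finset.sum_sub_distrib, ← Finset.sum_add_sum_compl S g]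
    ring
  show (T ^ ∑ i ∈ Sᶜ, g i) ((T ^ expo n h S) x) = (T ^ expo (n + ∑ i, g i) (fun i => h i - g i) S) x
  rw [e, zpow_add]
  rfl

theorem w16_fact_cub (T : X ≃ₜ X) (g : Fin m → ℤ) {c : Finset (Fin m) → X} (hc : c ∈ Cub T (Fin m)) :
    w16_fact T g c ∈ Cub T (Fin m) := by
  refine map_mem_closure (w16_fact_cont T g) hc ?_
  rintro _ ⟨n, h, x, rfl⟩
  exact ⟨_, _, _, w16_fact_dcube T g n h x⟩

/-- the diagonal action -/
def w16_diag (T : X ≃ₜ X) (n : ℤ) (c : Finset (Fin m) → X) : Finset (Fin m) → X := fun S => (T ^ n) (c S)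

theorem w16_diag_cub (T : X ≃ₜ X) (n : ℤ) {c : Finset (Fin m) → X} (hc : c ∈ Cub T (Fin m)) :
    w16_diag T n c ∈ Cub T (Fin m) := by
  refine map_mem_closure (f := w16_diag T n)
    (continuous_pi fun S => (Homeomorph.continuous _).comp (continuous_apply S)) hc ?_
  rintro _ ⟨k, h, x, rfl⟩
  refine ⟨n + k, h, x, ?_⟩
  funext S
  show (T ^ n) ((T ^ expo k h S) x) = (T ^ expo (n + k) h S) x
  have e : expo (n + k) h S = n + expo k h S := by
    unfold expo
    ring
  rw [e, zpow_add]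
  rfl

theorem w16_const_cub (T : X ≃ₜ X) (z : X) : (fun _ => z : Finset (Fin m) → X) ∈ Cub T (Fin m) := by
  refine subset_closure ⟨0, fun _ => 0, z, ?_⟩
  funext S
  simp [dcube, expo]

/-- cubes with corner `z` -/
def w16_V (T : X ≃ₜ X) (m : ℕ) (z : X) : Type :=
  {c : Finset (Fin m) → X // c ∈ Cub T (Fin m) ∧ c Finset.univ = z}

instance (T : X ≃ₜ X) (m : ℕ) (z : X) : TopologicalSpace (w16_V T m z) := by
  unfold w16_V
  infer_instance

instance (T : X ≃ₜ X) (m : ℕ) (z : X) [CompactSpace X] [T2Space X] : CompactSpace (w16_V T m z) := by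
  have h : IsClosed {c : Finset (Fin m) → X | c ∈ Cub T (Fin m) ∧ c Finset.univ = z} :=
    isClosed_closure.inter (isClosed_eq (continuous_apply _) continuous_const)
  exact isCompact_iff_compactSpace.1 h.isCompact

/-- the action on cubes with corner `z` -/
def w16_act (T : X ≃ₜ X) (z : X) (g : Fin m → ℤ) (c : w16_V T m z) : w16_V T m z :=
  ⟨w16_fact T g c.1, w16_fact_cub T g c.2.1, by rw [w16_fact_univ]; exact c.2.2⟩

theorem w16_act_cont (T : X ≃ₜ X) (z : X) (g : Fin m → ℤ) : Continuous (w16_act (m := m) T z g) :=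
  Continuous.subtype_mk ((w16_fact_cont T g).comp continuous_subtype_val) _

/-- base point -/
def w16_pt (T : X ≃ₜ X) (m : ℕ) (z : X) : w16_V T m z := ⟨fun _ => z, w16_const_cub T z, rfl⟩

/-- averages of `f` along the orbit of the base point -/
noncomputable def w16_av (T : X ≃ₜ X) (m : ℕ) (z : X) (f : w16_V T m z → ℝ) (N : ℕ) : ℝ :=
  avg (box (0 : Fin m → ℤ) fun _ => N + 1) fun g => f (w16_act T z g (w16_pt T m z))

end act

theorem w16_avg_add {α : Type*} (s : Finset α) (f g : α → ℝ) :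
    avg s (fun a => f a + g a) = avg s f + avg s g := by
  simp only [avg, Finset.sum_add_distrib, smul_add]

theorem w16_avg_mul {α : Type*} (s : Finset α) (c : ℝ) (f : α → ℝ) :
    avg s (fun a => c * f a) = c * avg s f := by
  simp only [avg, ← Finset.mul_sum, smul_eq_mul]
  ring

theorem w16_avg_abs {α : Type*} (s : Finset α) (f : α → ℝ) (C : ℝ) (hC : 0 ≤ C) (h : ∀ a, |f a| ≤ C) :
    |avg s f| ≤ C := by
  simp only [avg, smul_eq_mul, abs_mul, abs_inv, Nat.abs_cast]
  rcases Nat.eq_zero_or_pos s.card with h0 | h0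
  · rw [h0]; simpa using hC
  · have h1 : |∑ i ∈ s, f i| ≤ s.card * C := by
      calc |∑ i ∈ s, f i| ≤ ∑ i ∈ s, |f i| := Finset.abs_sum_le_sum_abs _ _
        _ ≤ ∑ _i ∈ s, C := Finset.sum_le_sum fun i _ => h i
        _ = s.card * C := by rw [Finset.sum_const, nsmul_eq_mul]
    have h2 : (0 : ℝ) < s.card := by exact_mod_cast h0
    calc (s.card : ℝ)⁻¹ * |∑ i ∈ s, f i| ≤ (s.card : ℝ)⁻¹ * (s.card * C) :=
          mul_le_mul_of_nonneg_left h1 (by positivity)
      _ = C := by rw [← mul_assoc, inv_mul_cancel₀ h2.ne', one_mul]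

section sys
variable {X : Type} [TopologicalSpace X] {m : ℕ}

theorem w16_av_BR (T : X ≃ₜ X) (z : X) {f : w16_V T m z → ℝ} (hf : ∃ C : ℝ, ∀ c, |f c| ≤ C) :
    BR (w16_av T m z f) := by
  obtain ⟨C, hC⟩ := hf
  refine ⟨C, fun N => w16_avg_abs _ _ C ((abs_nonneg _).trans (hC (w16_pt T m z))) fun g => hC _⟩

theorem w16_bdd [CompactSpace X] [T2Space X] (T : X ≃ₜ X) (z : X) {f : w16_V T m z → ℝ} (hf : Continuous f) :
    ∃ C : ℝ, ∀ c, |f c| ≤ C := by
  obtain ⟨C, hC⟩ := isCompact_univ.exists_bound_of_continuousOn hf.continuousOn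
  exact ⟨C, fun c => hC c (Set.mem_univ c)⟩

theorem w16_E_act (T : X ≃ₜ X) (z : X) {f : w16_V T m z → ℝ} (hf : ∃ C : ℝ, ∀ c, |f c| ≤ C)
    (h : Fin m → ℤ) : ulim (w16_av T m z fun c => f (w16_act T z h c)) = ulim (w16_av T m z f) := by
  obtain ⟨C, hC⟩ := hf
  refine ulim_eq ?_
  have hx := (w16_av_BR T z ⟨C, hC⟩).tendsto
  have hd : Tendsto (fun N => w16_av T m z (fun c => f (w16_act T z h c)) N - w16_av T m z f N)
      (hyperfilter ℕ : Filter ℕ) (𝓝 0) := by
    refine Tendsto.mono_left ?_ Nat.hyperfilter_le_atTop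
    refine squeeze_zero_norm (a := fun N : ℕ => 2 * C * ∑ i, |(h i : ℝ)| / ((N : ℝ) + 1)) ?_ ?_
    · intro N
      rw [Real.norm_eq_abs]
      have h1 := avg_shift (0 : Fin m → ℤ) (fun _ => N + 1) (fun _ => Nat.le_add_left 1 N) h
        (fun g => f (w16_act T z g (w16_pt T m z))) C (fun g => hC _)
      have h2 : w16_av T m z (fun c => f (w16_act T z h c)) N =
          avg (box (0 : Fin m → ℤ) fun _ => N + 1) fun g => f (w16_act T z (g + h) (w16_pt T m z)) := by
        unfold w16_av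
        congr 1
        funext g
        have h6 : w16_act T z h (w16_act T z g (w16_pt T m z)) = w16_act T z (g + h) (w16_pt T m z) := by
          refine Subtype.ext ?_
          show w16_fact T h (w16_fact T g _) = w16_fact T (g + h) _
          rw [add_comm, w16_fact_add]
        show f (w16_act T z h (w16_act T z g (w16_pt T m z))) = _
        rw [h6]
      rw [h2]
      refine h1.trans (le_of_eq ?_)
      push_cast
      rfl
    · have h3 : Tendsto (fun N : ℕ => ∑ i, |(h i : ℝ)| / ((N : ℝ) + 1)) atTop (𝓝 (∑ _i : Fin m, (0 : ℝ))) := by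
        refine tendsto_finsetSum _ fun i _ => ?_
        have h7 := (tendsto_const_div_atTop_nhds_zero_nat |(h i : ℝ)|).comp (tendsto_add_atTop_nat 1)
        refine h7.congr fun N => ?_
        simp [Function.comp]
      rw [Finset.sum_const_zero] at h3
      simpa using h3.const_mul (2 * C)
  have := hx.add hd
  rw [add_zero] at this
  refine this.congr fun N => by ring

/-- the system of cubes with corner `z` -/
noncomputable def w16_sys [CompactSpace X] [T2Space X] (T : X ≃ₜ X) (m : ℕ) (z : X) : Sys where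
  Ω := w16_V T m z
  G := Fin m → ℤ
  act := w16_act T z
  act_zero := fun c => Subtype.ext (w16_fact_zero T c.1)
  act_add := fun g h c => Subtype.ext (w16_fact_add T g h c.1)
  A := {f | Continuous f}
  bdd := fun f hf => w16_bdd T z hf
  const_mem := fun c => continuous_const
  add_mem := fun f hf g hg => hf.add hg
  mul_mem := fun f hf g hg => hf.mul hg
  comp_mem := fun f hf g => hf.comp (w16_act_cont T z g)
  E f := ulim (w16_av T m z f)
  E_add := by
    intro f hf g hg
    rw [← ulim_add (w16_av_BR T z (w16_bdd T z hf)) (w16_av_BR T z (w16_bdd T z hg))]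
    congr 1
    funext N
    exact w16_avg_add _ _ _
  E_smul := by
    intro c f hf
    rw [← ulim_smul c (w16_av_BR T z (w16_bdd T z hf))]
    congr 1
    funext N
    exact w16_avg_mul _ _ _
  E_nonneg := by
    intro f hf h
    refine le_ulim (w16_av_BR T z (w16_bdd T z hf)) (Eventually.of_forall fun N => ?_)
    unfold w16_av avg
    exact smul_nonneg (by positivity) (Finset.sum_nonneg fun g _ => h _)
  E_one := by
    have e : w16_av T m z (fun _ => 1) = fun _ => 1 := by
      funext N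
      unfold w16_av avg
      rw [Finset.sum_const, nsmul_eq_mul, mul_one, smul_eq_mul]
      refine inv_mul_cancel₀ ?_
      rw [w4_card_box]
      positivity
    rw [e, ulim_const]
  E_act := fun f hf g => w16_E_act T z (w16_bdd T z hf) g

end sys

/-! ### approximation of the corner -/

section approx
variable {X : Type} [TopologicalSpace X]

theorem w16_sep [CompactSpace X] [T2Space X] {a b : X} (h : a ≠ b) : ∃ f : C(X, ℂ), f a ≠ f b := by
  obtain ⟨f, hf, hg, -⟩ := exists_continuous_zero_one_of_isClosed (isClosed_singleton (x := a))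
    (isClosed_singleton (x := b)) (by simpa using h)
  refine ⟨⟨fun x => (f x : ℂ), Complex.continuous_ofReal.comp f.continuous⟩, ?_⟩
  have h1 : f a = 0 := hf (Set.mem_singleton a)
  have h2 : f b = 1 := hg (Set.mem_singleton b)
  simp [h1, h2]

/-- the function `c ↦ f (c S)` on the set of cubes -/
noncomputable def w16_gen (T : X ≃ₜ X) (s : ℕ) (x : {S : Finset (Fin (s + 1)) // S ≠ Finset.univ} × C(X, ℂ)) :
    C({c // c ∈ Cub T (Fin (s + 1))}, ℂ) :=
  ⟨fun c => x.2 (c.1 x.1.1), x.2.continuous.comp ((continuous_apply _).comp continuous_subtype_val)⟩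

theorem w16_approx [CompactSpace X] [T2Space X] (T : X ≃ₜ X) (s : ℕ) (hu : UniqCub T s) (F : C(X, ℂ))
    (ε : ℝ) (hε : 0 < ε) :
    ∃ (J : Type) (_ : Fintype J) (l : J → List ({S : Finset (Fin (s + 1)) // S ≠ Finset.univ} × C(X, ℂ))),
      ∀ c ∈ Cub T (Fin (s + 1)),
        ‖F (c Finset.univ) - ∑ j, ((l j).map fun x => x.2 (c x.1.1)).prod‖ ≤ ε := by
  classical
  have : CompactSpace {c // c ∈ Cub T (Fin (s + 1))} :=
    isCompact_iff_compactSpace.1 (isClosed_closure.isCompact)
  set B : StarSubalgebra ℂ C({c // c ∈ Cub T (Fin (s + 1))}, ℂ) :=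
    StarAlgebra.adjoin ℂ (Set.range (w16_gen T s)) with hB
  have hsep : B.SeparatesPoints := by
    intro c c' hcc
    have h1 : ∃ S, S ≠ Finset.univ ∧ c.1 S ≠ c'.1 S := by
      by_contra hcon
      push Not at hcon
      exact hcc (Subtype.ext (hu c.1 c.2 c'.1 c'.2 hcon))
    obtain ⟨S, hS, hne⟩ := h1
    obtain ⟨f, hf⟩ := w16_sep hne
    exact ⟨w16_gen T s (⟨S, hS⟩, f), ⟨w16_gen T s (⟨S, hS⟩, f),
      StarAlgebra.subset_adjoin ℂ _ ⟨_, rfl⟩, rfl⟩, hf⟩
  have htop := ContinuousMap.starSubalgebra_topologicalClosure_eq_top_of_separatesPoints B hsep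
  let G : C({c // c ∈ Cub T (Fin (s + 1))}, ℂ) :=
    ⟨fun c => F (c.1 Finset.univ), F.continuous.comp ((continuous_apply _).comp continuous_subtype_val)⟩
  have hG : G ∈ B.topologicalClosure := by rw [htop]; trivial
  have hG' : G ∈ closure (B : Set C({c // c ∈ Cub T (Fin (s + 1))}, ℂ)) := by
    rw [← StarSubalgebra.topologicalClosure_coe]; exact hG
  obtain ⟨Θ, hΘ, hd⟩ := Metric.mem_closure_iff.1 hG' ε hε
  have key : ∃ (J : Type) (_ : Fintype J)
      (l : J → List ({S : Finset (Fin (s + 1)) // S ≠ Finset.univ} × C(X, ℂ))),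
      ∀ c : {c // c ∈ Cub T (Fin (s + 1))}, Θ c = ∑ j, ((l j).map fun x => x.2 (c.1 x.1.1)).prod := by
    have hΘ' : Θ ∈ StarAlgebra.adjoin ℂ (Set.range (w16_gen T s)) := hΘ
    clear hd hΘ
    induction hΘ' using StarAlgebra.adjoin_induction with
    | mem x hx =>
      obtain ⟨y, rfl⟩ := hx
      exact ⟨Unit, inferInstance, fun _ => [y], fun c => by simp [w16_gen]⟩
    | algebraMap r =>
      refine ⟨Unit, inferInstance, fun _ => [(⟨∅, ?_⟩, ContinuousMap.const X r)], fun c => by simp⟩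
      intro h
      have : (0 : Fin (s + 1)) ∈ (∅ : Finset (Fin (s + 1))) := by rw [h]; exact Finset.mem_univ _
      simp at this
    | add x y _ _ hx hy =>
      obtain ⟨J, hJ, l, hl⟩ := hx
      obtain ⟨J', hJ', l', hl'⟩ := hy
      refine ⟨J ⊕ J', inferInstance, Sum.elim l l', fun c => ?_⟩
      simp [hl, hl']
    | mul x y _ _ hx hy =>
      obtain ⟨J, hJ, l, hl⟩ := hx
      obtain ⟨J', hJ', l', hl'⟩ := hy
      refine ⟨J × J', inferInstance, fun p => l p.1 ++ l' p.2, fun c => ?_⟩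
      simp only [ContinuousMap.mul_apply, hl, hl', List.map_append, List.prod_append]
      rw [Finset.sum_mul_sum, Fintype.sum_prod_type]
    | star x _ hx =>
      obtain ⟨J, hJ, l, hl⟩ := hx
      refine ⟨J, hJ, fun j => (l j).map fun x => (x.1, star x.2), fun c => ?_⟩
      rw [ContinuousMap.star_apply, hl, star_sum]
      refine Finset.sum_congr rfl fun j _ => ?_
      show star ((l j).map fun x => x.2 (c.1 x.1.1)).prod =
        (((l j).map fun x => (x.1, star x.2)).map fun x => x.2 (c.1 x.1.1)).prod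
      generalize l j = L
      induction L with
      | nil => simp
      | cons a L ih =>
        rw [List.map_cons, List.prod_cons, List.map_cons, List.map_cons, List.prod_cons, star_mul', ih]
        rfl
  obtain ⟨J, hJ, l, hl⟩ := key
  refine ⟨J, hJ, l, fun c hc => ?_⟩
  have h1 : dist (G ⟨c, hc⟩) (Θ ⟨c, hc⟩) ≤ dist G Θ := ContinuousMap.dist_apply_le_dist _
  rw [hl ⟨c, hc⟩, dist_eq_norm] at h1
  exact h1.trans hd.le

end approx

/-! ### the complex functional -/

theorem w16_CA_add (s : Sys) {f g : s.Ω → ℂ} (hf : f ∈ s.CA) (hg : g ∈ s.CA) :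
    (fun ω => f ω + g ω) ∈ s.CA := by
  refine ⟨?_, ?_⟩
  · simpa only [Complex.add_re] using s.add_mem _ hf.1 _ hg.1
  · simpa only [Complex.add_im] using s.add_mem _ hf.2 _ hg.2

theorem w16_EC_add (s : Sys) {f g : s.Ω → ℂ} (hf : f ∈ s.CA) (hg : g ∈ s.CA) :
    s.EC (fun ω => f ω + g ω) = s.EC f + s.EC g := by
  unfold Sys.EC
  have h1 : s.E (fun ω => (f ω + g ω).re) = s.E (fun ω => (f ω).re) + s.E (fun ω => (g ω).re) := by
    simpa only [Complex.add_re] using s.E_add _ hf.1 _ hg.1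
  have h2 : s.E (fun ω => (f ω + g ω).im) = s.E (fun ω => (f ω).im) + s.E (fun ω => (g ω).im) := by
    simpa only [Complex.add_im] using s.E_add _ hf.2 _ hg.2
  rw [h1, h2]
  push_cast
  ring

theorem w16_CA_neg (s : Sys) {f : s.Ω → ℂ} (hf : f ∈ s.CA) : (fun ω => -f ω) ∈ s.CA := by
  refine ⟨?_, ?_⟩
  · simpa only [Complex.neg_re] using s.neg_mem hf.1
  · simpa only [Complex.neg_im] using s.neg_mem hf.2

theorem w16_EC_neg (s : Sys) {f : s.Ω → ℂ} (hf : f ∈ s.CA) : s.EC (fun ω => -f ω) = -s.EC f := by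
  unfold Sys.EC
  have h0 : ∀ g ∈ s.A, s.E (fun ω => -g ω) = -s.E g := by
    intro g hg
    have := s.E_smul (-1) g hg
    simpa using this
  have h1 : s.E (fun ω => (-f ω).re) = -s.E (fun ω => (f ω).re) := by
    simpa only [Complex.neg_re] using h0 _ hf.1
  have h2 : s.E (fun ω => (-f ω).im) = -s.E (fun ω => (f ω).im) := by
    simpa only [Complex.neg_im] using h0 _ hf.2
  rw [h1, h2]
  push_cast
  ring

theorem w16_CA_const (s : Sys) (c : ℂ) : (fun _ => c) ∈ s.CA := ⟨s.const_mem _, s.const_mem _⟩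

theorem w16_EC_const (s : Sys) (c : ℂ) : s.EC (fun _ => c) = c := by
  unfold Sys.EC
  rw [s.E_const, s.E_const]
  exact Complex.re_add_im c

theorem w16_CA_sum (s : Sys) {J : Type} (t : Finset J) (f : J → s.Ω → ℂ) (hf : ∀ j, f j ∈ s.CA) :
    (fun ω => ∑ j ∈ t, f j ω) ∈ s.CA := by
  classical
  induction t using Finset.induction_on with
  | empty => simpa using w16_CA_const s 0
  | insert a t ha ih =>
    simp only [Finset.sum_insert ha]
    exact w16_CA_add s (hf a) ih

theorem w16_EC_sum (s : Sys) {J : Type} (t : Finset J) (f : J → s.Ω → ℂ) (hf : ∀ j, f j ∈ s.CA) :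
    s.EC (fun ω => ∑ j ∈ t, f j ω) = ∑ j ∈ t, s.EC (f j) := by
  classical
  induction t using Finset.induction_on with
  | empty => simpa using w16_EC_const s 0
  | insert a t ha ih =>
    simp only [Finset.sum_insert ha]
    rw [w16_EC_add s (hf a) (w16_CA_sum s t f hf), ih]

theorem w16_E_abs (s : Sys) {f : s.Ω → ℝ} (hf : f ∈ s.A) (C : ℝ) (h : ∀ ω, |f ω| ≤ C) : |s.E f| ≤ C := by
  rw [abs_le]
  constructor
  · have := s.E_mono (s.const_mem (-C)) hf fun ω => (abs_le.1 (h ω)).1
    rwa [s.E_const] at this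
  · have := s.E_mono hf (s.const_mem C) fun ω => (abs_le.1 (h ω)).2
    rwa [s.E_const] at this

theorem w16_EC_norm (s : Sys) {f : s.Ω → ℂ} (hf : f ∈ s.CA) (C : ℝ) (h : ∀ ω, ‖f ω‖ ≤ C) :
    ‖s.EC f‖ ≤ 2 * C := by
  unfold Sys.EC
  refine (norm_add_le _ _).trans ?_
  rw [norm_mul, Complex.norm_I, mul_one, Complex.norm_real, Complex.norm_real]
  have h1 := w16_E_abs s hf.1 C fun ω => (Complex.abs_re_le_norm _).trans (h ω)
  have h2 := w16_E_abs s hf.2 C fun ω => (Complex.abs_im_le_norm _).trans (h ω)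
  rw [Real.norm_eq_abs, Real.norm_eq_abs]
  linarith

/-! ### the theorem -/

theorem w16_idx {s : ℕ} (S : {S : Finset (Fin (s + 1)) // S ≠ Finset.univ}) : ∃ i, i ∉ S.1 := by
  by_contra h
  push Not at h
  exact S.2 (Finset.eq_univ_iff_forall.2 h)

theorem ordSeq_mem_tameW (s : ℕ) (φ : ℤ → ℂ) (h : OrdSeq s φ) : φ ∈ tameW := by
  obtain ⟨P, -, hord, z, F, hφ⟩ := h
  intro ε hε
  obtain ⟨J, hJ, l, hl⟩ := w16_approx P.T s hord.uniq F (ε / 2) (by positivity)
  set Y := w16_sys P.T (s + 1) z with hY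
  choose ix hix using w16_idx (s := s)
  let L : J → List ((ℤ → Y.G) × (Y.Ω → ℂ)) := fun j => (l j).map fun x =>
    ((fun n => (Pi.single (ix x.1) n : Fin (s + 1) → ℤ)), fun c : w16_V P.T (s + 1) z => x.2 (c.1 x.1.1))
  have hpr : ∀ (j : J) (n : ℤ) (c : w16_V P.T (s + 1) z),
      Y.pr (L j) n c = ((l j).map fun x => x.2 ((P.T ^ n) (c.1 x.1.1))).prod := by
    intro j n c
    unfold Sys.pr
    simp only [L, List.map_map]
    congr 1
    refine List.map_congr_left fun x _ => ?_
    show x.2 ((P.T ^ ∑ i ∈ x.1.1ᶜ, (Pi.single (ix x.1) n : Fin (s + 1) → ℤ) i) (c.1 x.1.1)) = _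
    rw [Finset.sum_pi_single', if_pos (by simpa using hix x.1)]
  have hCA : ∀ f : w16_V P.T (s + 1) z → ℂ, Continuous f → f ∈ Y.CA := fun f hf =>
    ⟨Complex.continuous_re.comp hf, Complex.continuous_im.comp hf⟩
  have hprC : ∀ (j : J) (n : ℤ), Y.pr (L j) n ∈ Y.CA := by
    intro j n
    refine hCA _ ?_
    have e : Y.pr (L j) n = fun c : w16_V P.T (s + 1) z =>
        ((l j).map fun x => x.2 ((P.T ^ n) (c.1 x.1.1))).prod := funext fun c => hpr j n c
    rw [e]
    refine continuous_list_prod _ fun x _ => ?_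
    exact x.2.continuous.comp ((Homeomorph.continuous _).comp
      ((continuous_apply _).comp continuous_subtype_val))
  refine ⟨fun n => ∑ j, Y.EC (Y.pr (L j) n), ⟨(Finset.univ : Finset J).toList.map
    fun j n => Y.EC (Y.pr (L j) n), fun _ => 0, ?_, ⟨0, by simp⟩, ?_, ?_⟩, ?_⟩
  · intro ψ hψ
    rw [List.mem_map] at hψ
    obtain ⟨j, -, rfl⟩ := hψ
    refine ⟨Y, 1, L j, ?_, fun n => rfl⟩
    intro x hx
    simp only [L, List.mem_map] at hx
    obtain ⟨y, -, rfl⟩ := hx
    refine ⟨?_, hCA _ (y.2.continuous.comp ((continuous_apply _).comp continuous_subtype_val))⟩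
    intro h a b
    show (Pi.single (ix y.1) (a + h) : Fin (s + 1) → ℤ) - Pi.single (ix y.1) a =
      Pi.single (ix y.1) (b + h) - Pi.single (ix y.1) b
    rw [Pi.single_add, Pi.single_add]
    ring
  · intro ε hε
    exact ⟨0, fun M L _ => by simpa [avg] using hε.le⟩
  · intro n
    rw [List.map_map]
    simp only [Function.comp_def]
    rw [Finset.sum_map_toList, add_zero]
  · intro n
    have hD : ∀ c : w16_V P.T (s + 1) z, ‖φ n + -∑ j, Y.pr (L j) n c‖ ≤ ε / 2 := by
      intro c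
      have h1 := hl _ (w16_diag_cub P.T n c.2.1)
      have h2 : w16_diag P.T n c.1 Finset.univ = (P.T ^ n) z := by
        show (P.T ^ n) (c.1 Finset.univ) = _
        rw [c.2.2]
      rw [h2, ← hφ] at h1
      rw [← sub_eq_add_neg]
      refine le_trans (le_of_eq ?_) h1
      congr 2
      exact Finset.sum_congr rfl fun j _ => hpr j n c
    have hs : (fun c => ∑ j, Y.pr (L j) n c) ∈ Y.CA := w16_CA_sum Y _ _ fun j => hprC j n
    have hE : Y.EC (fun c => φ n + -∑ j, Y.pr (L j) n c) = φ n - ∑ j, Y.EC (Y.pr (L j) n) := by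
      rw [w16_EC_add Y (w16_CA_const Y _) (w16_CA_neg Y hs), w16_EC_const, w16_EC_neg Y hs,
        w16_EC_sum Y _ _ fun j => hprC j n, sub_eq_add_neg]
    rw [← hE]
    refine (w16_EC_norm Y (w16_CA_add Y (w16_CA_const Y _) (w16_CA_neg Y hs)) (ε / 2) hD).trans (le_of_eq ?_)
    ring

end Walsh
end MP_e326dc_an
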