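import Mathlib
import Pool.Agent.Lib.MP_e326dc_an.Defs
import Pool.Agent.Lib.MP_e326dc_an.Walsh.W14
import Pool.Agent.Lib.MP_e326dc_an.Walsh.W16

/-!
# MP_e326dc_an, NIL : interface (W), `tameW` is a tame algebra
-/

namespace MP_e326dc_an
namespace Walsh

theorem tameW_tame : TameAlg tameW where
  bdd := tameW_bdd
  add := tameW_add
  mul := tameW_mul
  conj_mem := tameW_conj
  shift := tameW_shift
  const := tameW_const
  null := tameW_null
  ord := ordSeq_mem_tameW
  closed := tameW_closed
  conv := tameW_conv

end Walsh
end MP_e326dc_an
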