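import Mathlib
import Pool.Agent.Lib.MP_e326dc_an.Defs
import Pool.Agent.Lib.MP_e326dc_an.Final
import Pool.Agent.Lib.MP_e326dc_an.Walsh.Sys
import Pool.Agent.Lib.MP_e326dc_an.Walsh.WDefs

/-!
# MP_e326dc_an, part A, module W15 : integer multicorrelations of probability spaces

The system of a measure preserving action on a probability space; integrals of products along polynomials
are abstract multicorrelations.
-/

open Filter Topology MeasureTheory

namespace MP_e326dc_an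
namespace Walsh

section
variable {A Ω : Type} [AddCommGroup A] [MeasurableSpace Ω] {μ : Measure Ω} [IsProbabilityMeasure μ]

theorem integrable_of_bdd {f : Ω → ℝ} (hf : Measurable f) (hb : ∃ C : ℝ, ∀ ω, |f ω| ≤ C) :
    Integrable f μ := by
  obtain ⟨C, hC⟩ := hb
  exact Integrable.of_bound hf.aestronglyMeasurable C (Eventually.of_forall fun ω => by
    rw [Real.norm_eq_abs]; exact hC ω)

/-- the abstract system of a measure preserving action on a probability space -/
noncomputable def mpSys (T : MPAction A Ω μ) : Sys where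
  Ω := Ω
  G := A
  act := T.T
  act_zero := T.T_zero
  act_add := T.T_add
  A := {f | Measurable f ∧ ∃ C : ℝ, ∀ ω, |f ω| ≤ C}
  bdd f hf := hf.2
  const_mem c := ⟨measurable_const, |c|, fun _ => le_rfl⟩
  add_mem f hf g hg := by
    obtain ⟨C, hC⟩ := hf.2
    obtain ⟨D, hD⟩ := hg.2
    exact ⟨hf.1.add hg.1, C + D, fun ω => (abs_add_le _ _).trans (add_le_add (hC ω) (hD ω))⟩
  mul_mem f hf g hg := by
    obtain ⟨C, hC⟩ := hf.2
    obtain ⟨D, hD⟩ := hg.2
    refine ⟨hf.1.mul hg.1, C * D, fun ω => ?_⟩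
    rw [abs_mul]
    exact mul_le_mul (hC ω) (hD ω) (abs_nonneg _) ((abs_nonneg _).trans (hC ω))
  comp_mem f hf g := by
    obtain ⟨C, hC⟩ := hf.2
    exact ⟨hf.1.comp (T.mp g).measurable, C, fun ω => hC _⟩
  E f := ∫ ω, f ω ∂μ
  E_add f hf g hg := integral_add (integrable_of_bdd hf.1 hf.2) (integrable_of_bdd hg.1 hg.2)
  E_smul c f _ := integral_const_mul c f
  E_nonneg f _ h := integral_nonneg h
  E_one := by simp
  E_act f hf g := (T.mp g).integral_comp' (f := ⟨⟨T.T g, T.T (-g), fun ω => by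
    rw [← T.T_add, neg_add_cancel, T.T_zero], fun ω => by rw [← T.T_add, add_neg_cancel, T.T_zero]⟩,
    (T.mp g).measurable, (T.mp (-g)).measurable⟩) f

theorem mem_CA_mpSys (T : MPAction A Ω μ) {f : Ω → ℂ} (hf : Measurable f) (hb : ∃ C : ℝ, ∀ ω, ‖f ω‖ ≤ C) :
    f ∈ (mpSys T).CA := by
  obtain ⟨C, hC⟩ := hb
  exact ⟨⟨Complex.measurable_re.comp hf, C, fun ω => (Complex.abs_re_le_norm _).trans (hC ω)⟩,
    ⟨Complex.measurable_im.comp hf, C, fun ω => (Complex.abs_im_le_norm _).trans (hC ω)⟩⟩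

theorem EC_mpSys (T : MPAction A Ω μ) {f : Ω → ℂ} (hf : Measurable f) (hb : ∃ C : ℝ, ∀ ω, ‖f ω‖ ≤ C) :
    (mpSys T).EC f = ∫ ω, f ω ∂μ := by
  obtain ⟨C, hC⟩ := hb
  have hi : Integrable f μ := Integrable.of_bound hf.aestronglyMeasurable C (Eventually.of_forall hC)
  rw [← integral_re_add_im hi]
  rfl

/-- product of a list of measurable bounded functions -/
theorem measurable_bdd_prod {ι : Type*} (L : List ι) (F : ι → Ω → ℂ) (h : ∀ x ∈ L, Measurable (F x) ∧
    ∃ C : ℝ, ∀ ω, ‖F x ω‖ ≤ C) :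
    Measurable (fun ω => (L.map fun x => F x ω).prod) ∧ ∃ C : ℝ, ∀ ω, ‖(L.map fun x => F x ω).prod‖ ≤ C := by
  induction L with
  | nil => exact ⟨by simp, 1, fun ω => by simp⟩
  | cons x L ih =>
    obtain ⟨hm, C, hC⟩ := ih fun y hy => h y (List.mem_cons_of_mem _ hy)
    obtain ⟨hmx, D, hD⟩ := h x List.mem_cons_self
    refine ⟨?_, D * C, fun ω => ?_⟩
    · simp only [List.map_cons, List.prod_cons]
      exact hmx.mul hm
    · simp only [List.map_cons, List.prod_cons]
      rw [norm_mul]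
      exact mul_le_mul (hD ω) (hC ω) (norm_nonneg _) ((norm_nonneg _).trans (hD ω))

/-- Integer multicorrelations of a measure preserving action are abstract multicorrelations. -/
theorem corr_of_mp {B : Type} [AddCommGroup B] (T : MPAction A Ω μ) {d : ℕ} (L : List ((B → A) × (Ω → ℂ)))
    (hL : ∀ x ∈ L, PolyLE d x.1 ∧ Measurable x.2 ∧ ∃ C : ℝ, ∀ ω, ‖x.2 ω‖ ≤ C) :
    CorrM B (fun n => ∫ ω, (L.map fun x => x.2 (T.T (x.1 n) ω)).prod ∂μ) := by
  refine ⟨mpSys T, d, L, fun x hx => ⟨(hL x hx).1, mem_CA_mpSys T (hL x hx).2.1 (hL x hx).2.2⟩, fun n => ?_⟩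
  obtain ⟨h1, h2⟩ := measurable_bdd_prod L (fun x ω => x.2 (T.T (x.1 n) ω)) fun x hx => by
    obtain ⟨-, hm, C, hC⟩ := hL x hx
    exact ⟨hm.comp (T.mp _).measurable, C, fun ω => hC _⟩
  exact (EC_mpSys T h1 h2).symm

end

end Walsh
end MP_e326dc_an
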