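import Mathlib
import Pool.Agent.Lib.MP_e326dc_an.Defs
import Pool.Agent.Lib.MP_e326dc_an.Final
import Pool.Agent.Lib.MP_e326dc_an.G.Split
import Pool.Agent.Lib.MP_e326dc_an.Walsh.WDefs
import Pool.Agent.Lib.MP_e326dc_an.Walsh.W15

/-!
# MP_e326dc_an, part A, module W17 : real polynomial phases are correlations
-/

open Filter Topology MeasureTheory

namespace MP_e326dc_an
namespace Walsh

/-- the rotation of the circle by the real numbers -/
noncomputable def rotR : MPAction ℝ UnitAddCircle (volume : Measure UnitAddCircle) where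
  T t θ := θ + (t : UnitAddCircle)
  T_zero θ := by simp
  T_add t t' θ := by
    rw [AddCircle.coe_add, add_assoc, add_comm (t' : UnitAddCircle)]
  mp t := measurePreserving_add_right volume _

theorem isProb_circle : IsProbabilityMeasure (volume : Measure UnitAddCircle) :=
  ⟨UnitAddCircle.measure_univ⟩

theorem corr_exp (r : Polynomial ℝ) :
    Corr (fun n : ℤ => Complex.exp (2 * Real.pi * (r.eval (n : ℝ)) * Complex.I)) := by
  haveI := isProb_circle
  have key := corr_of_mp (B := ℤ) rotR (d := r.natDegree)
    [((fun n : ℤ => r.eval (n : ℝ)), fun θ : UnitAddCircle => ((AddCircle.toCircle θ : Circle) : ℂ)),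
      ((fun _ : ℤ => (0 : ℝ)), fun θ : UnitAddCircle => ((AddCircle.toCircle (-θ) : Circle) : ℂ))] (by
    intro x hx
    simp only [List.mem_cons, List.not_mem_nil, or_false] at hx
    rcases hx with rfl | rfl
    · refine ⟨polyLE_real _ r le_rfl, ?_, 1, fun θ => (Circle.norm_coe _).le⟩
      exact (continuous_subtype_val.comp (AddCircle.continuous_toCircle)).measurable
    · refine ⟨?_, ?_, 1, fun θ => (Circle.norm_coe _).le⟩
      · have h0 : PolyLE r.natDegree fun n : ℤ => (0 : Polynomial ℝ).eval (n : ℝ) :=
          polyLE_real _ 0 (by simp)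
        simpa using h0
      · exact (continuous_subtype_val.comp ((AddCircle.continuous_toCircle).comp continuous_neg)).measurable)
  refine (congrArg Corr (funext fun n => ?_)).mp key
  have h1 : ∀ θ : UnitAddCircle, ([((fun n : ℤ => r.eval (n : ℝ)),
      fun θ : UnitAddCircle => ((AddCircle.toCircle θ : Circle) : ℂ)),
      ((fun _ : ℤ => (0 : ℝ)), fun θ : UnitAddCircle => ((AddCircle.toCircle (-θ) : Circle) : ℂ))].map
      fun x => x.2 (rotR.T (x.1 n) θ)).prod = Complex.exp (2 * Real.pi * (r.eval (n : ℝ)) * Complex.I) := by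
    intro θ
    simp only [List.map_cons, List.map_nil, List.prod_cons, List.prod_nil, mul_one, rotR]
    rw [AddCircle.coe_zero, add_zero, ← Circle.coe_mul, ← AddCircle.toCircle_add,
      show θ + ((r.eval (n : ℝ) : ℝ) : UnitAddCircle) + -θ = ((r.eval (n : ℝ) : ℝ) : UnitAddCircle) by abel,
      AddCircle.toCircle_apply_mk, Circle.coe_exp]
    congr 1
    push_cast
    ring
  simp_rw [h1]
  rw [integral_const]
  simp

end Walsh
end MP_e326dc_an
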